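import Pool.Agent.Work.MP_bec1e1_E_helper47.Interface

set_option autoImplicit false
set_option maxHeartbeats 400000

open Filter Topology
open scoped BigOperators

namespace Pool.Agent.LCSE

lemma Ex_eq_sum (k n : ℕ) (f : List (Fin k) → ℝ) :
    Ex k n f = (∑ x : Fin n → Fin k, f (List.ofFn x)) / (k : ℝ) ^ n := by
  induction n generalizing f with
  | zero => simp
  | succ n ih =>
    rw [Ex_succ]
    have h1 : (∑ x : Fin (n + 1) → Fin k, f (List.ofFn x)) =
        ∑ q : Fin k × (Fin n → Fin k), f (q.1 :: List.ofFn q.2) := by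
      symm
      refine Fintype.sum_equiv (Fin.consEquiv (fun _ => Fin k)) _ _ ?_
      rintro ⟨c, x⟩
      simp [Fin.consEquiv]
    rw [h1, Fintype.sum_prod_type, pow_succ, ← div_div]
    congr 1
    rw [Finset.sum_div]
    exact Finset.sum_congr rfl fun c _ => ih _

lemma integral_uniform_eq (k n : ℕ) [NeZero k] (g : List (Fin k) → List (Fin k) → ℝ) :
    (∫ p : (Fin n → Fin k) × (Fin n → Fin k), g (List.ofFn p.1) (List.ofFn p.2)
      ∂(PMF.uniformOfFintype ((Fin n → Fin k) × (Fin n → Fin k))).toMeasure) =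
      Ex k n (fun x => Ex k n (fun y => g x y)) := by
  rw [PMF.integral_eq_sum, Ex_eq_sum]
  simp only [Ex_eq_sum, PMF.uniformOfFintype_apply, smul_eq_mul]
  rw [Fintype.sum_prod_type, Finset.sum_div]
  refine Finset.sum_congr rfl fun x _ => ?_
  rw [← Finset.mul_sum]
  simp only [ENNReal.toReal_inv, ENNReal.toReal_natCast, Fintype.card_prod, Fintype.card_fun,
    Fintype.card_fin]
  push_cast
  have hk : (k : ℝ) ≠ 0 := by
    have := NeZero.ne k
    exact_mod_cast this
  field_simp

theorem stmt_CONV : Stmt_CONV := by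
  intro k n _
  constructor
  · intro t
    have h1 := integral_uniform_eq k n (fun x y => if t ≤ (L x y : ℝ) then (1 : ℝ) else 0)
    unfold PrL
    rw [← h1]
    have hm : MeasurableSet {p : (Fin n → Fin k) × (Fin n → Fin k) |
        t ≤ ((sSup {m : ℕ | ∃ l : List (Fin k), l.length = m ∧ l.Sublist (List.ofFn p.1) ∧
        l.Sublist (List.ofFn p.2)} : ℕ) : ℝ)} := Set.Finite.measurableSet (Set.toFinite _)
    rw [← MeasureTheory.integral_indicator_one hm]
    refine MeasureTheory.integral_congr_ae (Filter.Eventually.of_forall fun p => ?_)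
    simp only [Set.indicator, L, Pi.one_apply]
    by_cases h : t ≤ ((sSup {m : ℕ | ∃ l : List (Fin k), l.length = m ∧
        l.Sublist (List.ofFn p.1) ∧ l.Sublist (List.ofFn p.2)} : ℕ) : ℝ)
    · rw [if_pos (show p ∈ _ from h), if_pos h]
    · rw [if_neg (show ¬ p ∈ _ from h), if_neg h]
  · exact integral_uniform_eq k n (fun x y => (L x y : ℝ))

end Pool.Agent.LCSE
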