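import Pool.Agent.Work.MP_bec1e1_E_helper47.Interface

/-!
# Block EB: exponential blocks
-/

set_option autoImplicit false
set_option maxHeartbeats 400000

open Filter Topology
open scoped BigOperators

namespace Pool.Agent.LCSE
namespace EBAux

variable {k : ℕ}

lemma Ex2_append (m n : ℕ) (f : List (Fin k) → List (Fin k) → ℝ) :
    Ex k (m + n) (fun u => Ex k (m + n) (fun v => f u v)) =
      Ex k m (fun u => Ex k m (fun v => Ex k n (fun u' => Ex k n (fun v' =>
        f (u ++ u') (v ++ v'))))) := by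
  rw [Ex_append]
  refine Ex_congr fun x _ => ?_
  rw [Ex_comm, Ex_append]
  refine Ex_congr fun y _ => ?_
  rw [Ex_comm]

lemma Z_pow (hk : 0 < k) {z : ℝ} (hz : 0 ≤ z) (n q : ℕ) :
    Z k z n n ^ q ≤ Z k z (q * n) (q * n) := by
  induction q with
  | zero => rw [pow_zero]; exact one_le_Z hk hz _ _
  | succ q ih =>
    rw [pow_succ, show (q + 1) * n = q * n + n by ring]
    refine (mul_le_mul_of_nonneg_right ih (Z_nonneg hk _ _ _)).trans ?_
    exact Z_mul_le hk hz _ _ _ _

/-- probability that `L = l` -/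
noncomputable def Pl (k m l : ℕ) : ℝ :=
  Ex k m (fun x => Ex k m (fun y => if L x y = l then (1 : ℝ) else 0))

lemma Pl_nonneg (m l : ℕ) : 0 ≤ Pl k m l :=
  Ex_nonneg fun x _ => Ex_nonneg fun y _ => by split_ifs <;> norm_num

lemma Pl_le_one (hk : 0 < k) (m l : ℕ) : Pl k m l ≤ 1 :=
  Ex_le_const hk fun x _ => Ex_le_const hk fun y _ => by split_ifs <;> norm_num

lemma Pl_mul_le (z : ℝ) (m l : ℕ) : Pl k m l * Real.exp (z * l) ≤ Z k z m m := by
  unfold Pl Z
  rw [← Ex_mul_const]
  refine Ex_mono fun x _ => ?_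
  rw [← Ex_mul_const]
  refine Ex_mono fun y _ => ?_
  split_ifs with h
  · rw [one_mul, h]
  · rw [zero_mul]; exact (Real.exp_pos _).le

lemma Z_eq_sum (z : ℝ) (m : ℕ) :
    Z k z m m = ∑ l ∈ Finset.range (m + 1), Pl k m l * Real.exp (z * l) := by
  unfold Pl Z
  simp only [← Ex_mul_const]
  rw [← Ex_finset_sum]
  refine Ex_congr fun x hx => ?_
  rw [← Ex_finset_sum]
  refine Ex_congr fun y _ => ?_
  have h1 : L x y ∈ Finset.range (m + 1) := by
    have := L_le_left x y
    rw [Finset.mem_range]; omega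
  rw [Finset.sum_eq_single_of_mem _ h1]
  · simp
  · intro l _ hl
    rw [if_neg (fun h => hl h.symm), zero_mul]

/-- `r` independent blocks -/
def Blk (m l : ℕ) : ℕ → List (Fin k) → List (Fin k) → Prop
  | 0, _, _ => True
  | (r + 1), u, v => L (u.take m) (v.take m) = l ∧ Blk m l r (u.drop m) (v.drop m)

lemma Blk_symm (m l r : ℕ) : ∀ u v : List (Fin k), Blk m l r u v → Blk m l r v u := by
  induction r with
  | zero => intro u v _; trivial
  | succ r ih =>
    intro u v h
    exact ⟨by rw [L_comm]; exact h.1, ih _ _ h.2⟩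

lemma Blk_L (m l r : ℕ) : ∀ u v : List (Fin k), Blk m l r u v → r * l ≤ L u v := by
  induction r with
  | zero => intro u v _; simp
  | succ r ih =>
    intro u v h
    have h1 := L_append_ge (u.take m) (u.drop m) (v.take m) (v.drop m)
    rw [List.take_append_drop, List.take_append_drop] at h1
    have h2 := ih _ _ h.2
    have h3 := h.1
    calc (r + 1) * l = l + r * l := by ring
      _ ≤ L (u.take m) (v.take m) + L (u.drop m) (v.drop m) := by omega
      _ ≤ _ := h1

open Classical in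
lemma Blk_prob (m l r : ℕ) :
    Ex k (r * m) (fun u => Ex k (r * m) (fun v => if Blk m l r u v then (1 : ℝ) else 0)) =
      Pl k m l ^ r := by
  induction r with
  | zero => simp [Blk]
  | succ r ih =>
    rw [show (r + 1) * m = m + r * m by ring, Ex2_append, pow_succ, mul_comm (Pl k m l ^ r)]
    rw [← ih]
    unfold Pl
    rw [← Ex_mul_const]
    refine Ex_congr fun u hu => ?_
    rw [← Ex_mul_const]
    refine Ex_congr fun v hv => ?_
    rw [← Ex_const_mul]
    refine Ex_congr fun u' _ => ?_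
    rw [← Ex_const_mul]
    refine Ex_congr fun v' _ => ?_
    simp only [Blk, List.take_left' hu, List.take_left' hv, List.drop_left' hu,
      List.drop_left' hv]
    by_cases h1 : L u v = l
    · simp [h1]
    · simp [h1]

end EBAux

open EBAux in
theorem stmt_EB : Stmt_EB := by
  intro k α c z₂ hC hcz
  have hk : 0 < k := lt_of_lt_of_le two_pos hC.hk
  have hz2 : 0 < z₂ := hC.hc.trans hcz
  obtain ⟨n, hn⟩ := hC.hsup z₂ hcz
  have hn1 : 1 ≤ n := by
    rcases Nat.eq_zero_or_pos n with h | h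
    · subst h
      simp [Z] at hn
    · exact h
  -- growth
  set ρ : ℝ := Z k z₂ n n * Real.exp (-(z₂ * (2 * α) * n)) with hρ
  have hρ1 : 1 < ρ := by
    have h1 : Real.exp (z₂ * (2 * α) * n) * Real.exp (-(z₂ * (2 * α) * n)) <
        Z k z₂ n n * Real.exp (-(z₂ * (2 * α) * n)) :=
      mul_lt_mul_of_pos_right hn (Real.exp_pos _)
    rwa [← Real.exp_add, add_neg_cancel, Real.exp_zero] at h1
  have hρ0 : 0 < ρ := by linarith
  obtain ⟨q, hq1, hq⟩ : ∃ q : ℕ, 1 ≤ q ∧ ((q * n : ℕ) : ℝ) + 1 < ρ ^ q := by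
    have hr0 : 0 ≤ ρ⁻¹ := (inv_pos.mpr hρ0).le
    have hr1 : ρ⁻¹ < 1 := inv_lt_one_of_one_lt₀ hρ1
    have h1 : Tendsto (fun q : ℕ => (n : ℝ) * ((q : ℝ) * ρ⁻¹ ^ q) + ρ⁻¹ ^ q) atTop
        (𝓝 ((n : ℝ) * 0 + 0)) :=
      ((tendsto_self_mul_const_pow_of_lt_one hr0 hr1).const_mul _).add
        (tendsto_pow_atTop_nhds_zero_of_lt_one hr0 hr1)
    rw [mul_zero, add_zero] at h1
    have h2 := (h1.eventually (gt_mem_nhds (zero_lt_one' ℝ))).and (eventually_ge_atTop 1)
    obtain ⟨q, h3, h4⟩ := h2.exists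
    refine ⟨q, h4, ?_⟩
    have h5 : (n : ℝ) * ((q : ℝ) * ρ⁻¹ ^ q) + ρ⁻¹ ^ q = (((q * n : ℕ) : ℝ) + 1) / ρ ^ q := by
      rw [inv_pow]; push_cast; field_simp
    rw [h5, div_lt_one (by positivity)] at h3
    exact h3
  set m : ℕ := q * n with hm
  have hm1 : 1 ≤ m := Nat.one_le_iff_ne_zero.mpr (by positivity)
  have hsum : (m : ℝ) + 1 < Z k z₂ m m * Real.exp (-(z₂ * (2 * α) * m)) := by
    refine hq.trans_le ?_
    rw [hρ, mul_pow, ← Real.exp_nat_mul]
    have h1 : (q : ℝ) * -(z₂ * (2 * α) * n) = -(z₂ * (2 * α) * m) := by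
      rw [hm]; push_cast; ring
    rw [h1]
    exact mul_le_mul_of_nonneg_right (Z_pow hk hz2.le n q) (Real.exp_pos _).le
  obtain ⟨l, hl⟩ : ∃ l : ℕ, 1 < Pl k m l * Real.exp (z₂ * ((l : ℝ) - 2 * α * m)) := by
    by_contra hcon
    push Not at hcon
    rw [Z_eq_sum, Finset.sum_mul] at hsum
    have h1 : ∑ l ∈ Finset.range (m + 1), Pl k m l * Real.exp (z₂ * l) *
        Real.exp (-(z₂ * (2 * α) * m)) ≤ ∑ _l ∈ Finset.range (m + 1), (1 : ℝ) := by
      refine Finset.sum_le_sum fun l _ => ?_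
      refine le_trans (le_of_eq ?_) (hcon l)
      rw [mul_assoc, ← Real.exp_add]
      congr 2
      ring
    rw [Finset.sum_const, Finset.card_range, nsmul_eq_mul, mul_one] at h1
    push_cast at h1
    linarith
  set Δ : ℝ := (l : ℝ) - 2 * α * m with hΔ
  set P : ℝ := Pl k m l with hP
  have hP0 : 0 < P := by
    rcases (Pl_nonneg (k := k) m l).lt_or_eq with h | h
    · exact h
    · rw [hP, ← h, zero_mul] at hl
      linarith
  have hP1 : P ≤ 1 := Pl_le_one hk m l
  have hup : 0 < Real.log P + z₂ * Δ := by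
    have h1 := Real.log_pos hl
    rwa [Real.log_mul hP0.ne' (Real.exp_pos _).ne', Real.log_exp] at h1
  have hlogP : Real.log P ≤ 0 := Real.log_nonpos hP0.le hP1
  have hΔ0 : 0 < Δ := by
    by_contra h
    push Not at h
    nlinarith [mul_nonneg hz2.le (neg_nonneg.mpr h)]
  have hlow : Real.log P + c * Δ ≤ 0 := by
    have h1 : P * Real.exp (c * Δ) ≤ 1 := by
      have h2 := (Pl_mul_le (k := k) c m l).trans (hC.hH m m)
      have h3 : Real.exp (c * Δ) = Real.exp (c * l) * Real.exp (-(c * α * (m + m))) := by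
        rw [← Real.exp_add, hΔ]
        congr 1
        ring
      rw [h3, ← mul_assoc]
      calc _ ≤ Real.exp (c * α * (m + m)) * Real.exp (-(c * α * (m + m))) :=
            mul_le_mul_of_nonneg_right h2 (Real.exp_pos _).le
        _ = 1 := by rw [← Real.exp_add]; simp
    have h4 := Real.log_nonpos (by positivity) h1
    rwa [Real.log_mul hP0.ne' (Real.exp_pos _).ne', Real.log_exp] at h4
  refine ⟨m, Δ, -Real.log P, hm1, hΔ0, ?_, by linarith, by linarith, fun r => ?_⟩
  · nlinarith [mul_pos hC.hc hΔ0]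
  · refine ⟨Blk m l r, Blk_symm m l r, ?_, ?_⟩
    · intro u v _ _ h
      have h1 := Blk_L m l r u v h
      have h2 : ((r * l : ℕ) : ℝ) ≤ (L u v : ℝ) := by exact_mod_cast h1
      push_cast at h2
      rw [hΔ]
      linarith
    · rw [Blk_prob]
      have h1 : -(-Real.log P * (r : ℝ)) = r * Real.log P := by ring
      rw [h1, Real.exp_nat_mul, Real.exp_log hP0]

end Pool.Agent.LCSE
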