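import Pool.Agent.Work.MP_bec1e1_E_helper47.Interface

/-!
# Block P1: lower bound for some `Z n b`, `b ≤ C n`
-/

set_option autoImplicit false
set_option maxHeartbeats 400000

open Filter Topology
open scoped BigOperators

namespace Pool.Agent.LCSE
namespace P1Aux

variable {k : ℕ}

/-- weighted sum over the columns -/
noncomputable def A (k : ℕ) (z α : ℝ) (B n : ℕ) : ℝ :=
  ∑ b ∈ Finset.range B, Z k z n b * Real.exp (-(z * α * (n + b)))

lemma A_nonneg (hk : 0 < k) (z α : ℝ) (B n : ℕ) : 0 ≤ A k z α B n :=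
  Finset.sum_nonneg fun b _ => mul_nonneg (Z_nonneg hk _ _ _) (Real.exp_pos _).le

lemma A_submul (hk : 0 < k) {z : ℝ} (hz : 0 ≤ z) (α : ℝ) (B n m : ℕ) :
    A k z α B (n + m) ≤ A k z α B n * A k z α B m := by
  set f : ℕ → ℕ → ℝ := fun g h => (Z k z n g * Real.exp (-(z * α * (n + g)))) *
    (Z k z m h * Real.exp (-(z * α * (m + h)))) with hf
  have hf0 : ∀ g h, 0 ≤ f g h := fun g h =>
    mul_nonneg (mul_nonneg (Z_nonneg hk _ _ _) (Real.exp_pos _).le)
      (mul_nonneg (Z_nonneg hk _ _ _) (Real.exp_pos _).le)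
  have h1 : A k z α B (n + m) ≤
      ∑ b ∈ Finset.range B, ∑ g ∈ Finset.range (b + 1), f g (b - g) := by
    unfold A
    refine Finset.sum_le_sum fun b _ => ?_
    have h2 := Z_split hk hz n m b
    calc Z k z (n + m) b * Real.exp (-(z * α * (((n + m : ℕ) : ℝ) + b)))
        ≤ (∑ g ∈ Finset.range (b + 1), Z k z n g * Z k z m (b - g)) *
          Real.exp (-(z * α * (((n + m : ℕ) : ℝ) + b))) :=
          mul_le_mul_of_nonneg_right h2 (Real.exp_pos _).le
      _ = ∑ g ∈ Finset.range (b + 1), f g (b - g) := by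
          rw [Finset.sum_mul]
          refine Finset.sum_congr rfl fun g hg => ?_
          have hg' : g ≤ b := Nat.lt_succ_iff.mp (Finset.mem_range.mp hg)
          simp only [hf]
          have h3 : Real.exp (-(z * α * (((n + m : ℕ) : ℝ) + b))) =
              Real.exp (-(z * α * (n + g))) * Real.exp (-(z * α * (m + ((b - g : ℕ) : ℝ)))) := by
            rw [← Real.exp_add]
            congr 1
            rw [Nat.cast_sub hg']
            push_cast
            ring
          rw [h3]
          ring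
  refine h1.trans ?_
  rw [Finset.sum_range_diag_flip B f]
  unfold A
  rw [Finset.sum_mul_sum]
  refine Finset.sum_le_sum fun g _ => ?_
  refine Finset.sum_le_sum_of_subset_of_nonneg ?_ fun h _ _ => hf0 g h
  intro x hx
  simp only [Finset.mem_range] at hx ⊢
  omega

lemma A_pow (hk : 0 < k) {z : ℝ} (hz : 0 ≤ z) (α : ℝ) (B n j : ℕ) :
    A k z α B ((j + 1) * n) ≤ A k z α B n ^ (j + 1) := by
  induction j with
  | zero => simp
  | succ j ih =>
    have h1 : (j + 1 + 1) * n = (j + 1) * n + n := by ring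
    rw [h1, pow_succ]
    refine (A_submul hk hz α B _ n).trans ?_
    exact mul_le_mul_of_nonneg_right ih (A_nonneg hk _ _ _ _)

/-- Jensen -/
lemma exp_EL_le (hk : 0 < k) (z : ℝ) (n : ℕ) : Real.exp (z * EL k n) ≤ Z k z n n := by
  have h1 : z * EL k n = Ex k n (fun x => Ex k n (fun y => z * (L x y : ℝ))) := by
    unfold EL
    rw [← Ex_const_mul]
    refine Ex_congr fun x _ => ?_
    rw [Ex_const_mul]
  rw [h1]
  refine (Ex_exp_jensen hk n _).trans ?_
  unfold Z
  exact Ex_mono fun x _ => Ex_exp_jensen hk n _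

/-- geometric tail -/
lemma tail_le (hk : 0 < k) {z α : ℝ} (hz : 0 < z) (hα : 0 < α) (n N M : ℕ) :
    ∑ b ∈ Finset.range M, Z k z n (N + b) * Real.exp (-(z * α * (n + ((N + b : ℕ) : ℝ)))) ≤
      Real.exp (z * n - z * α * (n + N)) * (1 - Real.exp (-(z * α)))⁻¹ := by
  have hr0 : 0 ≤ Real.exp (-(z * α)) := (Real.exp_pos _).le
  have hr1 : Real.exp (-(z * α)) < 1 := by
    rw [← Real.exp_zero]; exact Real.exp_lt_exp.mpr (by nlinarith [mul_pos hz hα])
  have h1 : ∀ b ∈ Finset.range M,
      Z k z n (N + b) * Real.exp (-(z * α * (n + ((N + b : ℕ) : ℝ)))) ≤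
      Real.exp (z * n - z * α * (n + N)) * Real.exp (-(z * α)) ^ b := by
    intro b _
    refine (mul_le_mul_of_nonneg_right (Z_le_exp_left hk hz.le n (N + b))
      (Real.exp_pos _).le).trans ?_
    rw [← Real.exp_add, ← Real.exp_nat_mul, ← Real.exp_add]
    apply le_of_eq
    congr 1
    push_cast
    ring
  refine (Finset.sum_le_sum h1).trans ?_
  rw [← Finset.mul_sum]
  refine mul_le_mul_of_nonneg_left ?_ (Real.exp_pos _).le
  exact (Summable.sum_le_tsum _ (fun i _ => pow_nonneg hr0 i)
    (summable_geometric_of_lt_one hr0 hr1)).trans_eq (tsum_geometric_of_lt_one hr0 hr1)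

end P1Aux

open P1Aux in
theorem stmt_P1 : Stmt_P1 := by
  intro k α c z hC hz hzc
  have hk : 0 < k := lt_of_lt_of_le two_pos hC.hk
  have hα := hC.hα0
  have hzα : 0 < z * α := mul_pos hz hα
  have hr1 : Real.exp (-(z * α)) < 1 := by
    rw [← Real.exp_zero]; exact Real.exp_lt_exp.mpr (by linarith)
  set r1 : ℝ := (1 - Real.exp (-(z * α)))⁻¹ with hr1def
  have hr1pos : 0 < r1 := inv_pos.mpr (by linarith)
  -- the constant
  obtain ⟨C0, hC0⟩ : ∃ C0 : ℕ, 1 ≤ C0 ∧ 0 ≤ z * α * C0 - z ∧
      Real.exp (-(z * α * C0 - z)) * r1 ≤ 1 / 4 := by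
    have h1 : Tendsto (fun n : ℕ => z * α * (n : ℝ) - z) atTop atTop :=
      tendsto_atTop_add_const_right _ _
        ((tendsto_natCast_atTop_atTop (R := ℝ)).const_mul_atTop hzα)
    have h2 : Tendsto (fun n : ℕ => Real.exp (-(z * α * (n : ℝ) - z)) * r1) atTop (𝓝 (0 * r1)) :=
      (Real.tendsto_exp_neg_atTop_nhds_zero.comp h1).mul_const _
    rw [zero_mul] at h2
    have h3 := (h2.eventually (ge_mem_nhds (show (0 : ℝ) < 1 / 4 by norm_num))).and
      ((h1.eventually (eventually_ge_atTop 0)).and (eventually_ge_atTop 1))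
    obtain ⟨C0, h4, h5, h6⟩ := h3.exists
    exact ⟨C0, h6, h5, h4⟩
  obtain ⟨hC01, hC02, hC03⟩ := hC0
  refine ⟨4 * C0, by omega, fun n hn => ?_⟩
  by_contra hcon
  push Not at hcon
  have hC0R : (1 : ℝ) ≤ C0 := by exact_mod_cast hC01
  have hnR : (1 : ℝ) ≤ n := by exact_mod_cast hn
  -- all sums are at most 1/2
  have hA : ∀ B : ℕ, A k z α B n ≤ 1 / 2 := by
    intro B
    have h1 : A k z α B n ≤ ∑ b ∈ Finset.range (C0 * n + 1 + B),
        Z k z n b * Real.exp (-(z * α * (n + b))) := by
      unfold A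
      refine Finset.sum_le_sum_of_subset_of_nonneg ?_ fun b _ _ =>
        mul_nonneg (Z_nonneg hk _ _ _) (Real.exp_pos _).le
      intro x hx
      simp only [Finset.mem_range] at hx ⊢
      omega
    rw [Finset.sum_range_add] at h1
    have h2 : ∑ b ∈ Finset.range (C0 * n + 1), Z k z n b * Real.exp (-(z * α * (n + b))) ≤ 1 / 4 := by
      have h3 : ∀ b ∈ Finset.range (C0 * n + 1),
          Z k z n b * Real.exp (-(z * α * (n + b))) ≤ 1 / (4 * C0 * (n + 1)) := by
        intro b hb
        have hb' : b ≤ 4 * C0 * n := by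
          have := Finset.mem_range.mp hb
          nlinarith [Nat.zero_le (C0 * n)]
        have h4 := hcon b hb'
        push_cast at h4
        rw [le_div_iff₀ (by positivity), Real.exp_neg]
        have h5 : 0 < Real.exp (z * α * (n + b)) := Real.exp_pos _
        rw [mul_assoc, inv_mul_eq_div]
        rw [mul_div_assoc', div_le_one h5]
        nlinarith [h4]
      refine (Finset.sum_le_card_nsmul _ _ _ h3).trans ?_
      rw [Finset.card_range, nsmul_eq_mul]
      push_cast
      rw [mul_one_div, div_le_div_iff₀ (by positivity) (by norm_num)]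
      nlinarith
    have h6 := tail_le hk hz hα n (C0 * n + 1) B
    have h7 : Real.exp (z * n - z * α * (n + ((C0 * n + 1 : ℕ) : ℝ))) * r1 ≤ 1 / 4 := by
      refine le_trans (mul_le_mul_of_nonneg_right (Real.exp_le_exp.mpr ?_) hr1pos.le) hC03
      push_cast
      nlinarith [mul_nonneg hC02 (sub_nonneg.mpr hnR)]
    rw [← hr1def] at h6
    linarith
  -- contradiction in the limit
  have hj : ∀ j : ℕ, z * (EL k ((j + 1) * n) / (((j + 1) * n : ℕ) : ℝ) - 2 * α) * n ≤
      Real.log (1 / 2) := by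
    intro j
    set N : ℕ := (j + 1) * n with hN
    have hNpos : 0 < N := by positivity
    have hNR : (0 : ℝ) < N := by exact_mod_cast hNpos
    have h1 : Real.exp (z * EL k N) * Real.exp (-(z * α * (N + N))) ≤ (1 / 2) ^ (j + 1) := by
      calc Real.exp (z * EL k N) * Real.exp (-(z * α * (N + N)))
          ≤ Z k z N N * Real.exp (-(z * α * (N + N))) :=
            mul_le_mul_of_nonneg_right (exp_EL_le hk z N) (Real.exp_pos _).le
        _ ≤ A k z α (N + 1) N := by
            unfold A
            exact Finset.single_le_sum (f := fun b : ℕ => Z k z N b * Real.exp (-(z * α * (N + b))))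
              (fun i _ => mul_nonneg (Z_nonneg hk _ _ _) (Real.exp_pos _).le)
              (Finset.mem_range.mpr (Nat.lt_succ_self N))
        _ ≤ A k z α (N + 1) n ^ (j + 1) := A_pow hk hz.le α _ n j
        _ ≤ (1 / 2) ^ (j + 1) := pow_le_pow_left₀ (A_nonneg hk _ _ _ _) (hA _) _
    rw [← Real.exp_add] at h1
    have h2 := Real.log_le_log (Real.exp_pos _) h1
    rw [Real.log_exp, Real.log_pow] at h2
    have h3 : z * (EL k N / (N : ℝ) - 2 * α) * n * (j + 1) = z * EL k N + -(z * α * (N + N)) := by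
      have h4 : (N : ℝ) = (j + 1) * n := by rw [hN]; push_cast; ring
      have h5 : (0 : ℝ) < (j : ℝ) + 1 := by positivity
      rw [h4]
      field_simp
      ring
    have h6 : (0 : ℝ) < (j : ℝ) + 1 := by positivity
    have h7 : z * (EL k N / (N : ℝ) - 2 * α) * n * (j + 1) ≤ Real.log (1 / 2) * (j + 1) := by
      rw [h3]
      push_cast at h2
      linarith
    exact le_of_mul_le_mul_right h7 h6
  have hlim : Tendsto (fun j : ℕ => z * (EL k ((j + 1) * n) / (((j + 1) * n : ℕ) : ℝ) - 2 * α) * n)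
      atTop (𝓝 (z * (2 * α - 2 * α) * n)) := by
    have h1 : Tendsto (fun j : ℕ => (j + 1) * n) atTop atTop := by
      refine tendsto_atTop_mono (fun j => ?_) tendsto_id
      show j ≤ (j + 1) * n
      nlinarith
    have h2 := hC.hlim.comp h1
    exact ((h2.sub_const _).const_mul z).mul_const _
  have h8 := le_of_tendsto' hlim hj
  have h9 : Real.log (1 / 2) < 0 := Real.log_neg (by norm_num) (by norm_num)
  simp only [sub_self, mul_zero, zero_mul] at h8
  linarith

end Pool.Agent.LCSE
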