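import Pool.Agent.Work.MP_bec1e1_E_helper47.K
import Pool.Agent.Work.MP_bec1e1_E_helper47.P1
import Pool.Agent.Work.MP_bec1e1_E_helper47.EB

/-!
# Block GAM: the constant `γ` exists and lies strictly between `0` and `1`
-/

set_option autoImplicit false
set_option maxHeartbeats 400000

open Filter Topology
open scoped BigOperators

namespace Pool.Agent.LCSE
namespace GAMAux

variable {k : ℕ}

lemma EL_add (hk : 0 < k) (m n : ℕ) : EL k m + EL k n ≤ EL k (m + n) := by
  unfold EL
  rw [EBAux.Ex2_append m n]
  have h1 : Ex k m (fun u => Ex k m (fun v => ((L u v : ℝ) +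
      Ex k n (fun u' => Ex k n (fun v' => (L u' v' : ℝ)))))) ≤
      Ex k m (fun u => Ex k m (fun v => Ex k n (fun u' => Ex k n (fun v' =>
        (L (u ++ u') (v ++ v') : ℝ))))) := by
    refine Ex_mono fun u _ => Ex_mono fun v _ => ?_
    rw [← Ex_const hk n (L u v : ℝ), ← Ex_add]
    refine Ex_mono fun u' _ => ?_
    rw [← Ex_const hk n (L u v : ℝ), ← Ex_add]
    refine Ex_mono fun v' _ => ?_
    exact_mod_cast L_append_ge u u' v v'
  refine le_trans (le_of_eq ?_) h1
  simp only [Ex_add, Ex_const hk]

lemma EL_nonneg (n : ℕ) : 0 ≤ EL k n :=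
  Ex_nonneg fun _ _ => Ex_nonneg fun _ _ => Nat.cast_nonneg _

lemma EL_le (hk : 0 < k) (n : ℕ) : EL k n ≤ n :=
  Ex_le_const hk fun x hx => Ex_le_const hk fun y _ => by
    have := L_le_left x y
    rw [hx] at this
    exact_mod_cast this

lemma EL_one_pos (hk : 0 < k) : 0 < EL k 1 := by
  have hkR : (0 : ℝ) < k := by exact_mod_cast hk
  unfold EL
  simp only [Ex_succ, Ex_zero]
  refine div_pos ?_ hkR
  refine Finset.sum_pos' (fun c _ => div_nonneg (Finset.sum_nonneg fun d _ => Nat.cast_nonneg _)
    hkR.le) ⟨⟨0, hk⟩, Finset.mem_univ _, ?_⟩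
  refine div_pos ?_ hkR
  refine Finset.sum_pos' (fun d _ => Nat.cast_nonneg _) ⟨⟨0, hk⟩, Finset.mem_univ _, ?_⟩
  rw [L_self]
  norm_num

lemma Z_rec (hk : 0 < k) {z : ℝ} (hz : 0 ≤ z) (a b : ℕ) :
    Z k z (a + 1) (b + 1) ≤ Real.exp z / k * Z k z a b + Z k z a (b + 1) + Z k z (a + 1) b := by
  have hkR : (0 : ℝ) < k := by exact_mod_cast hk
  set G : Fin k → ℝ := fun d => Ex k a (fun x => Ex k b (fun y => Real.exp (z * (L x (d :: y) : ℝ))))
    with hG
  set H : Fin k → ℝ := fun c => Ex k a (fun x => Ex k b (fun y => Real.exp (z * (L (c :: x) y : ℝ))))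
    with hH
  have hG1 : Z k z a (b + 1) = (∑ d, G d) / k := KAux.Ex2_right a b _
  have hH1 : Z k z (a + 1) b = (∑ c, H c) / k := rfl
  have h1 : Z k z (a + 1) (b + 1) = (∑ d : Fin k, ∑ c : Fin k, Ex k a (fun x => Ex k b (fun y =>
      Real.exp (z * (L (c :: x) (d :: y) : ℝ))))) / (k : ℝ) ^ 2 := KAux.Ex2_succ a b _
  have h2 : ∀ d ∈ (Finset.univ : Finset (Fin k)), ∀ c ∈ (Finset.univ : Finset (Fin k)),
      Ex k a (fun x => Ex k b (fun y => Real.exp (z * (L (c :: x) (d :: y) : ℝ)))) ≤
      (if c = d then Real.exp z * Z k z a b else 0) + G d + H c := by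
    intro d _ c _
    have h3 : (if c = d then Real.exp z * Z k z a b else 0) =
        Ex k a (fun x => Ex k b (fun y => if c = d then Real.exp z * Real.exp (z * (L x y : ℝ))
          else 0)) := by
      split_ifs
      · simp only [Ex_const_mul]; rfl
      · simp only [Ex_zero_fun]
    rw [h3, hG, hH]
    simp only
    rw [← Ex_add, ← Ex_add]
    refine Ex_mono fun x _ => ?_
    rw [← Ex_add, ← Ex_add]
    refine Ex_mono fun y _ => ?_
    have h4 := L_cons_cons_le c d x y
    rcases le_max_iff.mp h4 with h5 | h5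
    · split_ifs at h5 with hcd
      · rw [if_pos hcd]
        have h6 : Real.exp (z * (L (c :: x) (d :: y) : ℝ)) ≤
            Real.exp z * Real.exp (z * (L x y : ℝ)) := by
          rw [← Real.exp_add]
          apply Real.exp_le_exp.mpr
          have h7 : (L (c :: x) (d :: y) : ℝ) ≤ L x y + 1 := by exact_mod_cast h5
          nlinarith
        have := (Real.exp_pos (z * (L x (d :: y) : ℝ))).le
        have := (Real.exp_pos (z * (L (c :: x) y : ℝ))).le
        linarith
      · rw [if_neg hcd]
        have h6 : Real.exp (z * (L (c :: x) (d :: y) : ℝ)) ≤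
            Real.exp (z * (L x (d :: y) : ℝ)) :=
          KAux.exp_mono hz (h5.trans (Nat.zero_le _))
        have := (Real.exp_pos (z * (L (c :: x) y : ℝ))).le
        linarith
    · have h0 : (0 : ℝ) ≤ if c = d then Real.exp z * Real.exp (z * (L x y : ℝ)) else 0 := by
        split_ifs <;> positivity
      rcases le_max_iff.mp h5 with h6 | h6
      · have := KAux.exp_mono hz h6
        have := (Real.exp_pos (z * (L (c :: x) y : ℝ))).le
        linarith
      · have := KAux.exp_mono hz h6
        have := (Real.exp_pos (z * (L x (d :: y) : ℝ))).le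
        linarith
  rw [h1, hG1, hH1, div_le_iff₀ (by positivity)]
  refine (Finset.sum_le_sum fun d hd => Finset.sum_le_sum (h2 d hd)).trans (le_of_eq ?_)
  simp only [Finset.sum_add_distrib, Finset.sum_const, Finset.card_univ, Fintype.card_fin,
    nsmul_eq_mul, Finset.sum_ite_eq', Finset.mem_univ, if_true]
  rw [← Finset.mul_sum]
  field_simp

lemma Z_le_pow (hk : 0 < k) (a b : ℕ) : Z k (Real.log (15 * k)) a b ≤ 5 ^ (a + b) := by
  have hkR : (1 : ℝ) ≤ k := by exact_mod_cast hk
  have hz : 0 ≤ Real.log (15 * k) := Real.log_nonneg (by linarith)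
  have hexp : Real.exp (Real.log (15 * k)) / k = 15 := by
    rw [Real.exp_log (by linarith)]
    field_simp
  induction a generalizing b with
  | zero =>
    have h1 : Z k (Real.log (15 * k)) 0 b = 1 := by
      unfold Z
      simp [Ex_const hk]
    rw [h1]
    exact one_le_pow₀ (by norm_num)
  | succ a iha =>
    induction b with
    | zero =>
      have h1 : Z k (Real.log (15 * k)) (a + 1) 0 = 1 := by
        rw [Z_comm]
        unfold Z
        simp [Ex_const hk]
      rw [h1]
      exact one_le_pow₀ (by norm_num)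
    | succ b ihb =>
      have h1 := Z_rec hk hz a b
      rw [hexp] at h1
      have h2 := iha b
      have h3 := iha (b + 1)
      calc _ ≤ 15 * Z k (Real.log (15 * k)) a b + Z k (Real.log (15 * k)) a (b + 1) +
            Z k (Real.log (15 * k)) (a + 1) b := h1
        _ ≤ 15 * 5 ^ (a + b) + 5 ^ (a + (b + 1)) + 5 ^ (a + 1 + b) := by linarith
        _ = 5 ^ (a + 1 + (b + 1)) := by ring

end GAMAux

open GAMAux in
theorem stmt_GAM : Stmt_GAM := by
  intro k hk2
  have hk : 0 < k := lt_of_lt_of_le two_pos hk2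
  have hsub : Subadditive (fun n : ℕ => -EL k n) := by
    intro m n
    have := EL_add hk m n
    simp only
    linarith
  have hbdd : BddBelow (Set.range fun n : ℕ => -EL k n / n) := by
    refine ⟨-1, ?_⟩
    rintro _ ⟨n, rfl⟩
    rcases Nat.eq_zero_or_pos n with h | h
    · subst h; simp
    · have hn : (0 : ℝ) < n := by exact_mod_cast h
      show -1 ≤ -EL k n / n
      rw [le_div_iff₀ hn]
      have := EL_le hk n
      linarith
  have hle : ∀ n : ℕ, EL k n ≤ -hsub.lim * n := by
    intro n
    rcases Nat.eq_zero_or_pos n with h | h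
    · subst h; simp [EL]
    · have hn : (0 : ℝ) < n := by exact_mod_cast h
      have h1 := hsub.lim_le_div hbdd h.ne'
      rw [le_div_iff₀ hn] at h1
      linarith
  have hlim : Tendsto (fun n : ℕ => EL k n / n) atTop (𝓝 (-hsub.lim)) := by
    have h1 := (hsub.tendsto_lim hbdd).neg
    refine h1.congr fun n => ?_
    ring
  refine ⟨-hsub.lim, ?_, ?_, hlim, hle⟩
  · have h1 := hle 1
    have h2 := EL_one_pos hk
    simp only [Nat.cast_one, mul_one] at h1
    linarith
  · have hkR : (2 : ℝ) ≤ k := by exact_mod_cast hk2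
    set z : ℝ := Real.log (15 * k) with hz
    have hz0 : Real.log 25 < z := Real.log_lt_log (by norm_num) (by linarith)
    have h25 : 0 < Real.log 25 := Real.log_pos (by norm_num)
    have h1 : ∀ n : ℕ, EL k n / n ≤ Real.log 25 / z := by
      intro n
      rcases Nat.eq_zero_or_pos n with h | h
      · subst h
        simp only [Nat.cast_zero, div_zero]
        exact (div_pos h25 (h25.trans hz0)).le
      · have hn : (0 : ℝ) < n := by exact_mod_cast h
        have h2 := (P1Aux.exp_EL_le hk z n).trans (Z_le_pow hk n n)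
        have h3 := Real.log_le_log (Real.exp_pos _) h2
        rw [Real.log_exp, ← two_mul, pow_mul, Real.log_pow] at h3
        rw [div_le_div_iff₀ hn (h25.trans hz0)]
        norm_num at h3
        linarith
    have h2 := le_of_tendsto' hlim h1
    refine h2.trans_lt ?_
    rw [div_lt_one (h25.trans hz0)]
    exact hz0

end Pool.Agent.LCSE
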