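import Pool.Agent.Work.MP_bec1e1_E_helper47.Interface

set_option autoImplicit false
set_option maxHeartbeats 400000

open Filter Topology
open scoped BigOperators

namespace Pool.Agent.LCSE

lemma Ex_continuous {k : ℕ} (n : ℕ) (f : ℝ → List (Fin k) → ℝ)
    (h : ∀ w, Continuous (fun t => f t w)) : Continuous (fun t => Ex k n (f t)) := by
  induction n generalizing f with
  | zero => exact h []
  | succ n ih =>
    simp only [Ex_succ]
    refine Continuous.div_const ?_ _
    refine continuous_finsetSum _ fun c _ => ?_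
    exact ih (fun t w => f t (c :: w)) fun w => h (c :: w)

lemma Z_continuous (k a b : ℕ) : Continuous (fun t : ℝ => Z k t a b) := by
  unfold Z
  refine Ex_continuous a _ fun x => ?_
  refine Ex_continuous b _ fun y => ?_
  fun_prop

lemma Z_one_one_ge (k : ℕ) (hk : 2 ≤ k) (t : ℝ) :
    Real.exp t / k ≤ Z k t 1 1 := by
  have hk0 : (0 : ℝ) < k := by positivity
  unfold Z
  rw [Ex_succ]
  apply div_le_div_of_nonneg_right _ hk0.le
  simp only [Ex_zero]
  have h1 : ∀ c : Fin k, Real.exp t / k ≤
      Ex k 1 (fun y => Real.exp (t * (L [c] y : ℝ))) := by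
    intro c
    rw [Ex_succ]
    apply div_le_div_of_nonneg_right _ hk0.le
    simp only [Ex_zero]
    have h2 : Real.exp t = Real.exp (t * (L [c] [c] : ℝ)) := by
      rw [L_self]; simp
    rw [h2]
    exact Finset.single_le_sum (f := fun d : Fin k => Real.exp (t * (L [c] [d] : ℝ)))
      (fun i _ => (Real.exp_pos _).le) (Finset.mem_univ c)
  calc Real.exp t = ∑ _c : Fin k, Real.exp t / k := by
        simp only [Finset.sum_const, Finset.card_univ, Fintype.card_fin, nsmul_eq_mul]
        field_simp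
    _ ≤ _ := Finset.sum_le_sum fun c _ => h1 c

theorem stmt_CR : Stmt_CR := by
  intro k γ z hk hγ0 hγ1 hlim hz hZ
  have hk0 : 0 < k := by omega
  set S : Set ℝ := {t : ℝ | 0 ≤ t ∧ ∀ n : ℕ, Z k t n n ≤ Real.exp (t * γ * n)} with hS
  have hzS : z ∈ S := ⟨hz.le, hZ⟩
  have hbdd : BddAbove S := by
    refine ⟨Real.log k / (1 - γ), ?_⟩
    rintro t ⟨ht0, ht⟩
    have h1 := (Z_one_one_ge k hk t).trans (ht 1)
    have hkp : (0 : ℝ) < k := by positivity
    have h2 := Real.log_le_log (by positivity) h1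
    rw [Real.log_div (Real.exp_pos _).ne' hkp.ne', Real.log_exp, Real.log_exp] at h2
    push_cast at h2
    rw [le_div_iff₀ (by linarith)]
    nlinarith
  have hclosed : IsClosed S := by
    have : S = Set.Ici 0 ∩ ⋂ n : ℕ, {t : ℝ | Z k t n n ≤ Real.exp (t * γ * n)} := by
      ext t; simp [hS]
    rw [this]
    refine isClosed_Ici.inter (isClosed_iInter fun n => ?_)
    exact isClosed_le (Z_continuous k n n) (by fun_prop)
  have hcS : sSup S ∈ S := hclosed.csSup_mem ⟨z, hzS⟩ hbdd
  set c := sSup S with hc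
  have hzc : z ≤ c := le_csSup hbdd hzS
  have hc0 : 0 < c := lt_of_lt_of_le hz hzc
  refine ⟨c, hk, by linarith, by linarith, hc0, ?_, ?_, ?_⟩
  · intro a b
    have h1 : Z k c a b * Z k c b a ≤ Z k c (a + b) (b + a) := Z_mul_le hk0 hc0.le a b b a
    rw [Z_comm c b a, Nat.add_comm b a] at h1
    have h2 := h1.trans (hcS.2 (a + b))
    have h3 : Real.exp (c * γ * ((a + b : ℕ) : ℝ)) =
        Real.exp (c * (γ / 2) * (a + b)) * Real.exp (c * (γ / 2) * (a + b)) := by
      rw [← Real.exp_add]; congr 1; push_cast; ring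
    rw [h3] at h2
    exact le_of_not_gt fun h => absurd h2 (not_le.mpr (mul_self_lt_mul_self (Real.exp_pos _).le h))
  · rw [show 2 * (γ / 2) = γ by ring]; exact hlim
  · intro z' hz'
    by_contra hcon
    push Not at hcon
    rw [show 2 * (γ / 2) = γ by ring] at hcon
    exact absurd (le_csSup hbdd (show z' ∈ S from ⟨by linarith, hcon⟩)) (not_le.mpr hz')

end Pool.Agent.LCSE
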