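import Pool.Agent.Work.MP_bec1e1_E_helper47.Interface

/-!
# Block K: the greedy strategy is strictly suboptimal at the critical parameter
-/

set_option autoImplicit false
set_option maxHeartbeats 400000

open Filter Topology
open scoped BigOperators

namespace Pool.Agent.LCSE
namespace KAux

variable {k : ℕ}

noncomputable def S (k : ℕ) (z : ℝ) (a b : ℕ) : ℝ :=
  ⨅ u : Fin k, Ex k a (fun x => Ex k b (fun y => Real.exp (z * (L (u :: x) y : ℝ))))

noncomputable def V (k : ℕ) (z : ℝ) (a b : ℕ) : ℝ :=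
  ⨅ p : Fin k × Fin k, Ex k a (fun x => Ex k b (fun y => Real.exp (z * (L (p.1 :: p.2 :: x) y : ℝ))))

noncomputable def T (k : ℕ) (z : ℝ) : ℕ → ℕ → ℝ
  | 0, _ => 0
  | (a + 1), b => S k z a b

lemma S_le (z : ℝ) (a b : ℕ) (u : Fin k) :
    S k z a b ≤ Ex k a (fun x => Ex k b (fun y => Real.exp (z * (L (u :: x) y : ℝ)))) :=
  ciInf_le (Set.finite_range _).bddBelow u

lemma V_le (z : ℝ) (a b : ℕ) (u u' : Fin k) :
    V k z a b ≤ Ex k a (fun x => Ex k b (fun y => Real.exp (z * (L (u :: u' :: x) y : ℝ)))) :=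
  ciInf_le (f := fun p : Fin k × Fin k =>
    Ex k a (fun x => Ex k b (fun y => Real.exp (z * (L (p.1 :: p.2 :: x) y : ℝ)))))
    (Set.finite_range _).bddBelow (u, u')

lemma one_le_S (hk : 0 < k) {z : ℝ} (hz : 0 ≤ z) (a b : ℕ) : 1 ≤ S k z a b := by
  have : Nonempty (Fin k) := ⟨⟨0, hk⟩⟩
  refine le_ciInf fun u => const_le_Ex hk fun x _ => const_le_Ex hk fun y _ => ?_
  exact Real.one_le_exp (by positivity)

lemma one_le_V (hk : 0 < k) {z : ℝ} (hz : 0 ≤ z) (a b : ℕ) : 1 ≤ V k z a b := by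
  have : Nonempty (Fin k) := ⟨⟨0, hk⟩⟩
  refine le_ciInf fun u => const_le_Ex hk fun x _ => const_le_Ex hk fun y _ => ?_
  exact Real.one_le_exp (by positivity)

lemma S_le_Z (hk : 0 < k) (z : ℝ) (a b : ℕ) : S k z a b ≤ Z k z (a + 1) b := by
  have hkR : (0 : ℝ) < k := by exact_mod_cast hk
  unfold Z
  rw [Ex_succ, le_div_iff₀ hkR]
  calc S k z a b * k = ∑ _c : Fin k, S k z a b := by
        simp [Finset.sum_const, mul_comm]
    _ ≤ _ := Finset.sum_le_sum fun c _ => S_le z a b c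

lemma T_le_Z (hk : 0 < k) (z : ℝ) (a b : ℕ) : T k z a b ≤ Z k z a b := by
  cases a with
  | zero => exact Z_nonneg hk _ _ _
  | succ a => exact S_le_Z hk z a b

lemma Ex2_right (a b : ℕ) (f : List (Fin k) → List (Fin k) → ℝ) :
    Ex k a (fun x => Ex k (b + 1) (fun y => f x y)) =
      (∑ d : Fin k, Ex k a (fun x => Ex k b (fun y => f x (d :: y)))) / k := by
  have h1 : (fun x => Ex k (b + 1) (fun y => f x y)) =
      fun x => (∑ d : Fin k, Ex k b (fun y => f x (d :: y))) * (k : ℝ)⁻¹ := by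
    funext x
    rw [Ex_succ, div_eq_mul_inv]
  rw [h1, Ex_mul_const, Ex_finset_sum, div_eq_mul_inv]

lemma Ex2_succ (a b : ℕ) (f : List (Fin k) → List (Fin k) → ℝ) :
    Ex k (a + 1) (fun x => Ex k (b + 1) (fun y => f x y)) =
      (∑ d : Fin k, ∑ c : Fin k, Ex k a (fun x => Ex k b (fun y => f (c :: x) (d :: y)))) /
        (k : ℝ) ^ 2 := by
  rw [Ex_succ]
  simp only [Ex2_right]
  rw [← Finset.sum_div, Finset.sum_comm, div_div, pow_two]

lemma exp_mono {z : ℝ} (hz : 0 ≤ z) {m n : ℕ} (h : m ≤ n) :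
    Real.exp (z * (m : ℝ)) ≤ Real.exp (z * (n : ℝ)) :=
  Real.exp_le_exp.mpr (mul_le_mul_of_nonneg_left (by exact_mod_cast h) hz)

lemma exp_mono1 {z : ℝ} (hz : 0 ≤ z) {m n : ℕ} (h : m + 1 ≤ n) :
    Real.exp z * Real.exp (z * (m : ℝ)) ≤ Real.exp (z * (n : ℝ)) := by
  rw [← Real.exp_add]
  apply Real.exp_le_exp.mpr
  have h1 : ((m + 1 : ℕ) : ℝ) ≤ n := by exact_mod_cast h
  push_cast at h1
  nlinarith

lemma Ex2_exp_ge {z : ℝ} (hz : 0 ≤ z) {a b : ℕ} {f g : List (Fin k) → List (Fin k) → ℕ}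
    (h : ∀ x y, f x y + 1 ≤ g x y) :
    Real.exp z * Ex k a (fun x => Ex k b (fun y => Real.exp (z * (f x y : ℝ)))) ≤
      Ex k a (fun x => Ex k b (fun y => Real.exp (z * (g x y : ℝ)))) := by
  rw [← Ex_const_mul]
  refine Ex_mono fun x _ => ?_
  rw [← Ex_const_mul]
  exact Ex_mono fun y _ => exp_mono1 hz (h x y)

lemma V_rec (hk : 0 < k) {z : ℝ} (hz : 0 ≤ z) (a b : ℕ) :
    (k : ℝ)⁻¹ * Real.exp z * S k z a b + (1 - (k : ℝ)⁻¹) * V k z a b ≤ V k z a (b + 1) := by
  have : Nonempty (Fin k) := ⟨⟨0, hk⟩⟩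
  have hkR : (0 : ℝ) < k := by exact_mod_cast hk
  refine le_ciInf fun p => ?_
  obtain ⟨u, u'⟩ := p
  rw [Ex2_right, le_div_iff₀ hkR]
  have h1 : ∀ d ∈ (Finset.univ : Finset (Fin k)),
      (V k z a b + if d = u then (Real.exp z * S k z a b - V k z a b) else 0) ≤
      Ex k a (fun x => Ex k b (fun y => Real.exp (z * (L (u :: u' :: x) (d :: y) : ℝ)))) := by
    intro d _
    split_ifs with hd
    · subst hd
      have h2 := Ex2_exp_ge (k := k) hz (a := a) (b := b) (f := fun x y => L (u' :: x) y)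
        (g := fun x y => L (d :: u' :: x) (d :: y)) (fun x y => L_cons_cons_self d (u' :: x) y)
      have h3 := mul_le_mul_of_nonneg_left (S_le z a b u') (Real.exp_pos z).le
      linarith
    · have h2 : V k z a b ≤
        Ex k a (fun x => Ex k b (fun y => Real.exp (z * (L (u :: u' :: x) y : ℝ)))) := V_le z a b u u'
      rw [add_zero]
      refine h2.trans (Ex_mono fun x _ => Ex_mono fun y _ => exp_mono hz (L_cons_right _ _ _))
  refine le_trans (le_of_eq ?_) (Finset.sum_le_sum h1)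
  rw [Finset.sum_add_distrib, Finset.sum_ite_eq' Finset.univ u]
  simp only [Finset.sum_const, Finset.card_univ, Fintype.card_fin, nsmul_eq_mul, Finset.mem_univ,
    if_true]
  field_simp
  ring

lemma S_rec (hk : 0 < k) {z : ℝ} (hz : 0 ≤ z) (a b : ℕ) :
    (k : ℝ)⁻¹ * Real.exp z * S k z a b + (1 - (k : ℝ)⁻¹) * (k : ℝ)⁻¹ * Real.exp z * T k z a b +
      (1 - (k : ℝ)⁻¹) ^ 2 * V k z a b ≤ S k z (a + 1) (b + 1) := by
  have : Nonempty (Fin k) := ⟨⟨0, hk⟩⟩
  have hkR : (0 : ℝ) < k := by exact_mod_cast hk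
  refine le_ciInf fun u => ?_
  rw [Ex2_succ, le_div_iff₀ (by positivity)]
  set A := Real.exp z * S k z a b with hA
  set B := Real.exp z * T k z a b with hB
  set W := V k z a b with hW
  have h1 : ∀ d ∈ (Finset.univ : Finset (Fin k)), ∀ c ∈ (Finset.univ : Finset (Fin k)),
      (if d = u then A else (W + if c = d then (B - W) else 0)) ≤
      Ex k a (fun x => Ex k b (fun y => Real.exp (z * (L (u :: c :: x) (d :: y) : ℝ)))) := by
    intro d _ c _
    split_ifs with hd hc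
    · subst hd
      have h2 := Ex2_exp_ge (k := k) hz (a := a) (b := b) (f := fun x y => L (c :: x) y)
        (g := fun x y => L (d :: c :: x) (d :: y)) (fun x y => L_cons_cons_self d (c :: x) y)
      have h3 := mul_le_mul_of_nonneg_left (S_le z a b c) (Real.exp_pos z).le
      linarith
    · subst hc
      have h2 := Ex2_exp_ge (k := k) hz (a := a) (b := b) (f := fun x y => L x y)
        (g := fun x y => L (u :: c :: x) (c :: y))
        (fun x y => (L_cons_cons_self c x y).trans (L_cons_left u _ _))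
      have h3 := mul_le_mul_of_nonneg_left (T_le_Z hk z a b) (Real.exp_pos z).le
      unfold Z at h3
      linarith
    · have h2 : W ≤
        Ex k a (fun x => Ex k b (fun y => Real.exp (z * (L (u :: c :: x) y : ℝ)))) := V_le z a b u c
      rw [add_zero]
      refine h2.trans (Ex_mono fun x _ => Ex_mono fun y _ => exp_mono hz (L_cons_right _ _ _))
  refine le_trans (le_of_eq ?_) (Finset.sum_le_sum fun d hd => Finset.sum_le_sum (h1 d hd))
  have h4 : ∀ d : Fin k, ∑ c : Fin k, (if d = u then A else (W + if c = d then (B - W) else 0)) =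
      (k * W + (B - W)) + if d = u then (k * A - (k * W + (B - W))) else 0 := by
    intro d
    split_ifs with hd
    · simp only [Finset.sum_const, Finset.card_univ, Fintype.card_fin, nsmul_eq_mul]
      ring
    · rw [Finset.sum_add_distrib, Finset.sum_ite_eq' Finset.univ d]
      simp only [Finset.sum_const, Finset.card_univ, Fintype.card_fin, nsmul_eq_mul,
        Finset.mem_univ, if_true]
      ring
  rw [Finset.sum_congr rfl fun d _ => h4 d, Finset.sum_add_distrib,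
    Finset.sum_ite_eq' Finset.univ u]
  simp only [Finset.sum_const, Finset.card_univ, Fintype.card_fin, nsmul_eq_mul, Finset.mem_univ,
    if_true]
  rw [hA, hB]
  field_simp
  ring

/-- weighted sums -/
noncomputable def SS (k : ℕ) (z α : ℝ) (b : ℕ) : ℝ :=
  ∑ a ∈ Finset.range (2 * b + 1), Real.exp (-(z * α)) ^ a * S k z a b

noncomputable def VV (k : ℕ) (z α : ℝ) (b : ℕ) : ℝ :=
  ∑ a ∈ Finset.range (2 * b + 1), Real.exp (-(z * α)) ^ (a + 1) * V k z a b

lemma SS_rec (hk : 0 < k) {z : ℝ} (hz : 0 ≤ z) (α : ℝ) (b : ℕ) :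
    ((k : ℝ)⁻¹ * Real.exp z * Real.exp (-(z * α)) +
      (1 - (k : ℝ)⁻¹) * (k : ℝ)⁻¹ * Real.exp z * Real.exp (-(z * α)) ^ 2) * SS k z α b +
      (1 - (k : ℝ)⁻¹) ^ 2 * VV k z α b ≤ SS k z α (b + 1) := by
  have hkR : (1 : ℝ) ≤ k := by exact_mod_cast hk
  have hp0 : 0 < (k : ℝ)⁻¹ := inv_pos.mpr (by linarith)
  have hp1 : (k : ℝ)⁻¹ ≤ 1 := inv_le_one_of_one_le₀ hkR
  set ε := Real.exp (-(z * α)) with hε
  have hε0 : 0 < ε := Real.exp_pos _
  have hS0 : ∀ a b, 0 ≤ S k z a b := fun a b => zero_le_one.trans (one_le_S hk hz a b)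
  have hV0 : ∀ a b, 0 ≤ V k z a b := fun a b => zero_le_one.trans (one_le_V hk hz a b)
  have hT0 : ∀ a b, 0 ≤ T k z a b := by
    intro a b
    cases a with
    | zero => exact le_refl _
    | succ a => exact hS0 a b
  have h1 : SS k z α (b + 1) = (∑ a ∈ Finset.range (2 * b + 2), ε ^ (a + 1) * S k z (a + 1) (b + 1))
      + ε ^ 0 * S k z 0 (b + 1) := by
    unfold SS
    rw [show 2 * (b + 1) + 1 = (2 * b + 2) + 1 by ring, Finset.sum_range_succ']
  have h2 : ∑ a ∈ Finset.range (2 * b + 2), ε ^ (a + 1) * ((k : ℝ)⁻¹ * Real.exp z * S k z a b +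
      (1 - (k : ℝ)⁻¹) * (k : ℝ)⁻¹ * Real.exp z * T k z a b + (1 - (k : ℝ)⁻¹) ^ 2 * V k z a b) ≤
      ∑ a ∈ Finset.range (2 * b + 2), ε ^ (a + 1) * S k z (a + 1) (b + 1) :=
    Finset.sum_le_sum fun a _ => mul_le_mul_of_nonneg_left (S_rec hk hz a b) (by positivity)
  have h3 : ε * SS k z α b ≤ ∑ a ∈ Finset.range (2 * b + 2), ε ^ (a + 1) * S k z a b := by
    rw [Finset.sum_range_succ]
    have : ε * SS k z α b = ∑ a ∈ Finset.range (2 * b + 1), ε ^ (a + 1) * S k z a b := by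
      unfold SS
      rw [Finset.mul_sum]
      refine Finset.sum_congr rfl fun a _ => ?_
      rw [pow_succ]; ring
    rw [this]
    have := mul_nonneg (pow_pos hε0 (2 * b + 1 + 1)).le (hS0 (2 * b + 1) b)
    linarith
  have h4 : ∑ a ∈ Finset.range (2 * b + 2), ε ^ (a + 1) * T k z a b = ε ^ 2 * SS k z α b := by
    rw [Finset.sum_range_succ']
    simp only [T, mul_zero, add_zero]
    unfold SS
    rw [Finset.mul_sum]
    refine Finset.sum_congr rfl fun a _ => ?_
    rw [← hε]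
    ring
  have h5 : VV k z α b ≤ ∑ a ∈ Finset.range (2 * b + 2), ε ^ (a + 1) * V k z a b := by
    rw [Finset.sum_range_succ]
    have := mul_nonneg (pow_pos hε0 (2 * b + 1 + 1)).le (hV0 (2 * b + 1) b)
    unfold VV
    linarith
  have h6 : ∑ a ∈ Finset.range (2 * b + 2), ε ^ (a + 1) * ((k : ℝ)⁻¹ * Real.exp z * S k z a b +
      (1 - (k : ℝ)⁻¹) * (k : ℝ)⁻¹ * Real.exp z * T k z a b + (1 - (k : ℝ)⁻¹) ^ 2 * V k z a b) =
      (k : ℝ)⁻¹ * Real.exp z * (∑ a ∈ Finset.range (2 * b + 2), ε ^ (a + 1) * S k z a b) +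
      (1 - (k : ℝ)⁻¹) * (k : ℝ)⁻¹ * Real.exp z *
        (∑ a ∈ Finset.range (2 * b + 2), ε ^ (a + 1) * T k z a b) +
      (1 - (k : ℝ)⁻¹) ^ 2 * (∑ a ∈ Finset.range (2 * b + 2), ε ^ (a + 1) * V k z a b) := by
    rw [Finset.mul_sum, Finset.mul_sum, Finset.mul_sum, ← Finset.sum_add_distrib,
      ← Finset.sum_add_distrib]
    exact Finset.sum_congr rfl fun a _ => by ring
  have h7 : 0 ≤ ε ^ 0 * S k z 0 (b + 1) := mul_nonneg (pow_nonneg hε0.le _) (hS0 _ _)
  have h8 : (k : ℝ)⁻¹ * Real.exp z * (ε * SS k z α b) ≤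
      (k : ℝ)⁻¹ * Real.exp z * (∑ a ∈ Finset.range (2 * b + 2), ε ^ (a + 1) * S k z a b) :=
    mul_le_mul_of_nonneg_left h3 (by positivity)
  have h9 : (1 - (k : ℝ)⁻¹) ^ 2 * VV k z α b ≤
      (1 - (k : ℝ)⁻¹) ^ 2 * (∑ a ∈ Finset.range (2 * b + 2), ε ^ (a + 1) * V k z a b) :=
    mul_le_mul_of_nonneg_left h5 (sq_nonneg _)
  rw [h4] at h6
  nlinarith [h1, h2, h6, h7, h8, h9]

lemma VV_rec (hk : 0 < k) {z : ℝ} (hz : 0 ≤ z) (α : ℝ) (b : ℕ) :
    (k : ℝ)⁻¹ * Real.exp z * Real.exp (-(z * α)) * SS k z α b +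
      (1 - (k : ℝ)⁻¹) * VV k z α b ≤ VV k z α (b + 1) := by
  set ε := Real.exp (-(z * α)) with hε
  have hε0 : 0 < ε := Real.exp_pos _
  have hV0 : ∀ a b, 0 ≤ V k z a b := fun a b => zero_le_one.trans (one_le_V hk hz a b)
  have h1 : ∑ a ∈ Finset.range (2 * b + 1), ε ^ (a + 1) * V k z a (b + 1) ≤ VV k z α (b + 1) := by
    unfold VV
    refine Finset.sum_le_sum_of_subset_of_nonneg ?_ fun a _ _ =>
      mul_nonneg (pow_pos hε0 _).le (hV0 _ _)
    intro x hx
    simp only [Finset.mem_range] at hx ⊢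
    omega
  refine le_trans ?_ h1
  have h2 : ∑ a ∈ Finset.range (2 * b + 1), ε ^ (a + 1) *
      ((k : ℝ)⁻¹ * Real.exp z * S k z a b + (1 - (k : ℝ)⁻¹) * V k z a b) ≤
      ∑ a ∈ Finset.range (2 * b + 1), ε ^ (a + 1) * V k z a (b + 1) :=
    Finset.sum_le_sum fun a _ => mul_le_mul_of_nonneg_left (V_rec hk hz a b) (by positivity)
  refine le_trans (le_of_eq ?_) h2
  unfold SS VV
  rw [Finset.mul_sum, Finset.mul_sum, ← Finset.sum_add_distrib]
  refine Finset.sum_congr rfl fun a _ => ?_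
  rw [← hε]
  ring

end KAux

open KAux in
theorem stmt_K : Stmt_K := by
  intro k α c hC
  by_contra hcon
  push Not at hcon
  have hk : 0 < k := lt_of_lt_of_le two_pos hC.hk
  have hk2 : (2 : ℝ) ≤ k := by exact_mod_cast hC.hk
  have hc := hC.hc
  have hα0 := hC.hα0
  have hα1 := hC.hα1
  set p : ℝ := (k : ℝ)⁻¹ with hp
  have hp0 : 0 < p := inv_pos.mpr (by linarith)
  have hp1 : p < 1 := inv_lt_one_of_one_lt₀ (by linarith)
  set E : ℝ := Real.exp (c * α) with hE
  have hE0 : 0 < E := Real.exp_pos _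
  set ε : ℝ := Real.exp (-(c * α)) with hε
  have hε0 : 0 < ε := Real.exp_pos _
  have hεE : ε * E = 1 := by rw [hε, hE, ← Real.exp_add]; simp
  set q : ℝ := p * Real.exp c * ε with hq
  have hq' : q = p * Real.exp (c * (1 - α)) := by
    rw [hq, hε, mul_assoc, ← Real.exp_add]
    congr 2
    ring
  have hpq : p < q := by
    rw [hq']
    have h1 : 1 < Real.exp (c * (1 - α)) :=
      Real.one_lt_exp_iff.mpr (mul_pos hc (by linarith))
    nlinarith
  have hEle : E ≤ 1 - p + q := by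
    have h1 : 1 + (Real.exp (c * (1 - α)) - 1) / k = 1 - p + q := by
      rw [hq', hp]
      field_simp
      ring
    linarith
  -- matrix
  set a11 : ℝ := q + (1 - p) * q * ε with ha11
  set R1 : ℝ := a11 + (1 - p) ^ 2 with hR1
  have hR1E : E < R1 := by
    have h1 : E * E < R1 * E := by
      have h2 : R1 * E = q * E + (1 - p) * q + (1 - p) ^ 2 * E := by
        rw [hR1, ha11]
        have : (1 - p) * q * ε * E = (1 - p) * q := by rw [mul_assoc, hεE, mul_one]
        linear_combination this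
      rw [h2]
      have h3 : E * E ≤ E * (1 - p + q) := mul_le_mul_of_nonneg_left hEle hE0.le
      have h4 : p * E < q := by nlinarith
      nlinarith [mul_pos (sub_pos.mpr hp1) (sub_pos.mpr h4)]
    exact lt_of_mul_lt_mul_right h1 hE0.le
  obtain ⟨θ, hθ0, hθ1⟩ : ∃ θ : ℝ, 0 < θ ∧ E * (1 + θ) < R1 := by
    refine ⟨(R1 / E - 1) / 2, ?_, ?_⟩
    · have : 1 < R1 / E := (one_lt_div hE0).mpr hR1E
      linarith
    · have h1 : E * (1 + (R1 / E - 1) / 2) = (E + R1) / 2 := by
        field_simp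
        ring
      rw [h1]
      linarith
  obtain ⟨η, hη0, hη1, hη2⟩ : ∃ η : ℝ, 0 < η ∧ (1 + η) * (E * (1 + θ)) ≤ R1 ∧
      η * E ≤ q * θ := by
    have h1 : 0 < E * (1 + θ) := by positivity
    refine ⟨min (R1 / (E * (1 + θ)) - 1) (q * θ / E), lt_min ?_ ?_, ?_, ?_⟩
    · have : 1 < R1 / (E * (1 + θ)) := (one_lt_div h1).mpr hθ1
      linarith
    · have : 0 < q := hp0.trans hpq
      positivity
    · have h2 := min_le_left (R1 / (E * (1 + θ)) - 1) (q * θ / E)
      have h3 : (1 + (R1 / (E * (1 + θ)) - 1)) * (E * (1 + θ)) = R1 := by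
        field_simp
        ring
      nlinarith
    · have h2 := min_le_right (R1 / (E * (1 + θ)) - 1) (q * θ / E)
      calc _ ≤ q * θ / E * E := mul_le_mul_of_nonneg_right h2 hE0.le
        _ = q * θ := div_mul_cancel₀ _ hE0.ne'
  have hq0 : 0 < q := hp0.trans hpq
  have ha11pos : 0 ≤ a11 := by
    rw [ha11]
    have : 0 ≤ (1 - p) * q * ε := mul_nonneg (mul_nonneg (by linarith) hq0.le) hε0.le
    linarith
  set G : ℝ := (1 + η) * E with hG
  have hG0 : 0 < G := by positivity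
  set κ : ℝ := ε / (1 + θ) with hκ
  have hκ0 : 0 < κ := by positivity
  have hκε : κ * (1 + θ) = ε := div_mul_cancel₀ _ (by positivity)
  have hε1 : ε ≤ 1 := by
    rw [hε, ← Real.exp_zero]
    apply Real.exp_le_exp.mpr
    nlinarith [mul_pos hc hα0]
  -- induction
  have hind : ∀ b : ℕ, κ * G ^ b * (1 + θ) ≤ SS k c α b ∧ κ * G ^ b ≤ VV k c α b := by
    intro b
    induction b with
    | zero =>
      constructor
      · have h1 : SS k c α 0 = S k c 0 0 := by simp [SS]
        rw [h1, pow_zero, mul_one, hκε]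
        exact hε1.trans (one_le_S hk hc.le 0 0)
      · have h1 : VV k c α 0 = ε * V k c 0 0 := by simp [VV, hε]
        rw [h1, pow_zero, mul_one]
        have h2 : κ ≤ ε := by
          rw [hκ]
          exact div_le_self hε0.le (by linarith)
        have h3 := one_le_V hk hc.le 0 0
        nlinarith
    | succ b ih =>
      obtain ⟨h1, h2⟩ := ih
      have h3 := SS_rec hk hc.le α b
      have h4 := VV_rec hk hc.le α b
      rw [← hp, ← hε] at h3 h4
      have h5 : p * Real.exp c * ε + (1 - p) * p * Real.exp c * ε ^ 2 = a11 := by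
        rw [ha11, hq]; ring
      rw [h5] at h3
      rw [← hq] at h4
      have hX : 0 < κ * G ^ b := by positivity
      constructor
      · refine le_trans ?_ h3
        have h6 : κ * G ^ (b + 1) * (1 + θ) = κ * G ^ b * ((1 + η) * (E * (1 + θ))) := by
          rw [pow_succ, hG]; ring
        have h7 : κ * G ^ b * ((1 + η) * (E * (1 + θ))) ≤ κ * G ^ b * R1 :=
          mul_le_mul_of_nonneg_left hη1 hX.le
        have h8 : a11 * (κ * G ^ b * (1 + θ)) ≤ a11 * SS k c α b :=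
          mul_le_mul_of_nonneg_left h1 ha11pos
        have h9 : (1 - p) ^ 2 * (κ * G ^ b) ≤ (1 - p) ^ 2 * VV k c α b :=
          mul_le_mul_of_nonneg_left h2 (sq_nonneg _)
        have h10 : 0 ≤ a11 * (κ * G ^ b) * θ := by positivity
        rw [h6]
        have h11 : κ * G ^ b * R1 = a11 * (κ * G ^ b) + (1 - p) ^ 2 * (κ * G ^ b) := by
          rw [hR1]; ring
        linarith
      · refine le_trans ?_ h4
        have h6 : κ * G ^ (b + 1) = κ * G ^ b * ((1 + η) * E) := by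
          rw [pow_succ, hG]; ring
        have h7 : (1 + η) * E ≤ q * (1 + θ) + (1 - p) := by linarith
        have h8 : κ * G ^ b * ((1 + η) * E) ≤ κ * G ^ b * (q * (1 + θ) + (1 - p)) :=
          mul_le_mul_of_nonneg_left h7 hX.le
        have h9 : q * (κ * G ^ b * (1 + θ)) ≤ q * SS k c α b :=
          mul_le_mul_of_nonneg_left h1 hq0.le
        have h10 : (1 - p) * (κ * G ^ b) ≤ (1 - p) * VV k c α b :=
          mul_le_mul_of_nonneg_left h2 (by linarith)
        rw [h6]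
        linarith
  -- upper bound
  have hup : ∀ b : ℕ, SS k c α b ≤ (2 * b + 1) * E ^ (b + 1) := by
    intro b
    unfold SS
    have h1 : ∀ a ∈ Finset.range (2 * b + 1), Real.exp (-(c * α)) ^ a * S k c a b ≤ E ^ (b + 1) := by
      intro a _
      have h2 : S k c a b ≤ Real.exp (c * α * (((a + 1 : ℕ) : ℝ) + b)) :=
        (S_le_Z hk c a b).trans (hC.hH (a + 1) b)
      refine (mul_le_mul_of_nonneg_left h2 (by positivity)).trans (le_of_eq ?_)
      rw [hE, ← Real.exp_nat_mul, ← Real.exp_nat_mul, ← Real.exp_add]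
      congr 1
      push_cast
      ring
    refine (Finset.sum_le_card_nsmul _ _ _ h1).trans (le_of_eq ?_)
    rw [Finset.card_range, nsmul_eq_mul]
    push_cast
    ring
  -- contradiction
  have hfin : ∀ b : ℕ, ε ≤ (2 * b + 1) * E * (1 + η)⁻¹ ^ b := by
    intro b
    have h1 := (hind b).1.trans (hup b)
    have h2 : κ * G ^ b * (1 + θ) = ε * (1 + η) ^ b * E ^ b := by
      rw [hG, mul_pow, ← hκε]; ring
    rw [h2, pow_succ] at h1
    have h3 : ε * (1 + η) ^ b ≤ (2 * b + 1) * E := by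
      have h4 : ε * (1 + η) ^ b * E ^ b ≤ (2 * b + 1) * E * E ^ b := by linarith
      exact le_of_mul_le_mul_right h4 (by positivity)
    rw [inv_pow, ← div_eq_mul_inv, le_div_iff₀ (by positivity)]
    exact h3
  have hr0 : 0 ≤ (1 + η)⁻¹ := by positivity
  have hr1 : (1 + η)⁻¹ < 1 := inv_lt_one_of_one_lt₀ (by linarith)
  have hlim : Tendsto (fun b : ℕ => (2 * (b : ℝ) + 1) * E * (1 + η)⁻¹ ^ b) atTop (𝓝 0) := by
    have h1 := (tendsto_self_mul_const_pow_of_lt_one hr0 hr1).const_mul (2 * E)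
    have h2 := (tendsto_pow_atTop_nhds_zero_of_lt_one hr0 hr1).const_mul E
    have h3 := h1.add h2
    simp only [mul_zero, add_zero] at h3
    refine h3.congr fun b => ?_
    ring
  have h12 := ge_of_tendsto' hlim hfin
  linarith

end Pool.Agent.LCSE
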