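import Pool.Agent.Work.MP_bec1e1_E_helper47.HZ

set_option autoImplicit false
set_option maxHeartbeats 400000

open Filter Topology
open scoped BigOperators

namespace Pool.Agent.LCSE

theorem stmt_MX : Stmt_MX := by
  intro k α c z lam R a₀ b₀ hC hz hzc hlam hR h0
  have hk : 0 < k := by have := hC.hk; omega
  set u : ℕ → ℕ → ℝ := fun a b => Real.log (Z k z a b) - z * α * (a + b) with hu
  have hu0 : ∀ a b, u a b ≤ 0 := by
    intro a b
    have h1 := Real.log_le_log (Z_pos hk z a b) (stmt_HZ k α c z hC hz.le hzc a b)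
    rw [Real.log_exp] at h1
    rw [hu]; linarith
  have hu1 : -Real.log R ≤ u a₀ b₀ := by
    have h1 := Real.log_le_log (Real.exp_pos _) h0
    rw [Real.log_exp, Real.log_mul (by linarith) (Z_pos hk z a₀ b₀).ne'] at h1
    rw [hu]; linarith
  set d : ℕ → ℕ → ℝ := fun a b => |(a : ℝ) - a₀| + |(b : ℝ) - b₀| with hd
  set F : ℕ → ℕ → ℝ := fun a b => u a b - lam * d a b with hF
  have hF0 : -Real.log R ≤ F a₀ b₀ := by
    have : d a₀ b₀ = 0 := by simp [hd]
    rw [hF]; simp only [this, mul_zero, sub_zero]; exact hu1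
  set T := Real.log R / lam with hT
  have hT0 : 0 ≤ T := div_nonneg (Real.log_nonneg hR) hlam.le
  set S : Finset (ℕ × ℕ) := Finset.range (a₀ + ⌈T⌉₊ + 1) ×ˢ Finset.range (b₀ + ⌈T⌉₊ + 1) with hS
  have h0S : (a₀, b₀) ∈ S := by
    rw [hS, Finset.mem_product, Finset.mem_range, Finset.mem_range]; constructor <;> omega
  obtain ⟨⟨a, b⟩, hab, hmax⟩ := Finset.exists_max_image S (fun p => F p.1 p.2) ⟨_, h0S⟩
  have hF1 : F a₀ b₀ ≤ F a b := hmax (a₀, b₀) h0S
  have hglob : ∀ a' b', F a' b' ≤ F a b := by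
    intro a' b'
    by_cases hm : (a', b') ∈ S
    · exact hmax (a', b') hm
    · -- far away
      have hfar : T < d a' b' := by
        rw [hS, Finset.mem_product, Finset.mem_range, Finset.mem_range, not_and_or] at hm
        simp only [hd]
        rcases hm with hm | hm
        · have h1 : a₀ + ⌈T⌉₊ + 1 ≤ a' := not_lt.mp hm
          have h2 : (a₀ : ℝ) + ⌈T⌉₊ + 1 ≤ a' := by exact_mod_cast h1
          have h3 := Nat.le_ceil T
          have h4 := le_abs_self ((a' : ℝ) - a₀)
          have h5 := abs_nonneg ((b' : ℝ) - b₀)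
          linarith
        · have h1 : b₀ + ⌈T⌉₊ + 1 ≤ b' := not_lt.mp hm
          have h2 : (b₀ : ℝ) + ⌈T⌉₊ + 1 ≤ b' := by exact_mod_cast h1
          have h3 := Nat.le_ceil T
          have h4 := le_abs_self ((b' : ℝ) - b₀)
          have h5 := abs_nonneg ((a' : ℝ) - a₀)
          linarith
      have h1 : lam * T = Real.log R := by rw [hT]; field_simp
      have h2 : lam * T < lam * d a' b' := mul_lt_mul_of_pos_left hfar hlam
      have h3 := hu0 a' b'
      have h4 : F a' b' = u a' b' - lam * d a' b' := rfl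
      linarith
  refine ⟨a, b, ?_, ?_, ?_⟩
  · have hd0 : 0 ≤ lam * d a b := by
      simp only [hd]; positivity
    have h1 : -Real.log R ≤ Real.log (Z k z a b) - z * α * (a + b) := by
      have : F a b = (Real.log (Z k z a b) - z * α * (a + b)) - lam * d a b := rfl
      linarith
    have h2 : z * α * (a + b) ≤ Real.log (R * Z k z a b) := by
      rw [Real.log_mul (by linarith) (Z_pos hk z a b).ne']; linarith
    calc _ ≤ Real.exp (Real.log (R * Z k z a b)) := Real.exp_le_exp.mpr h2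
      _ = _ := Real.exp_log (mul_pos (by linarith) (Z_pos hk z a b))
  · rw [le_div_iff₀ hlam]
    have h1 := hu0 a b
    have h2 : F a b = u a b - lam * (|(a : ℝ) - a₀| + |(b : ℝ) - b₀|) := rfl
    linarith
  · intro a' b'
    have h1 := hglob a' b'
    have h2 : F a b = (Real.log (Z k z a b) - z * α * (a + b)) -
      lam * (|(a : ℝ) - a₀| + |(b : ℝ) - b₀|) := rfl
    have h3 : F a' b' = (Real.log (Z k z a' b') - z * α * (a' + b')) -
      lam * (|(a' : ℝ) - a₀| + |(b' : ℝ) - b₀|) := rfl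
    have h4 : |(a' : ℝ) - a₀| ≤ |(a' : ℝ) - a| + |(a : ℝ) - a₀| := abs_sub_le _ _ _
    have h5 : |(b' : ℝ) - b₀| ≤ |(b' : ℝ) - b| + |(b : ℝ) - b₀| := abs_sub_le _ _ _
    have h6 : Real.log (Z k z a' b') ≤ Real.log (Z k z a b) +
        (z * α * ((a' : ℝ) + b' - a - b) + lam * (|(a' : ℝ) - a| + |(b' : ℝ) - b|)) := by
      have h7 := mul_le_mul_of_nonneg_left (add_le_add h4 h5) hlam.le
      linarith
    calc Z k z a' b' = Real.exp (Real.log (Z k z a' b')) := (Real.exp_log (Z_pos hk z a' b')).symm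
      _ ≤ _ := Real.exp_le_exp.mpr h6
      _ = _ := by rw [Real.exp_add, Real.exp_log (Z_pos hk z a b)]

end Pool.Agent.LCSE
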