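import Pool.Agent.Work.MP_bec1e1_E_helper47.Interface

set_option autoImplicit false
set_option maxHeartbeats 400000

open Filter Topology
open scoped BigOperators

namespace Pool.Agent.LCSE

theorem stmt_DEG : Stmt_DEG := by
  classical
  intro k s A δ hk hA hδ hAδ
  set q : List (Fin k) → ℝ := fun u => Ex k s (fun v => if A u v then 1 else 0) with hq
  set G := Ex k s (fun u => if q u ≤ 2 * Real.sqrt δ then q u else 0) with hG
  set h := Ex k s (fun u => if q u ≤ 2 * Real.sqrt δ then 0 else 1) with hh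
  have hq0 : ∀ u, 0 ≤ q u := fun u => Ex_nonneg fun v _ => by split_ifs <;> norm_num
  have hδq : Ex k s q = δ := hAδ
  have hsq : 0 < Real.sqrt δ := Real.sqrt_pos.mpr hδ
  have hsq2 : Real.sqrt δ * Real.sqrt δ = δ := Real.mul_self_sqrt hδ.le
  -- h ≤ √δ/2
  have h1 : 2 * Real.sqrt δ * h ≤ δ := by
    rw [hh, ← Ex_const_mul]
    refine le_trans (Ex_mono (g := q) fun u _ => ?_) hδq.le
    by_cases hu : q u ≤ 2 * Real.sqrt δ
    · rw [if_pos hu, mul_zero]; exact hq0 u
    · rw [if_neg hu, mul_one]; exact (not_le.mp hu).le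
  have h2 : h ≤ Real.sqrt δ / 2 := by
    have h3 : Real.sqrt δ * (2 * h) ≤ Real.sqrt δ * Real.sqrt δ := by rw [hsq2]; linarith
    have := le_of_mul_le_mul_left h3 hsq
    linarith
  have h0 : 0 ≤ h := Ex_nonneg fun u _ => by split_ifs <;> norm_num
  -- decomposition
  have hG1 : Ex k s (fun u => Ex k s (fun v => (if A u v then (1 : ℝ) else 0) *
      (if q u ≤ 2 * Real.sqrt δ then 1 else 0))) = G := by
    rw [hG]
    refine Ex_congr fun u _ => ?_
    rw [Ex_mul_const]
    by_cases hu : q u ≤ 2 * Real.sqrt δ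
    · rw [if_pos hu, if_pos hu, mul_one]
    · rw [if_neg hu, if_neg hu, mul_zero]
  have hG2 : Ex k s (fun u => Ex k s (fun v => (if A u v then (1 : ℝ) else 0) *
      (if q v ≤ 2 * Real.sqrt δ then 1 else 0))) = G := by
    rw [Ex_comm, ← hG1]
    refine Ex_congr fun v _ => Ex_congr fun u _ => ?_
    have : A u v ↔ A v u := ⟨hA _ _, hA _ _⟩
    simp only [this]
  have hG3 : Ex k s (fun u => Ex k s (fun v => (if q u ≤ 2 * Real.sqrt δ then (0 : ℝ) else 1) *
      (if q v ≤ 2 * Real.sqrt δ then 0 else 1))) = h * h := Ex_prod _ _ _ _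
  have h4 : δ ≤ G + G + h * h := by
    rw [← hδq]
    calc Ex k s q = Ex k s (fun u => Ex k s (fun v => if A u v then (1 : ℝ) else 0)) := rfl
      _ ≤ Ex k s (fun u => Ex k s (fun v => ((if A u v then (1 : ℝ) else 0) *
            (if q u ≤ 2 * Real.sqrt δ then 1 else 0) + (if A u v then (1 : ℝ) else 0) *
            (if q v ≤ 2 * Real.sqrt δ then 1 else 0)) +
            (if q u ≤ 2 * Real.sqrt δ then (0 : ℝ) else 1) *
            (if q v ≤ 2 * Real.sqrt δ then 0 else 1))) := by
          refine Ex_mono fun u _ => Ex_mono fun v _ => ?_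
          split_ifs <;> norm_num
      _ = G + G + h * h := by
          simp only [Ex_add, hG1, hG2, hG3]
  have h5 : h * h ≤ δ / 4 := by
    calc h * h ≤ (Real.sqrt δ / 2) * (Real.sqrt δ / 2) := mul_le_mul h2 h2 h0 (by positivity)
      _ = (Real.sqrt δ * Real.sqrt δ) / 4 := by ring
      _ = δ / 4 := by rw [hsq2]
  have h6 : 3 / 8 * δ ≤ G := by linarith
  convert h6 using 2

end Pool.Agent.LCSE
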