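import Pool.Agent.Work.MP_bec1e1_E_helper47.BP
import Pool.Agent.Work.MP_bec1e1_E_helper47.DEG

set_option autoImplicit false
set_option maxHeartbeats 400000

open Filter Topology
open scoped BigOperators

namespace Pool.Agent.LCSE

namespace T1Aux

/-- indices with a given residue -/
lemma reindex (s b ρ : ℕ) (hs : 1 ≤ s) (hρ : ρ < s) (f : ℕ → ℝ) :
    ∑ g ∈ (Finset.range (b + 1)).filter (fun g => g % s = ρ), f g =
      ∑ i ∈ Finset.range ((b + s - ρ) / s), f (ρ + i * s) := by
  symm
  have hkey : ∀ i : ℕ, i < (b + s - ρ) / s ↔ ρ + i * s ≤ b := by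
    intro i
    rw [Nat.lt_iff_add_one_le, Nat.le_div_iff_mul_le hs]
    have : (i + 1) * s = i * s + s := by ring
    omega
  refine Finset.sum_nbij' (fun i => ρ + i * s) (fun g => g / s) ?_ ?_ ?_ ?_ ?_
  · intro i hi
    rw [Finset.mem_range, hkey] at hi
    rw [Finset.mem_filter, Finset.mem_range]
    refine ⟨by omega, ?_⟩
    rw [Nat.add_mul_mod_self_right, Nat.mod_eq_of_lt hρ]
  · intro g hg
    rw [Finset.mem_filter, Finset.mem_range] at hg
    rw [Finset.mem_range, hkey]
    have h1 := Nat.mod_add_div g s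
    rw [hg.2, mul_comm] at h1
    omega
  · intro i _
    rw [Nat.add_mul_div_right _ _ hs, Nat.div_eq_of_lt hρ, zero_add]
  · intro g hg
    rw [Finset.mem_filter, Finset.mem_range] at hg
    have h1 := Nat.mod_add_div g s
    rw [hg.2, mul_comm] at h1
    exact h1
  · intro i _; rfl

end T1Aux

open T1Aux

theorem stmt_T1 : Stmt_T1 := by
  classical
  intro k α c z hC hz hzc s A l δ hs hA hAl hδ hAδ a b t K y hta hK hy
  have hk : 0 < k := by have := hC.hk; omega
  set m : ℝ := α * (a + b) with hm
  set q : List (Fin k) → ℝ := fun u => Ex k s (fun v => if A u v then 1 else 0) with hq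
  set good : List (Fin k) → ℝ := fun u => if q u ≤ 2 * Real.sqrt δ then 1 else 0 with hgood
  -- indicator of an anchored window, number of anchored windows in a residue class
  set w : ℕ → List (Fin k) → List (Fin k) → ℝ := fun g u v =>
    if A u ((v.drop g).take s) then 1 else 0 with hw
  set J : ℕ → List (Fin k) → List (Fin k) → ℝ := fun ρ u v =>
    ∑ g ∈ (Finset.range (b + 1)).filter (fun g => g % s = ρ), w g u v with hJ
  set bad : ℕ → List (Fin k) → List (Fin k) → ℝ := fun ρ u v => if K < J ρ u v then 1 else 0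
    with hbad
  set G : ℕ → List (Fin k) → List (Fin k) → List (Fin k) → ℝ := fun g x₁ x₂ v =>
    Real.exp (z * (L x₁ (v.take g) : ℝ)) * Real.exp (z * (L x₂ (v.drop (g + s)) : ℝ)) with hG
  have hq0 : ∀ u, 0 ≤ q u := fun u => Ex_nonneg fun v _ => by split_ifs <;> norm_num
  have hgood01 : ∀ u, 0 ≤ good u := fun u => by simp only [hgood]; split_ifs <;> norm_num
  have hw0 : ∀ g u v, 0 ≤ w g u v := fun g u v => by simp only [hw]; split_ifs <;> norm_num
  have hw1 : ∀ g u v, w g u v ≤ 1 := fun g u v => by simp only [hw]; split_ifs <;> norm_num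
  have hG0 : ∀ g x₁ x₂ v, 0 ≤ G g x₁ x₂ v := fun g x₁ x₂ v => by simp only [hG]; positivity
  -- pointwise inequality in one residue class
  have hPW : ∀ ρ : ℕ, ∀ x₁ u x₂ v : List (Fin k), u.length = s → v.length = b + s →
      ∑ g ∈ (Finset.range (b + 1)).filter (fun g => g % s = ρ), (Real.exp (z * l) *
        (good u * w g u v * G g x₁ x₂ v - good u * bad ρ u v * G g x₁ x₂ v)) ≤
      K * Real.exp (z * (L (x₁ ++ (u ++ x₂)) v : ℝ)) := by
    intro ρ x₁ u x₂ v hu hv
    have hR : 0 ≤ K * Real.exp (z * (L (x₁ ++ (u ++ x₂)) v : ℝ)) := by positivity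
    by_cases hg : q u ≤ 2 * Real.sqrt δ
    · have hg1 : good u = 1 := if_pos hg
      by_cases hb : K < J ρ u v
      · have hb1 : bad ρ u v = 1 := if_pos hb
        refine le_trans (Finset.sum_nonpos fun g _ => ?_) hR
        rw [hg1, hb1]
        have : 1 * w g u v * G g x₁ x₂ v ≤ 1 * 1 * G g x₁ x₂ v := by
          have := mul_le_mul_of_nonneg_right (hw1 g u v) (hG0 g x₁ x₂ v)
          linarith
        exact mul_nonpos_of_nonneg_of_nonpos (Real.exp_pos _).le (by linarith)
      · have hb1 : bad ρ u v = 0 := if_neg hb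
        have hterm : ∀ g ∈ (Finset.range (b + 1)).filter (fun g => g % s = ρ),
            (Real.exp (z * l) * (good u * w g u v * G g x₁ x₂ v -
              good u * bad ρ u v * G g x₁ x₂ v)) ≤
            w g u v * Real.exp (z * (L (x₁ ++ (u ++ x₂)) v : ℝ)) := by
          intro g hgm
          rw [Finset.mem_filter, Finset.mem_range] at hgm
          have hgb : g ≤ b := by omega
          rw [hg1, hb1]
          simp only [one_mul, zero_mul, sub_zero]
          by_cases hA1 : A u ((v.drop g).take s)
          · have hw' : w g u v = 1 := if_pos hA1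
            rw [hw', one_mul, one_mul]
            simp only [hG]
            rw [← Real.exp_add, ← Real.exp_add]
            apply Real.exp_le_exp.mpr
            have hlen : ((v.drop g).take s).length = s := by
              rw [List.length_take, List.length_drop, hv]; omega
            have h1 := hAl u ((v.drop g).take s) hu hlen hA1
            have h2 : L x₁ (v.take g) + (L u ((v.drop g).take s) + L x₂ (v.drop (g + s))) ≤
                L (x₁ ++ (u ++ x₂)) v := by
              have h3 := L_append_ge u x₂ ((v.drop g).take s) (v.drop (g + s))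
              have h4 := L_append_ge x₁ (u ++ x₂) (v.take g)
                ((v.drop g).take s ++ v.drop (g + s))
              have e1 : (v.drop g).take s ++ v.drop (g + s) = v.drop g := by
                rw [← List.drop_drop, List.take_append_drop]
              rw [e1, List.take_append_drop] at h4
              rw [e1] at h3
              omega
            have h5 : (L x₁ (v.take g) : ℝ) + ((L u ((v.drop g).take s) : ℝ) +
                (L x₂ (v.drop (g + s)) : ℝ)) ≤ (L (x₁ ++ (u ++ x₂)) v : ℝ) := by
              exact_mod_cast h2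
            nlinarith
          · have hw' : w g u v = 0 := if_neg hA1
            rw [hw']; simp
        refine (Finset.sum_le_sum hterm).trans ?_
        rw [← Finset.sum_mul]
        exact mul_le_mul_of_nonneg_right (not_lt.mp hb) (Real.exp_pos _).le
    · have hg1 : good u = 0 := if_neg hg
      simpa [hg1] using hR
  -- sum over the classes
  have hPW2 : ∀ x₁ u x₂ v : List (Fin k), u.length = s → v.length = b + s →
      ∑ g ∈ Finset.range (b + 1), (Real.exp (z * l) *
        (good u * w g u v * G g x₁ x₂ v - good u * bad (g % s) u v * G g x₁ x₂ v)) ≤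
      s * (K * Real.exp (z * (L (x₁ ++ (u ++ x₂)) v : ℝ))) := by
    intro x₁ u x₂ v hu hv
    have hmaps : ∀ g ∈ Finset.range (b + 1), g % s ∈ Finset.range s := fun g _ =>
      Finset.mem_range.mpr (Nat.mod_lt _ hs)
    rw [← Finset.sum_fiberwise_of_maps_to hmaps]
    calc _ ≤ ∑ _ρ ∈ Finset.range s, K * Real.exp (z * (L (x₁ ++ (u ++ x₂)) v : ℝ)) := by
          refine Finset.sum_le_sum fun ρ _ => ?_
          refine le_trans (le_of_eq ?_) (hPW ρ x₁ u x₂ v hu hv)
          refine Finset.sum_congr rfl fun g hg => ?_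
          rw [(Finset.mem_filter.mp hg).2]
      _ = _ := by rw [Finset.sum_const, Finset.card_range, nsmul_eq_mul]
  -- means
  have hZas : Z k z (a + s) (b + s) = Ex k t (fun x₁ => Ex k s (fun u => Ex k (a - t) (fun x₂ =>
      Ex k (b + s) (fun v => Real.exp (z * (L (x₁ ++ (u ++ x₂)) v : ℝ)))))) := by
    unfold Z
    have e1 : a + s = t + (s + (a - t)) := by omega
    rw [e1, Ex_append]
    refine Ex_congr fun x₁ _ => ?_
    rw [Ex_append]
  -- first term
  have hfirst : ∀ g ∈ Finset.range (b + 1), Ex k t (fun x₁ => Ex k s (fun u =>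
      Ex k (a - t) (fun x₂ => Ex k (b + s) (fun v => good u * w g u v * G g x₁ x₂ v)))) =
      Ex k s (fun u => good u * q u) * (Z k z t g * Z k z (a - t) (b - g)) := by
    intro g hg
    have hgb : g ≤ b := Nat.lt_succ_iff.mp (Finset.mem_range.mp hg)
    obtain ⟨r, hr⟩ : ∃ r, b + s = g + (s + r) := ⟨b - g, by omega⟩
    have e1 : b - g = r := by omega
    rw [e1]
    have h1 : ∀ x₁ u x₂ : List (Fin k), Ex k (b + s) (fun v => good u * w g u v * G g x₁ x₂ v) =
        (good u * q u) * (Ex k g (fun v => Real.exp (z * (L x₁ v : ℝ))) *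
          Ex k r (fun v => Real.exp (z * (L x₂ v : ℝ)))) := by
      intro x₁ u x₂
      rw [hr, Ex_append]
      have h2 : Ex k g (fun v1 => Ex k (s + r) (fun v => good u * w g u (v1 ++ v) *
          G g x₁ x₂ (v1 ++ v))) = Ex k g (fun v1 => Real.exp (z * (L x₁ v1 : ℝ)) *
          (good u * q u * Ex k r (fun v => Real.exp (z * (L x₂ v : ℝ))))) := by
        refine Ex_congr fun v1 hv1 => ?_
        rw [Ex_append]
        have h3 : ∀ v2 : List (Fin k), v2.length = s → Ex k r (fun v =>
            good u * w g u (v1 ++ (v2 ++ v)) * G g x₁ x₂ (v1 ++ (v2 ++ v))) =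
            (Real.exp (z * (L x₁ v1 : ℝ)) * (good u *
              Ex k r (fun v => Real.exp (z * (L x₂ v : ℝ))))) * (if A u v2 then 1 else 0) := by
          intro v2 hv2
          have e2 : (Real.exp (z * (L x₁ v1 : ℝ)) * (good u *
              Ex k r (fun v => Real.exp (z * (L x₂ v : ℝ))))) * (if A u v2 then 1 else 0) =
              (Real.exp (z * (L x₁ v1 : ℝ)) * good u * (if A u v2 then 1 else 0)) *
              Ex k r (fun v => Real.exp (z * (L x₂ v : ℝ))) := by ring
          rw [e2, ← Ex_const_mul]
          refine Ex_congr fun v3 _ => ?_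
          simp only [hw, hG]
          rw [List.drop_left' hv1, List.take_left' hv2, List.take_left' hv1, ← List.drop_drop,
            List.drop_left' hv1, List.drop_left' hv2]
          ring
        rw [Ex_congr h3, Ex_const_mul]
        simp only [hq]
        ring
      rw [h2, Ex_mul_const]
      ring
    simp only [h1]
    unfold Z
    simp only [Ex_const_mul, Ex_mul_const]
  -- second term
  have htail : ∀ ρ : ℕ, ρ < s → ∀ u : List (Fin k),
      Ex k (b + s) (fun v => good u * bad ρ u v) ≤
      (2 : ℝ) ^ (-K) * Real.exp (2 * Real.sqrt δ * (b + 1)) := by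
    intro ρ hρ u
    by_cases hg : q u ≤ 2 * Real.sqrt δ
    · have hg1 : good u = 1 := if_pos hg
      set n := (b + s - ρ) / s with hn
      have hnle : ρ + n * s ≤ b + s := by
        have := Nat.div_mul_le_self (b + s - ρ) s
        rw [← hn] at this
        omega
      have hnb : n ≤ b + 1 := by
        have h1 : n ≤ (b + s) / s := Nat.div_le_div_right (Nat.sub_le _ _)
        rw [Nat.add_div_right _ hs] at h1
        exact h1.trans (Nat.succ_le_succ (Nat.div_le_self _ _))
      have hbp := stmt_BP k s n ρ (b + s) (fun v => 1 + (if A u v then (1 : ℝ) else 0)) hk hnle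
      have h2 : Ex k s (fun v => 1 + (if A u v then (1 : ℝ) else 0)) = 1 + q u := by
        rw [Ex_add, Ex_const hk]
      rw [h2] at hbp
      have h3 : ∀ v, (good u * bad ρ u v) ≤ (2 : ℝ) ^ (-K) *
          ∏ i ∈ Finset.range n, (1 + (if A u ((v.drop (ρ + i * s)).take s) then (1 : ℝ) else 0)) := by
        intro v
        have h4 : ∏ i ∈ Finset.range n,
            (1 + (if A u ((v.drop (ρ + i * s)).take s) then (1 : ℝ) else 0)) =
            (2 : ℝ) ^ (J ρ u v) := by
          simp only [hJ]
          rw [reindex s b ρ hs hρ, Real.rpow_sum_of_pos (by norm_num)]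
          refine Finset.prod_congr rfl fun i _ => ?_
          simp only [hw]
          split_ifs <;> norm_num
        rw [h4, hg1, one_mul]
        simp only [hbad]
        split_ifs with hb
        · rw [← Real.rpow_add (by norm_num)]
          exact Real.one_le_rpow (by norm_num) (by linarith)
        · positivity
      refine (Ex_mono fun v _ => h3 v).trans ?_
      rw [Ex_const_mul, hbp]
      apply mul_le_mul_of_nonneg_left _ (by positivity)
      calc (1 + q u) ^ n ≤ (Real.exp (q u)) ^ n := by
            apply pow_le_pow_left₀ (by linarith [hq0 u])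
            linarith [Real.add_one_le_exp (q u)]
        _ = Real.exp (n * q u) := by rw [← Real.exp_nat_mul]
        _ ≤ _ := by
            apply Real.exp_le_exp.mpr
            have h5 : (n : ℝ) ≤ b + 1 := by exact_mod_cast hnb
            calc (n : ℝ) * q u ≤ (b + 1) * (2 * Real.sqrt δ) :=
                  mul_le_mul h5 hg (hq0 u) (by positivity)
              _ = _ := by ring
    · have hg1 : good u = 0 := if_neg hg
      rw [hg1]
      simp only [zero_mul, Ex_zero_fun]
      positivity
  have hsecond : ∀ g ∈ Finset.range (b + 1), Ex k t (fun x₁ => Ex k s (fun u =>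
      Ex k (a - t) (fun x₂ => Ex k (b + s) (fun v => good u * bad (g % s) u v *
        G g x₁ x₂ v)))) ≤
      Real.exp (z * m) * (Real.exp (z * y) * ((2 : ℝ) ^ (-K) *
        Real.exp (2 * Real.sqrt δ * (b + 1))) + Real.exp (-((c - z) * y))) := by
    intro g hg
    have hgb : g ≤ b := Nat.lt_succ_iff.mp (Finset.mem_range.mp hg)
    obtain ⟨r, hr⟩ : ∃ r, b + s = g + (s + r) := ⟨b - g, by omega⟩
    have e1 : b - g = r := by omega
    have hbr : b = g + r := by omega
    have h1 : ∀ x₁ u x₂ v : List (Fin k), good u * bad (g % s) u v * G g x₁ x₂ v ≤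
        Real.exp (z * m) * (good u * bad (g % s) u v * Real.exp (z * y) +
          Real.exp (-((c - z) * y)) * (Real.exp (-(c * m)) *
            (Real.exp (c * (L x₁ (v.take g) : ℝ)) *
              Real.exp (c * (L x₂ (v.drop (g + s)) : ℝ))))) := by
      intro x₁ u x₂ v
      have h2 := trunc_indicator hz.le hzc.le
        ((L x₁ (v.take g) : ℝ) + (L x₂ (v.drop (g + s)) : ℝ) - m) y
        (q u ≤ 2 * Real.sqrt δ ∧ K < J (g % s) u v)
      have e3 : (if q u ≤ 2 * Real.sqrt δ ∧ K < J (g % s) u v then (1 : ℝ) else 0) =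
          good u * bad (g % s) u v := by
        simp only [hgood, hbad]
        by_cases h3 : q u ≤ 2 * Real.sqrt δ <;> by_cases h4 : K < J (g % s) u v <;>
          simp [h3, h4]
      have e4 : G g x₁ x₂ v = Real.exp (z * m) *
          Real.exp (z * ((L x₁ (v.take g) : ℝ) + (L x₂ (v.drop (g + s)) : ℝ) - m)) := by
        simp only [hG]
        rw [← Real.exp_add, ← Real.exp_add]; congr 1; ring
      have e5 : Real.exp (c * ((L x₁ (v.take g) : ℝ) + (L x₂ (v.drop (g + s)) : ℝ) - m)) =
          Real.exp (-(c * m)) * (Real.exp (c * (L x₁ (v.take g) : ℝ)) *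
              Real.exp (c * (L x₂ (v.drop (g + s)) : ℝ))) := by
        rw [← Real.exp_add, ← Real.exp_add]; congr 1; ring
      rw [e3, e5] at h2
      rw [e4]
      calc _ = Real.exp (z * m) * (good u * bad (g % s) u v *
          Real.exp (z * ((L x₁ (v.take g) : ℝ) + (L x₂ (v.drop (g + s)) : ℝ) - m))) := by ring
        _ ≤ _ := mul_le_mul_of_nonneg_left h2 (Real.exp_pos _).le
    -- mean of the factors with c
    have h2 : ∀ x₁ x₂ : List (Fin k), Ex k (b + s) (fun v =>
        Real.exp (c * (L x₁ (v.take g) : ℝ)) * Real.exp (c * (L x₂ (v.drop (g + s)) : ℝ))) =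
        Ex k g (fun v => Real.exp (c * (L x₁ v : ℝ))) *
          Ex k r (fun v => Real.exp (c * (L x₂ v : ℝ))) := by
      intro x₁ x₂
      rw [hr, Ex_append, ← Ex_mul_const]
      refine Ex_congr fun v1 hv1 => ?_
      rw [Ex_append]
      have h3 : ∀ v2 : List (Fin k), v2.length = s → Ex k r (fun v =>
          Real.exp (c * (L x₁ ((v1 ++ (v2 ++ v)).take g) : ℝ)) *
          Real.exp (c * (L x₂ ((v1 ++ (v2 ++ v)).drop (g + s)) : ℝ))) =
          Real.exp (c * (L x₁ v1 : ℝ)) * Ex k r (fun v => Real.exp (c * (L x₂ v : ℝ))) := by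
        intro v2 hv2
        rw [← Ex_const_mul]
        refine Ex_congr fun v3 _ => ?_
        rw [List.take_left' hv1, ← List.drop_drop, List.drop_left' hv1, List.drop_left' hv2]
      rw [Ex_congr h3, Ex_const hk]
    have h3 : Ex k t (fun x₁ => Ex k s (fun _ => Ex k (a - t) (fun x₂ => Ex k (b + s) (fun v =>
        Real.exp (c * (L x₁ (v.take g) : ℝ)) * Real.exp (c * (L x₂ (v.drop (g + s)) : ℝ)))))) =
        Z k c t g * Z k c (a - t) r := by
      simp only [h2]
      unfold Z
      simp only [Ex_const_mul, Ex_mul_const, Ex_const hk]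
    have h4 : Real.exp (-(c * m)) * (Z k c t g * Z k c (a - t) r) ≤ 1 := by
      have h5 := hC.hH t g
      have h6 := hC.hH (a - t) r
      calc _ ≤ Real.exp (-(c * m)) * (Real.exp (c * α * (t + g)) *
            Real.exp (c * α * (((a - t : ℕ) : ℝ) + r))) := by
            apply mul_le_mul_of_nonneg_left _ (Real.exp_pos _).le
            exact mul_le_mul h5 h6 (Z_nonneg hk _ _ _) (Real.exp_pos _).le
        _ = 1 := by
            rw [← Real.exp_add, ← Real.exp_add, Nat.cast_sub hta, hm, hbr]
            push_cast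
            have : -(c * (α * ((a : ℝ) + (g + r)))) + (c * α * ((t : ℝ) + g) +
              c * α * ((a : ℝ) - t + r)) = 0 := by ring
            rw [this, Real.exp_zero]
    have h5 : Ex k t (fun _ => Ex k s (fun u => Ex k (a - t) (fun _ => Ex k (b + s) (fun v =>
        good u * bad (g % s) u v)))) ≤ (2 : ℝ) ^ (-K) * Real.exp (2 * Real.sqrt δ * (b + 1)) :=
      Ex_le_const hk fun _ _ => Ex_le_const hk fun u _ => Ex_le_const hk fun _ _ =>
        htail (g % s) (Nat.mod_lt _ hs) u
    calc _ ≤ Ex k t (fun x₁ => Ex k s (fun u => Ex k (a - t) (fun x₂ => Ex k (b + s) (fun v =>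
        Real.exp (z * m) * (good u * bad (g % s) u v * Real.exp (z * y) +
          Real.exp (-((c - z) * y)) * (Real.exp (-(c * m)) *
            (Real.exp (c * (L x₁ (v.take g) : ℝ)) *
              Real.exp (c * (L x₂ (v.drop (g + s)) : ℝ))))))))) :=
          Ex_mono fun x₁ _ => Ex_mono fun u _ => Ex_mono fun x₂ _ => Ex_mono fun v _ =>
            h1 x₁ u x₂ v
      _ = Real.exp (z * m) * (Ex k t (fun _ => Ex k s (fun u => Ex k (a - t) (fun _ =>
          Ex k (b + s) (fun v => good u * bad (g % s) u v)))) * Real.exp (z * y) +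
          Real.exp (-((c - z) * y)) * (Real.exp (-(c * m)) *
            Ex k t (fun x₁ => Ex k s (fun _ => Ex k (a - t) (fun x₂ => Ex k (b + s) (fun v =>
            Real.exp (c * (L x₁ (v.take g) : ℝ)) *
              Real.exp (c * (L x₂ (v.drop (g + s)) : ℝ)))))))) := by
          simp only [Ex_const_mul _ (Real.exp (z * m)), Ex_add,
            Ex_const_mul _ (Real.exp (-((c - z) * y))), Ex_const_mul _ (Real.exp (-(c * m))),
            Ex_mul_const _ (Real.exp (z * y))]
      _ ≤ Real.exp (z * m) * (((2 : ℝ) ^ (-K) * Real.exp (2 * Real.sqrt δ * (b + 1))) *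
          Real.exp (z * y) + Real.exp (-((c - z) * y)) * 1) := by
          rw [h3]
          apply mul_le_mul_of_nonneg_left _ (Real.exp_pos _).le
          apply add_le_add
          · exact mul_le_mul_of_nonneg_right h5 (Real.exp_pos _).le
          · exact mul_le_mul_of_nonneg_left h4 (Real.exp_pos _).le
      _ = _ := by ring
  -- assembling
  set Sg := ∑ g ∈ Finset.range (b + 1), Z k z t g * Z k z (a - t) (b - g) with hSg
  have hp : 3 / 8 * δ ≤ Ex k s (fun u => good u * q u) := by
    have h1 := stmt_DEG k s A δ hk hA hδ (by convert hAδ using 2)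
    refine h1.trans (le_of_eq ?_)
    refine Ex_congr fun u _ => ?_
    have h2 : (if q u ≤ 2 * Real.sqrt δ then q u else 0) =
        (if q u ≤ 2 * Real.sqrt δ then 1 else 0) * q u := by split_ifs <;> ring
    exact h2
  have hmean : Ex k t (fun x₁ => Ex k s (fun u => Ex k (a - t) (fun x₂ => Ex k (b + s) (fun v =>
      ∑ g ∈ Finset.range (b + 1), (Real.exp (z * l) *
        (good u * w g u v * G g x₁ x₂ v - good u * bad (g % s) u v * G g x₁ x₂ v)))))) ≤
      s * (K * Z k z (a + s) (b + s)) := by
    rw [hZas, ← Ex_const_mul, ← Ex_const_mul]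
    refine Ex_mono fun x₁ _ => ?_
    rw [← Ex_const_mul, ← Ex_const_mul]
    refine Ex_mono fun u hu => ?_
    rw [← Ex_const_mul, ← Ex_const_mul]
    refine Ex_mono fun x₂ _ => ?_
    rw [← Ex_const_mul, ← Ex_const_mul]
    refine Ex_mono fun v hv => ?_
    exact hPW2 x₁ u x₂ v hu hv
  have hmean2 : Ex k t (fun x₁ => Ex k s (fun u => Ex k (a - t) (fun x₂ => Ex k (b + s) (fun v =>
      ∑ g ∈ Finset.range (b + 1), (Real.exp (z * l) *
        (good u * w g u v * G g x₁ x₂ v - good u * bad (g % s) u v * G g x₁ x₂ v)))))) =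
      ∑ g ∈ Finset.range (b + 1), Real.exp (z * l) * (
        Ex k t (fun x₁ => Ex k s (fun u => Ex k (a - t) (fun x₂ => Ex k (b + s) (fun v =>
          good u * w g u v * G g x₁ x₂ v)))) -
        Ex k t (fun x₁ => Ex k s (fun u => Ex k (a - t) (fun x₂ => Ex k (b + s) (fun v =>
          good u * bad (g % s) u v * G g x₁ x₂ v))))) := by
    simp only [Ex_finset_sum, Ex_const_mul _ (Real.exp (z * l)), Ex_sub]
  rw [hmean2] at hmean
  have hlow : ∑ g ∈ Finset.range (b + 1), Real.exp (z * l) * (
        3 / 8 * δ * (Z k z t g * Z k z (a - t) (b - g)) -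
        Real.exp (z * m) * (Real.exp (z * y) * ((2 : ℝ) ^ (-K) *
        Real.exp (2 * Real.sqrt δ * (b + 1))) + Real.exp (-((c - z) * y)))) ≤
      s * (K * Z k z (a + s) (b + s)) := by
    refine le_trans (Finset.sum_le_sum fun g hg => ?_) hmean
    apply mul_le_mul_of_nonneg_left _ (Real.exp_pos _).le
    have h1 := hfirst g hg
    have h2 := hsecond g hg
    have h3 : 3 / 8 * δ * (Z k z t g * Z k z (a - t) (b - g)) ≤
        Ex k s (fun u => good u * q u) * (Z k z t g * Z k z (a - t) (b - g)) :=
      mul_le_mul_of_nonneg_right hp (mul_nonneg (Z_nonneg hk _ _ _) (Z_nonneg hk _ _ _))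
    rw [h1]
    linarith
  have hlow2 : ∑ g ∈ Finset.range (b + 1), Real.exp (z * l) * (
        3 / 8 * δ * (Z k z t g * Z k z (a - t) (b - g)) -
        Real.exp (z * m) * (Real.exp (z * y) * ((2 : ℝ) ^ (-K) *
        Real.exp (2 * Real.sqrt δ * (b + 1))) + Real.exp (-((c - z) * y)))) =
      3 / 8 * δ * Real.exp (z * l) * Sg - Real.exp (z * l) * (b + 1) *
        (Real.exp (z * y) * ((2 : ℝ) ^ (-K) * Real.exp (2 * Real.sqrt δ * (b + 1))) +
          Real.exp (-((c - z) * y))) * Real.exp (z * m) := by
    rw [← Finset.mul_sum, Finset.sum_sub_distrib, ← Finset.mul_sum, Finset.sum_const,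
      Finset.card_range, nsmul_eq_mul, ← hSg]
    push_cast
    ring
  rw [hlow2] at hlow
  have e9 : z * m = z * α * (a + b) := by rw [hm]; ring
  rw [e9] at hlow
  linarith

end Pool.Agent.LCSE
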