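import Pool.Agent.Work.MP_bec1e1_E_helper47.BP

set_option autoImplicit false
set_option maxHeartbeats 400000

open Filter Topology
open scoped BigOperators

namespace Pool.Agent.LCSE

theorem stmt_T2a : Stmt_T2a := by
  classical
  intro k α c z hC hz hzc s n a b w y hw hs hn hy
  have hk : 0 < k := by have := hC.hk; omega
  set m : ℝ := α * (a + b) with hm
  -- windows
  set win : ℕ → List (Fin k) → List (Fin k) := fun i x => (x.drop (0 + i * s)).take s with hwin
  set none : List (Fin k) → Prop := fun x => ∀ i ∈ Finset.range n, win i x ≠ w with hnone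
  have hnoneprod : ∀ x, (if none x then (1 : ℝ) else 0) =
      ∏ i ∈ Finset.range n, (if win i x = w then (0 : ℝ) else 1) := by
    intro x
    by_cases h : none x
    · rw [if_pos h]
      symm
      exact Finset.prod_eq_one fun i hi => if_neg (h i hi)
    · rw [if_neg h]
      simp only [hnone, not_forall, not_not] at h
      obtain ⟨i, hi, hiw⟩ := h
      symm
      exact Finset.prod_eq_zero hi (if_pos hiw)
  have hEnone : Ex k a (fun x => if none x then (1 : ℝ) else 0) = (1 - (k : ℝ)⁻¹ ^ s) ^ n := by
    have h1 := stmt_BP k s n 0 a (fun v => if v = w then (0 : ℝ) else 1) hk (by omega)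
    have h2 : Ex k s (fun v => if v = w then (0 : ℝ) else 1) = 1 - (k : ℝ)⁻¹ ^ s := by
      have h3 := Ex_indicator_eq w (fun _ => (1 : ℝ))
      rw [hw, mul_one] at h3
      calc Ex k s (fun v => if v = w then (0 : ℝ) else 1)
          = Ex k s (fun v => 1 - (if v = w then (1 : ℝ) else 0)) := by
            refine Ex_congr fun v _ => ?_
            split_ifs <;> norm_num
        _ = 1 - (k : ℝ)⁻¹ ^ s := by rw [Ex_sub, Ex_const hk, h3]
    rw [h2] at h1
    rw [← h1]
    exact Ex_congr fun x _ => hnoneprod x
  -- pointwise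
  have hpt : ∀ x y' : List (Fin k), Real.exp (z * (L x y' : ℝ)) ≤
      (if none x then (1 : ℝ) else 0) * Real.exp (z * (L x y' : ℝ)) +
      ∑ i ∈ Finset.range n, (if win i x = w then Real.exp (z * (L x y' : ℝ)) else 0) := by
    intro x y'
    by_cases h : none x
    · rw [if_pos h, one_mul]
      have : 0 ≤ ∑ i ∈ Finset.range n, (if win i x = w then Real.exp (z * (L x y' : ℝ)) else 0) :=
        Finset.sum_nonneg fun i _ => by split_ifs <;> positivity
      linarith
    · rw [if_neg h, zero_mul, zero_add]
      simp only [hnone, not_forall, not_not] at h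
      obtain ⟨i, hi, hiw⟩ := h
      have h1 := Finset.single_le_sum (f := fun i => if win i x = w then
        Real.exp (z * (L x y' : ℝ)) else 0) (fun i _ => by split_ifs <;> positivity) hi
      simpa [hiw] using h1
  -- the first part
  have hpart1 : Ex k a (fun x => Ex k b (fun y' => (if none x then (1 : ℝ) else 0) *
      Real.exp (z * (L x y' : ℝ)))) ≤
      (Real.exp (z * y) * (1 - (k : ℝ)⁻¹ ^ s) ^ n + Real.exp (-((c - z) * y))) *
        Real.exp (z * α * (a + b)) := by
    have h1 : ∀ x y' : List (Fin k), (if none x then (1 : ℝ) else 0) *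
        Real.exp (z * (L x y' : ℝ)) ≤ Real.exp (z * m) *
        ((if none x then (1 : ℝ) else 0) * Real.exp (z * y) +
          Real.exp (-((c - z) * y)) * (Real.exp (-(c * m)) * Real.exp (c * (L x y' : ℝ)))) := by
      intro x y'
      have h2 := trunc_indicator hz.le hzc.le ((L x y' : ℝ) - m) y (none x)
      have e1 : Real.exp (z * (L x y' : ℝ)) = Real.exp (z * m) *
          Real.exp (z * ((L x y' : ℝ) - m)) := by
        rw [← Real.exp_add]; congr 1; ring
      have e2 : Real.exp (c * ((L x y' : ℝ) - m)) =
          Real.exp (-(c * m)) * Real.exp (c * (L x y' : ℝ)) := by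
        rw [← Real.exp_add]; congr 1; ring
      rw [e2] at h2
      rw [e1]
      calc _ = Real.exp (z * m) * ((if none x then (1 : ℝ) else 0) *
            Real.exp (z * ((L x y' : ℝ) - m))) := by ring
        _ ≤ _ := mul_le_mul_of_nonneg_left h2 (Real.exp_pos _).le
    have h3 : Real.exp (-(c * m)) * Z k c a b ≤ 1 := by
      calc _ ≤ Real.exp (-(c * m)) * Real.exp (c * α * (a + b)) :=
            mul_le_mul_of_nonneg_left (hC.hH a b) (Real.exp_pos _).le
        _ = 1 := by
            rw [← Real.exp_add, hm]
            have : -(c * (α * ((a : ℝ) + b))) + c * α * (a + b) = 0 := by ring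
            rw [this, Real.exp_zero]
    calc _ ≤ Ex k a (fun x => Ex k b (fun y' => Real.exp (z * m) *
        ((if none x then (1 : ℝ) else 0) * Real.exp (z * y) +
          Real.exp (-((c - z) * y)) * (Real.exp (-(c * m)) * Real.exp (c * (L x y' : ℝ)))))) :=
          Ex_mono fun x _ => Ex_mono fun y' _ => h1 x y'
      _ = Real.exp (z * m) * ((1 - (k : ℝ)⁻¹ ^ s) ^ n * Real.exp (z * y) +
          Real.exp (-((c - z) * y)) * (Real.exp (-(c * m)) * Z k c a b)) := by
          unfold Z
          simp only [Ex_const_mul, Ex_add, Ex_mul_const, Ex_const hk, hEnone]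
      _ ≤ Real.exp (z * m) * ((1 - (k : ℝ)⁻¹ ^ s) ^ n * Real.exp (z * y) +
          Real.exp (-((c - z) * y)) * 1) := by
          apply mul_le_mul_of_nonneg_left _ (Real.exp_pos _).le
          apply add_le_add_right
          exact mul_le_mul_of_nonneg_left h3 (Real.exp_pos _).le
      _ = _ := by
          have : z * m = z * α * (a + b) := by rw [hm]; ring
          rw [this]; ring
  -- the second part
  have hpart2 : ∀ i ∈ Finset.range n, Ex k a (fun x => Ex k b (fun y' =>
      (if win i x = w then Real.exp (z * (L x y' : ℝ)) else 0))) =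
      (k : ℝ)⁻¹ ^ s * Ex k (i * s) (fun x₁ => Ex k (a - (i + 1) * s) (fun x₂ => Ex k b (fun v =>
          Real.exp (z * (L (x₁ ++ w ++ x₂) v : ℝ))))) := by
    intro i hi
    have hi' : i + 1 ≤ n := Finset.mem_range.mp hi
    have hi2 : (i + 1) * s ≤ a := (Nat.mul_le_mul_right s hi').trans hn
    obtain ⟨r, hr⟩ : ∃ r, a = i * s + (s + r) := ⟨a - (i + 1) * s, by
      have : (i + 1) * s = i * s + s := by ring
      omega⟩
    have e1 : a - (i + 1) * s = r := by
      have : (i + 1) * s = i * s + s := by ring
      omega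
    rw [e1]
    rw [hr, Ex_append, ← Ex_const_mul]
    refine Ex_congr fun x₁ hx₁ => ?_
    rw [Ex_append]
    have h1 : Ex k s (fun u => Ex k r (fun v => Ex k b (fun y' =>
        if win i (x₁ ++ (u ++ v)) = w then Real.exp (z * (L (x₁ ++ (u ++ v)) y' : ℝ)) else 0))) =
        Ex k s (fun u => if u = w then (Ex k r (fun v => Ex k b (fun y' =>
          Real.exp (z * (L (x₁ ++ (u ++ v)) y' : ℝ))))) else 0) := by
      refine Ex_congr fun u hu => ?_
      have e2 : ∀ v, win i (x₁ ++ (u ++ v)) = u := by
        intro v
        simp only [hwin, zero_add]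
        rw [List.drop_left' hx₁, List.take_left' hu]
      simp only [e2]
      split_ifs with h
      · rfl
      · simp only [Ex_zero_fun]
    rw [h1]
    have h2 := Ex_indicator_eq w (fun u => Ex k r (fun v => Ex k b (fun y' =>
          Real.exp (z * (L (x₁ ++ (u ++ v)) y' : ℝ)))))
    rw [hw] at h2
    rw [h2]
    simp only [List.append_assoc]
  calc Z k z a b ≤ Ex k a (fun x => Ex k b (fun y' =>
        (if none x then (1 : ℝ) else 0) * Real.exp (z * (L x y' : ℝ)) +
      ∑ i ∈ Finset.range n, (if win i x = w then Real.exp (z * (L x y' : ℝ)) else 0))) :=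
        Ex_mono fun x _ => Ex_mono fun y' _ => hpt x y'
    _ = Ex k a (fun x => Ex k b (fun y' => (if none x then (1 : ℝ) else 0) *
      Real.exp (z * (L x y' : ℝ)))) + ∑ i ∈ Finset.range n, Ex k a (fun x => Ex k b (fun y' =>
      (if win i x = w then Real.exp (z * (L x y' : ℝ)) else 0))) := by
        simp only [Ex_add, Ex_finset_sum]
    _ ≤ _ := by
        rw [Finset.sum_congr rfl hpart2, ← Finset.mul_sum, add_comm]
        exact add_le_add_right hpart1 _

end Pool.Agent.LCSE
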