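import Pool.Agent.Work.MP_bec1e1_E_helper47.Interface

set_option autoImplicit false
set_option maxHeartbeats 400000

open Filter Topology
open scoped BigOperators

namespace Pool.Agent.LCSE

theorem stmt_T2b : Stmt_T2b := by
  intro k z t t' b w hk hz
  have h1 : ∀ h ∈ Finset.range (b + 1), Ex k h (fun v => Real.exp (z * (L w v : ℝ))) *
        ∑ g ∈ Finset.range (b - h + 1), Z k z t g * Z k z t' (b - h - g) =
      Ex k t (fun x₁ => Ex k t' (fun x₂ => Ex k b (fun v =>
        ∑ g ∈ Finset.range (b - h + 1), Real.exp (z * (L x₁ (v.take g) : ℝ)) *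
          (Real.exp (z * (L w ((v.drop g).take h) : ℝ)) *
          Real.exp (z * (L x₂ (v.drop (g + h)) : ℝ)))))) := by
    intro h hh
    have hh' : h ≤ b := Nat.lt_succ_iff.mp (Finset.mem_range.mp hh)
    simp only [Ex_finset_sum]
    rw [Finset.mul_sum]
    refine Finset.sum_congr rfl fun g hg => ?_
    have hg' : g ≤ b - h := Nat.lt_succ_iff.mp (Finset.mem_range.mp hg)
    obtain ⟨r, hr⟩ : ∃ r, b = g + (h + r) := ⟨b - h - g, by omega⟩
    have e1 : b - h - g = r := by omega
    rw [e1]
    have h2 : ∀ x₁ x₂ : List (Fin k), Ex k b (fun v => Real.exp (z * (L x₁ (v.take g) : ℝ)) *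
          (Real.exp (z * (L w ((v.drop g).take h) : ℝ)) *
          Real.exp (z * (L x₂ (v.drop (g + h)) : ℝ)))) =
        Ex k g (fun v => Real.exp (z * (L x₁ v : ℝ))) * (Ex k h (fun v =>
          Real.exp (z * (L w v : ℝ))) * Ex k r (fun v => Real.exp (z * (L x₂ v : ℝ)))) := by
      intro x₁ x₂
      rw [hr, Ex_append, ← Ex_mul_const]
      refine Ex_congr fun v1 hv1 => ?_
      rw [Ex_append, ← Ex_mul_const, ← Ex_const_mul]
      refine Ex_congr fun v2 hv2 => ?_
      rw [← Ex_const_mul, ← Ex_const_mul]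
      refine Ex_congr fun v3 _ => ?_
      rw [List.take_left' hv1, List.drop_left' hv1, List.take_left' hv2, ← List.drop_drop,
        List.drop_left' hv1, List.drop_left' hv2]
    simp only [h2]
    unfold Z
    simp only [Ex_const_mul, Ex_mul_const]
    ring
  rw [Finset.sum_congr rfl h1, ← Ex_finset_sum]
  refine Ex_mono fun x₁ _ => ?_
  rw [← Ex_finset_sum]
  refine Ex_mono fun x₂ _ => ?_
  rw [← Ex_finset_sum]
  refine Ex_mono fun v hv => ?_
  obtain ⟨g', hg', e'⟩ := L_append_split (x₁ ++ w) x₂ v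
  obtain ⟨g, hg, e⟩ := L_append_split x₁ w (v.take g')
  rw [List.length_take] at hg
  have hgg : g ≤ g' := hg.trans (min_le_left _ _)
  have e2 : (v.take g').take g = v.take g := by rw [List.take_take, min_eq_left hgg]
  have e3 : (v.take g').drop g = (v.drop g).take (g' - g) := by rw [List.drop_take]
  rw [e', e, e2, e3]
  have hterm : Real.exp (z * ((L x₁ (v.take g) + L w ((v.drop g).take (g' - g)) +
      L x₂ (v.drop g') : ℕ) : ℝ)) =
      Real.exp (z * (L x₁ (v.take g) : ℝ)) * (Real.exp (z * (L w ((v.drop g).take (g' - g)) : ℝ)) *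
        Real.exp (z * (L x₂ (v.drop (g + (g' - g))) : ℝ))) := by
    rw [← Real.exp_add, ← Real.exp_add, Nat.add_sub_cancel' hgg]
    congr 1; push_cast; ring
  rw [hterm]
  have hmem1 : g' - g ∈ Finset.range (b + 1) := Finset.mem_range.mpr (by omega)
  have hmem2 : g ∈ Finset.range (b - (g' - g) + 1) := Finset.mem_range.mpr (by omega)
  generalize g' - g = h₀ at hmem1 hmem2 ⊢
  refine le_trans ?_ (Finset.single_le_sum (f := fun h => ∑ g ∈ Finset.range (b - h + 1),
    Real.exp (z * (L x₁ (v.take g) : ℝ)) * (Real.exp (z * (L w ((v.drop g).take h) : ℝ)) *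
          Real.exp (z * (L x₂ (v.drop (g + h)) : ℝ)))) (fun i _ => by positivity) hmem1)
  exact Finset.single_le_sum (f := fun g => Real.exp (z * (L x₁ (v.take g) : ℝ)) *
    (Real.exp (z * (L w ((v.drop g).take h₀) : ℝ)) *
          Real.exp (z * (L x₂ (v.drop (g + h₀)) : ℝ)))) (fun i _ => by positivity) hmem2

end Pool.Agent.LCSE
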