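import Pool.Agent.Work.MP_bec1e1_E_helper47.Interface

set_option autoImplicit false
set_option maxHeartbeats 400000

open Filter Topology
open scoped BigOperators

namespace Pool.Agent.LCSE

theorem stmt_T2c : Stmt_T2c := by
  classical
  intro k z θ s h o hθ hθz
  have hk : 0 < k := o.pos
  have hk0 : (0 : ℝ) < k := by exact_mod_cast hk
  have h1 : ∀ h : ℕ, Ex k h (fun v => Real.exp (θ * (L (List.replicate s o) v : ℝ))) ≤
      (1 + (Real.exp θ - 1) / k) ^ h := by
    intro h
    induction h with
    | zero => simp
    | succ h ih =>
      rw [Ex_succ, pow_succ, mul_comm]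
      set E := Ex k h (fun v => Real.exp (θ * (L (List.replicate s o) v : ℝ))) with hE
      have hE0 : 0 ≤ E := Ex_nonneg fun _ _ => (Real.exp_pos _).le
      have h2 : ∀ c : Fin k, Ex k h (fun w =>
          Real.exp (θ * (L (List.replicate s o) (c :: w) : ℝ))) ≤
          (1 + if c = o then Real.exp θ - 1 else 0) * E := by
        intro c
        rw [hE, ← Ex_const_mul]
        refine Ex_mono fun w _ => ?_
        split_ifs with hc
        · rw [add_sub_cancel, ← Real.exp_add]
          apply Real.exp_le_exp.mpr
          have := L_cons_right_le c (List.replicate s o) w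
          have h3 : (L (List.replicate s o) (c :: w) : ℝ) ≤ L (List.replicate s o) w + 1 := by
            exact_mod_cast this
          nlinarith
        · rw [add_zero, one_mul, L_cons_right_of_notMem]
          intro hmem
          exact hc (List.eq_of_mem_replicate hmem)
      calc (∑ c : Fin k, Ex k h (fun w =>
            Real.exp (θ * (L (List.replicate s o) (c :: w) : ℝ)))) / k
          ≤ (∑ c : Fin k, (1 + if c = o then Real.exp θ - 1 else 0) * E) / k :=
            div_le_div_of_nonneg_right (Finset.sum_le_sum fun c _ => h2 c) hk0.le
        _ = (1 + (Real.exp θ - 1) / k) * E := by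
            rw [← Finset.sum_mul, Finset.sum_add_distrib, Finset.sum_ite_eq']
            simp only [Finset.sum_const, Finset.card_univ, Fintype.card_fin, nsmul_eq_mul,
              Finset.mem_univ, if_true, mul_one]
            field_simp
        _ ≤ (1 + (Real.exp θ - 1) / k) * (1 + (Real.exp θ - 1) / k) ^ h := by
            apply mul_le_mul_of_nonneg_left ih
            have : 1 ≤ Real.exp θ := Real.one_le_exp hθ
            have : 0 ≤ (Real.exp θ - 1) / k := div_nonneg (by linarith) hk0.le
            linarith
  refine le_trans ?_ (mul_le_mul_of_nonneg_left (h1 h) (Real.exp_pos _).le)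
  rw [← Ex_const_mul]
  refine Ex_mono fun v _ => ?_
  rw [← Real.exp_add]
  apply Real.exp_le_exp.mpr
  have h3 : (L (List.replicate s o) v : ℝ) ≤ s := by
    have := L_le_left (List.replicate s o) v
    rw [List.length_replicate] at this
    exact_mod_cast this
  nlinarith

end Pool.Agent.LCSE
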