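import Pool.Agent.Work.MP_bec1e1_E_helper47.EB
import Pool.Agent.Work.MP_bec1e1_E_helper47.GAM

/-!
# Block TAIL: from the exponential form to the upper tail
-/

set_option autoImplicit false
set_option maxHeartbeats 400000

open Filter Topology
open scoped BigOperators

namespace Pool.Agent.LCSE
namespace TAILAux

open EBAux

variable {k : ℕ}

lemma exists_l (hk : 0 < k) {z γ : ℝ} (hz : 0 < z) {n : ℕ}
    (hn : Real.exp (z * γ * n) < Z k z n n) :
    ∃ m l : ℕ, 1 ≤ m ∧ 1 < Pl k m l * Real.exp (z * ((l : ℝ) - γ * m)) := by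
  have hn1 : 1 ≤ n := by
    rcases Nat.eq_zero_or_pos n with h | h
    · subst h
      simp [Z] at hn
    · exact h
  set ρ : ℝ := Z k z n n * Real.exp (-(z * γ * n)) with hρ
  have hρ1 : 1 < ρ := by
    have h1 : Real.exp (z * γ * n) * Real.exp (-(z * γ * n)) <
        Z k z n n * Real.exp (-(z * γ * n)) :=
      mul_lt_mul_of_pos_right hn (Real.exp_pos _)
    rwa [← Real.exp_add, add_neg_cancel, Real.exp_zero] at h1
  have hρ0 : 0 < ρ := by linarith
  obtain ⟨q, hq1, hq⟩ : ∃ q : ℕ, 1 ≤ q ∧ ((q * n : ℕ) : ℝ) + 1 < ρ ^ q := by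
    have hr0 : 0 ≤ ρ⁻¹ := (inv_pos.mpr hρ0).le
    have hr1 : ρ⁻¹ < 1 := inv_lt_one_of_one_lt₀ hρ1
    have h1 : Tendsto (fun q : ℕ => (n : ℝ) * ((q : ℝ) * ρ⁻¹ ^ q) + ρ⁻¹ ^ q) atTop
        (𝓝 ((n : ℝ) * 0 + 0)) :=
      ((tendsto_self_mul_const_pow_of_lt_one hr0 hr1).const_mul _).add
        (tendsto_pow_atTop_nhds_zero_of_lt_one hr0 hr1)
    rw [mul_zero, add_zero] at h1
    have h2 := (h1.eventually (gt_mem_nhds (zero_lt_one' ℝ))).and (eventually_ge_atTop 1)
    obtain ⟨q, h3, h4⟩ := h2.exists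
    refine ⟨q, h4, ?_⟩
    have h5 : (n : ℝ) * ((q : ℝ) * ρ⁻¹ ^ q) + ρ⁻¹ ^ q = (((q * n : ℕ) : ℝ) + 1) / ρ ^ q := by
      rw [inv_pow]; push_cast; field_simp
    rw [h5, div_lt_one (by positivity)] at h3
    exact h3
  set m : ℕ := q * n with hm
  have hm1 : 1 ≤ m := Nat.one_le_iff_ne_zero.mpr (by positivity)
  have hsum : (m : ℝ) + 1 < Z k z m m * Real.exp (-(z * γ * m)) := by
    refine hq.trans_le ?_
    rw [hρ, mul_pow, ← Real.exp_nat_mul]
    have h1 : (q : ℝ) * -(z * γ * n) = -(z * γ * m) := by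
      rw [hm]; push_cast; ring
    rw [h1]
    exact mul_le_mul_of_nonneg_right (Z_pow hk hz.le n q) (Real.exp_pos _).le
  refine ⟨m, ?_⟩
  by_contra hcon
  push Not at hcon
  rw [Z_eq_sum, Finset.sum_mul] at hsum
  have h1 : ∑ l ∈ Finset.range (m + 1), Pl k m l * Real.exp (z * l) *
      Real.exp (-(z * γ * m)) ≤ ∑ _l ∈ Finset.range (m + 1), (1 : ℝ) := by
    refine Finset.sum_le_sum fun l _ => ?_
    refine le_trans (le_of_eq ?_) (hcon l hm1)
    rw [mul_assoc, ← Real.exp_add]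
    congr 2
    ring
  rw [Finset.sum_const, Finset.card_range, nsmul_eq_mul, mul_one] at h1
  push_cast at h1
  linarith

lemma PrL_nonneg (n : ℕ) (t : ℝ) : 0 ≤ PrL k n t :=
  Ex_nonneg fun x _ => Ex_nonneg fun y _ => by split_ifs <;> norm_num

lemma PrL_anti (n : ℕ) {s t : ℝ} (h : s ≤ t) : PrL k n t ≤ PrL k n s := by
  refine Ex_mono fun x _ => Ex_mono fun y _ => ?_
  by_cases h1 : t ≤ (L x y : ℝ)
  · rw [if_pos h1, if_pos (h.trans h1)]
  · rw [if_neg h1]; split_ifs <;> norm_num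

lemma PrL_mul_le (m n : ℕ) (s t : ℝ) : PrL k m s * PrL k n t ≤ PrL k (m + n) (s + t) := by
  unfold PrL
  rw [Ex2_append m n, ← Ex_mul_const]
  refine Ex_mono fun u _ => ?_
  rw [← Ex_mul_const]
  refine Ex_mono fun v _ => ?_
  rw [← Ex_const_mul]
  refine Ex_mono fun u' _ => ?_
  rw [← Ex_const_mul]
  refine Ex_mono fun v' _ => ?_
  by_cases h1 : s ≤ (L u v : ℝ)
  · by_cases h2 : t ≤ (L u' v' : ℝ)
    · have h3 : ((L u v + L u' v' : ℕ) : ℝ) ≤ (L (u ++ u') (v ++ v') : ℝ) := by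
        exact_mod_cast L_append_ge u u' v v'
      push_cast at h3
      rw [if_pos h1, if_pos h2, if_pos (by linarith)]
      norm_num
    · rw [if_neg h2]; split_ifs <;> norm_num
  · rw [if_neg h1]; split_ifs <;> norm_num

lemma PrL_pow_le (hk : 0 < k) (m q : ℕ) (s : ℝ) :
    PrL k m s ^ q ≤ PrL k (q * m) (q * s) := by
  induction q with
  | zero =>
    simp [PrL]
  | succ q ih =>
    rw [pow_succ, show (q + 1) * m = q * m + m by ring]
    have h1 : ((q + 1 : ℕ) : ℝ) * s = q * s + s := by push_cast; ring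
    rw [h1]
    exact (mul_le_mul_of_nonneg_right ih (PrL_nonneg _ _)).trans (PrL_mul_le _ _ _ _)

lemma Pl_le_PrL (m l : ℕ) : Pl k m l ≤ PrL k m l := by
  refine Ex_mono fun x _ => Ex_mono fun y _ => ?_
  split_ifs with h1 h2
  · exact le_refl _
  · exact absurd (by rw [h1]) h2
  · norm_num
  · norm_num

/-- Markov: mean against probability -/
lemma EL_le_PrL (hk : 0 < k) (n : ℕ) {t : ℝ} (ht : 0 ≤ t) : EL k n ≤ n * PrL k n t + t := by
  have h1 : (n : ℝ) * PrL k n t + t = Ex k n (fun x => Ex k n (fun y =>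
      n * (if t ≤ (L x y : ℝ) then 1 else 0) + t)) := by
    unfold PrL
    simp only [Ex_add, Ex_const hk, Ex_const_mul]
  rw [h1]
  refine Ex_mono fun x hx => Ex_mono fun y _ => ?_
  by_cases h2 : t ≤ (L x y : ℝ)
  · rw [if_pos h2]
    have h3 : (L x y : ℝ) ≤ n := by
      have := L_le_left x y
      rw [hx] at this
      exact_mod_cast this
    linarith
  · rw [if_neg h2]
    push Not at h2
    linarith

end TAILAux

open EBAux TAILAux in
theorem stmt_TAIL : Stmt_TAIL := by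
  intro hE k hk2 γ hlim hle ε hε
  have hk : 0 < k := lt_of_lt_of_le two_pos hk2
  have hγ0 : 0 < γ := by
    have h1 := hle 1
    have h2 := GAMAux.EL_one_pos hk
    simp only [Nat.cast_one, mul_one] at h1
    linarith
  set z : ℝ := ε / 2 with hz
  have hz0 : 0 < z := by positivity
  obtain ⟨n0, hn0⟩ := hE k hk2 γ hlim z hz0
  obtain ⟨M, l, hM, hl⟩ := exists_l hk hz0 hn0
  set P : ℝ := Pl k M l with hP
  set Δ : ℝ := (l : ℝ) - γ * M with hΔ
  have hP0 : 0 < P := by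
    rcases (Pl_nonneg (k := k) M l).lt_or_eq with h | h
    · exact h
    · rw [hP, ← h, zero_mul] at hl
      linarith
  have hP1 : P ≤ 1 := Pl_le_one hk M l
  have hup : 0 < Real.log P + z * Δ := by
    have h1 := Real.log_pos hl
    rwa [Real.log_mul hP0.ne' (Real.exp_pos _).ne', Real.log_exp] at h1
  have hlogP : Real.log P ≤ 0 := Real.log_nonpos hP0.le hP1
  have hΔ0 : 0 < Δ := by
    by_contra h
    push Not at h
    nlinarith [mul_nonneg hz0.le (neg_nonneg.mpr h)]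
  have hPexp : Real.exp (-(z * Δ)) ≤ P := by
    rw [← Real.exp_log hP0]
    exact Real.exp_le_exp.mpr (by linarith)
  have hMR : (1 : ℝ) ≤ M := by exact_mod_cast hM
  refine ⟨min (Δ / (3 * M)) γ, lt_min (by positivity) hγ0, fun δ hδ hδ' => ?_⟩
  have hδ1 : δ < Δ / (3 * M) := hδ'.trans_le (min_le_left _ _)
  have hδ2 : δ < γ := hδ'.trans_le (min_le_right _ _)
  set η : ℝ := δ / 2 with hη
  have hη0 : 0 < η := by positivity
  -- typical event
  have htyp : ∀ᶠ n : ℕ in atTop, η / 2 ≤ PrL k n ((γ - η) * n) := by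
    have h1 := hlim.eventually (lt_mem_nhds (show γ - η / 2 < γ by linarith))
    filter_upwards [h1, eventually_ge_atTop 1] with n h2 h3
    have hn : (0 : ℝ) < n := by exact_mod_cast h3
    rw [lt_div_iff₀ hn] at h2
    have h4 := EL_le_PrL hk n (t := (γ - η) * n) (mul_nonneg (by linarith) hn.le)
    have h5 : η / 2 * n ≤ PrL k n ((γ - η) * n) * n := by linarith
    exact le_of_mul_le_mul_right h5 hn
  obtain ⟨N0, hN0⟩ := eventually_atTop.mp htyp
  have hev1 : ∀ᶠ n : ℕ in atTop, (2 * ((M : ℝ) + N0)) ≤ n :=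
    tendsto_natCast_atTop_atTop.eventually (eventually_ge_atTop _)
  have hev2 : ∀ᶠ n : ℕ in atTop, (z * Δ - Real.log (η / 2)) / (ε * δ / 4) ≤ (n : ℝ) :=
    tendsto_natCast_atTop_atTop.eventually (eventually_ge_atTop _)
  filter_upwards [hev1, hev2] with n hn1 hn2
  rw [div_le_iff₀ (by positivity)] at hn2
  set q : ℕ := ⌈3 / 2 * δ * n / Δ⌉₊ with hq
  have hq1 : 3 / 2 * δ * n / Δ ≤ q := Nat.le_ceil _
  have hq2 : (q : ℝ) < 3 / 2 * δ * n / Δ + 1 := Nat.ceil_lt_add_one (by positivity)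
  have hq1' : 3 / 2 * δ * n ≤ q * Δ := by rwa [div_le_iff₀ hΔ0] at hq1
  have hq2' : q * Δ ≤ 3 / 2 * δ * n + Δ := by
    have := mul_le_mul_of_nonneg_right hq2.le hΔ0.le
    rwa [add_mul, div_mul_cancel₀ _ hΔ0.ne', one_mul] at this
  have hqM : (q : ℝ) * M ≤ n / 2 + M := by
    have h1 : δ * (3 * M) ≤ Δ := by
      rw [lt_div_iff₀ (by positivity)] at hδ1
      exact hδ1.le
    have h2 : (q : ℝ) * M * Δ ≤ (n / 2 + M) * Δ := by
      calc (q : ℝ) * M * Δ = (q * Δ) * M := by ring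
        _ ≤ (3 / 2 * δ * n + Δ) * M := mul_le_mul_of_nonneg_right hq2' (by linarith)
        _ = δ * (3 * M) * (n / 2) + Δ * M := by ring
        _ ≤ Δ * (n / 2) + Δ * M := by
          have := mul_le_mul_of_nonneg_right h1 (show (0 : ℝ) ≤ (n : ℝ) / 2 by positivity)
          linarith
        _ = (n / 2 + M) * Δ := by ring
    exact le_of_mul_le_mul_right h2 hΔ0
  have hle1 : q * M + N0 ≤ n := by
    have : ((q * M + N0 : ℕ) : ℝ) ≤ n := by
      push_cast
      linarith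
    exact_mod_cast this
  obtain ⟨r, hr⟩ := Nat.exists_eq_add_of_le (show q * M ≤ n by omega)
  have hrN : N0 ≤ r := by omega
  have hrR : (n : ℝ) = q * M + r := by rw [hr]; push_cast; ring
  have h1 : PrL k (q * M + r) ((q : ℝ) * l + (γ - η) * r) ≤ PrL k n ((γ + δ) * n) := by
    rw [← hr]
    apply PrL_anti
    have h2 : (l : ℝ) = γ * M + Δ := by rw [hΔ]; ring
    have h3 : 0 ≤ η * (q * M) := by positivity
    have h4 : (γ - η) * r = (γ - η) * (n - q * M) := by rw [hrR]; ring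
    rw [h2, h4]
    nlinarith
  refine le_trans ?_ h1
  refine le_trans ?_ (PrL_mul_le _ _ _ _)
  have h5 : Real.exp (-(z * Δ)) ^ q ≤ PrL k (q * M) ((q : ℝ) * l) :=
    (pow_le_pow_left₀ (Real.exp_pos _).le (hPexp.trans (Pl_le_PrL M l)) q).trans
      (PrL_pow_le hk M q l)
  have h6 := hN0 r hrN
  refine le_trans ?_ (mul_le_mul h5 h6 (by positivity) (PrL_nonneg _ _))
  rw [← Real.exp_nat_mul, ← Real.exp_log (show 0 < η / 2 by positivity), ← Real.exp_add]
  apply Real.exp_le_exp.mpr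
  have h7 : z * (q * Δ) ≤ z * (3 / 2 * δ * n + Δ) := mul_le_mul_of_nonneg_left hq2' hz0.le
  have h8 : z * (3 / 2 * δ * n + Δ) = 3 / 4 * (ε * δ * n) + z * Δ := by rw [hz]; ring
  nlinarith

end Pool.Agent.LCSE
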