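import Pool.Agent.Work.MP_bec1e1_E_helper47.FIN
import Pool.Agent.Work.MP_bec1e1_E_helper47.P1
import Pool.Agent.Work.MP_bec1e1_E_helper47.MX
import Pool.Agent.Work.MP_bec1e1_E_helper47.EB
import Pool.Agent.Work.MP_bec1e1_E_helper47.T1
import Pool.Agent.Work.MP_bec1e1_E_helper47.T2a
import Pool.Agent.Work.MP_bec1e1_E_helper47.T2b
import Pool.Agent.Work.MP_bec1e1_E_helper47.T2c
import Pool.Agent.Work.MP_bec1e1_E_helper47.K
import Pool.Agent.Work.MP_bec1e1_E_helper47.GAM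
import Pool.Agent.Work.MP_bec1e1_E_helper47.CR
import Pool.Agent.Work.MP_bec1e1_E_helper47.TAIL
import Pool.Agent.Work.MP_bec1e1_E_helper47.CONV

set_option autoImplicit false
set_option maxHeartbeats 400000

open Filter Topology
open scoped BigOperators

namespace Pool.Agent.LCSE

theorem stmt_FIN : Stmt_FIN :=
  fin_of stmt_P1 stmt_MX stmt_EB stmt_T1 stmt_T2a stmt_T2b stmt_T2c stmt_K

theorem stmt_E : Stmt_E := by
  intro k hk γ hγ z hz
  by_contra hcon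
  push Not at hcon
  obtain ⟨γ', h0, h1, hlim, -⟩ := stmt_GAM k hk
  have he : γ = γ' := tendsto_nhds_unique hγ hlim
  subst he
  obtain ⟨c, hC⟩ := stmt_CR k γ z hk h0 h1 hγ hz hcon
  exact stmt_FIN k (γ / 2) c hC

/-- exponential growth at every `z > 0` -/
theorem growth (k : ℕ) (hk : 2 ≤ k) (γ : ℝ) (hγ0 : 0 < γ)
    (hγ : Tendsto (fun n : ℕ => EL k n / n) atTop (𝓝 γ)) (z : ℝ) (hz : 0 < z) :
    ∃ c : ℝ, 0 < c ∧ ∀ᶠ n : ℕ in atTop, Real.exp ((γ * z + c) * n) ≤ Z k z n n := by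
  have hk0 : 0 < k := by omega
  obtain ⟨n₀, hn₀⟩ := stmt_E k hk γ hγ z hz
  have hn1 : 1 ≤ n₀ := by
    rcases Nat.eq_zero_or_pos n₀ with h | h
    · subst h
      simp [Z] at hn₀
    · exact h
  have hn1R : (1 : ℝ) ≤ n₀ := by exact_mod_cast hn1
  have hn0R : (0 : ℝ) < n₀ := by linarith
  set c₀ : ℝ := (Real.log (Z k z n₀ n₀) - z * γ * n₀) / n₀ with hc₀
  have hc0 : 0 < c₀ := by
    have := Real.log_lt_log (Real.exp_pos _) hn₀
    rw [Real.log_exp] at this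
    rw [hc₀]; apply div_pos _ hn0R; linarith
  have hZ0 : Z k z n₀ n₀ = Real.exp ((γ * z + c₀) * n₀) := by
    have : (γ * z + c₀) * n₀ = Real.log (Z k z n₀ n₀) := by
      rw [hc₀]; field_simp; ring
    rw [this, Real.exp_log (Z_pos hk0 z n₀ n₀)]
  refine ⟨c₀ / 2, by positivity, ?_⟩
  have hev : ∀ᶠ n : ℕ in atTop, 2 * ((γ * z + c₀) * n₀) / c₀ ≤ (n : ℝ) :=
    tendsto_natCast_atTop_atTop.eventually_ge_atTop _
  filter_upwards [hev] with n hn
  have h1 : (γ * z + c₀) * n₀ ≤ c₀ / 2 * n := by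
    rw [div_le_iff₀ hc0] at hn
    linarith
  set q := n / n₀ with hq
  have hqr : n = q * n₀ + n % n₀ := (Nat.div_add_mod' n n₀).symm
  have hr : n % n₀ ≤ n₀ := (Nat.mod_lt _ hn1).le
  have hrR : ((n % n₀ : ℕ) : ℝ) ≤ n₀ := by exact_mod_cast hr
  have hqrR : (n : ℝ) = q * n₀ + (n % n₀ : ℕ) := by exact_mod_cast hqr
  calc Real.exp ((γ * z + c₀ / 2) * n) ≤ Real.exp ((γ * z + c₀) * (q * n₀)) := by
        apply Real.exp_le_exp.mpr
        have h2 : (γ * z + c₀) * (q * n₀) = (γ * z + c₀) * n -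
            (γ * z + c₀) * (n % n₀ : ℕ) := by rw [hqrR]; ring
        rw [h2]
        have h3 : (γ * z + c₀) * ((n % n₀ : ℕ) : ℝ) ≤ (γ * z + c₀) * n₀ :=
          mul_le_mul_of_nonneg_left hrR (by positivity)
        linarith
    _ = Z k z n₀ n₀ ^ q := by
        rw [hZ0, ← Real.exp_nat_mul]; congr 1; ring
    _ ≤ Z k z (q * n₀) (q * n₀) := EBAux.Z_pow hk0 hz.le n₀ q
    _ ≤ Z k z (q * n₀) (q * n₀) * Z k z (n % n₀) (n % n₀) :=
        le_mul_of_one_le_right (Z_nonneg hk0 _ _ _) (one_le_Z hk0 hz.le _ _)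
    _ ≤ Z k z (q * n₀ + n % n₀) (q * n₀ + n % n₀) := Z_mul_le hk0 hz.le _ _ _ _
    _ = Z k z n n := by rw [← hqr]

end Pool.Agent.LCSE
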