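import Pool.Agent.Work.MP_bec1e1_E_helper47.Interface

set_option autoImplicit false
set_option maxHeartbeats 400000

open Filter Topology
open scoped BigOperators

namespace Pool.Agent.LCSE

theorem stmt_BP : Stmt_BP := by
  intro k s n ρ N φ hk h
  induction n generalizing ρ N with
  | zero => simp [Ex_const hk]
  | succ n ih =>
    obtain ⟨M, rfl⟩ : ∃ M, N = ρ + (s + M) := ⟨N - (ρ + s), by
      have : (n + 1) * s = n * s + s := by ring
      omega⟩
    have hM : 0 + n * s ≤ M := by
      have : (n + 1) * s = n * s + s := by ring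
      omega
    rw [Ex_append]
    have h1 : ∀ y₀ : List (Fin k), y₀.length = ρ → Ex k (s + M) (fun y =>
        ∏ i ∈ Finset.range (n + 1), φ (((y₀ ++ y).drop (ρ + i * s)).take s)) =
        Ex k s φ ^ (n + 1) := by
      intro y₀ hy₀
      rw [Ex_append]
      have h2 : ∀ v : List (Fin k), v.length = s → Ex k M (fun y =>
          ∏ i ∈ Finset.range (n + 1), φ (((y₀ ++ (v ++ y)).drop (ρ + i * s)).take s)) =
          φ v * Ex k s φ ^ n := by
        intro v hv
        rw [← ih 0 M hM, ← Ex_const_mul]
        refine Ex_congr fun y _ => ?_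
        rw [Finset.prod_range_succ', mul_comm]
        congr 1
        · rw [zero_mul, add_zero, List.drop_left' hy₀, List.take_left' hv]
        · refine Finset.prod_congr rfl fun i _ => ?_
          have e1 : (y₀ ++ (v ++ y)).drop (ρ + (i + 1) * s) = y.drop (0 + i * s) := by
            have e2 : ρ + (i + 1) * s = ρ + (s + (0 + i * s)) := by ring
            rw [e2, ← List.drop_drop, List.drop_left' hy₀, ← List.drop_drop, List.drop_left' hv]
          rw [e1]
      rw [Ex_congr h2, Ex_mul_const, pow_succ]; ring
    rw [Ex_congr h1, Ex_const hk]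

end Pool.Agent.LCSE
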