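import Mathlib

/-!
# Base file for theorem (E): the upper tail of the LCS of two random words

`L u v`: length of a longest common subsequence. `Ex k n f`: mean of `f` over all words of length
`n` with letters in `Fin k`. `Z k z a b`: mean of `exp (z * L x y)`, `|x| = a`, `|y| = b`.
-/

set_option autoImplicit false
set_option maxHeartbeats 400000

open scoped BigOperators

namespace Pool.Agent.LCSE

section LCS
variable {α : Type*}

/-- length of a longest common subsequence -/
noncomputable def L (u v : List α) : ℕ :=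
  sSup {m : ℕ | ∃ l : List α, l.length = m ∧ l.Sublist u ∧ l.Sublist v}

lemma L_bdd (u v : List α) :
    BddAbove {m : ℕ | ∃ l : List α, l.length = m ∧ l.Sublist u ∧ l.Sublist v} := by
  refine ⟨u.length, ?_⟩
  rintro m ⟨l, rfl, h1, -⟩
  exact h1.length_le

lemma exists_L (u v : List α) : ∃ l : List α, l.length = L u v ∧ l.Sublist u ∧ l.Sublist v := by
  have h := Nat.sSup_mem (s := {m : ℕ | ∃ l : List α, l.length = m ∧ l.Sublist u ∧ l.Sublist v})
    ⟨0, [], rfl, List.nil_sublist _, List.nil_sublist _⟩ (L_bdd u v)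
  exact h

lemma le_L {l u v : List α} (h1 : l.Sublist u) (h2 : l.Sublist v) : l.length ≤ L u v :=
  le_csSup (L_bdd u v) ⟨l, rfl, h1, h2⟩

lemma L_le {u v : List α} {m : ℕ}
    (h : ∀ l : List α, l.Sublist u → l.Sublist v → l.length ≤ m) : L u v ≤ m := by
  obtain ⟨l, hl, h1, h2⟩ := exists_L u v
  rw [← hl]; exact h l h1 h2

lemma L_comm (u v : List α) : L u v = L v u :=
  le_antisymm (L_le fun _ h1 h2 => le_L h2 h1) (L_le fun _ h1 h2 => le_L h2 h1)

lemma L_le_left (u v : List α) : L u v ≤ u.length := L_le fun _ h1 _ => h1.length_le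

lemma L_le_right (u v : List α) : L u v ≤ v.length := L_le fun _ _ h2 => h2.length_le

@[simp] lemma L_nil_left (v : List α) : L ([] : List α) v = 0 :=
  Nat.le_zero.mp (L_le_left _ _)

@[simp] lemma L_nil_right (u : List α) : L u ([] : List α) = 0 :=
  Nat.le_zero.mp (L_le_right _ _)

lemma L_self (u : List α) : L u u = u.length :=
  le_antisymm (L_le_left _ _) (le_L (List.Sublist.refl _) (List.Sublist.refl _))

lemma L_mono {u u' v v' : List α} (h : u.Sublist u') (h' : v.Sublist v') : L u v ≤ L u' v' :=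
  L_le fun _ h1 h2 => le_L (h1.trans h) (h2.trans h')

/-- superadditivity -/
lemma L_append_ge (u u' v v' : List α) : L u v + L u' v' ≤ L (u ++ u') (v ++ v') := by
  obtain ⟨l, hl, h1, h2⟩ := exists_L u v
  obtain ⟨l', hl', h1', h2'⟩ := exists_L u' v'
  rw [← hl, ← hl', ← List.length_append]
  exact le_L (h1.append h1') (h2.append h2')

/-- splitting: the optimal common subsequence of `u ++ u'` and `v` splits `v` -/
lemma L_append_split (u u' v : List α) :
    ∃ g ≤ v.length, L (u ++ u') v = L u (v.take g) + L u' (v.drop g) := by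
  obtain ⟨l, hl, h1, h2⟩ := exists_L (u ++ u') v
  obtain ⟨l1, l2, rfl, h3, h4⟩ := List.sublist_append_iff.mp h1
  obtain ⟨v1, v2, rfl, h5, h6⟩ := List.append_sublist_iff.mp h2
  refine ⟨v1.length, by simp, ?_⟩
  apply le_antisymm
  · rw [← hl, List.length_append]
    exact Nat.add_le_add (le_L h3 (by simpa using h5)) (le_L h4 (by simpa using h6))
  · calc _ ≤ L (u ++ u') ((v1 ++ v2).take v1.length ++ (v1 ++ v2).drop v1.length) :=
        L_append_ge _ _ _ _
      _ = _ := by rw [List.take_append_drop]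

lemma L_cons_cons_self (a : α) (u v : List α) : L u v + 1 ≤ L (a :: u) (a :: v) := by
  obtain ⟨l, hl, h1, h2⟩ := exists_L u v
  have := le_L (h1.cons_cons a) (h2.cons_cons a)
  simpa [hl] using this

lemma L_cons_left (a : α) (u v : List α) : L u v ≤ L (a :: u) v :=
  L_mono (List.sublist_cons_self _ _) (List.Sublist.refl _)

lemma L_cons_right (a : α) (u v : List α) : L u v ≤ L u (a :: v) :=
  L_mono (List.Sublist.refl _) (List.sublist_cons_self _ _)

/-- upper bound at a pair of first letters -/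
lemma L_cons_cons_le [DecidableEq α] (a b : α) (u v : List α) :
    L (a :: u) (b :: v) ≤ max (if a = b then L u v + 1 else 0) (max (L u (b :: v)) (L (a :: u) v)) := by
  apply L_le
  intro l h1 h2
  cases l with
  | nil => simp
  | cons c l =>
    rcases List.sublist_cons_iff.mp h1 with h | ⟨r, hr, h⟩
    · exact le_max_of_le_right (le_max_of_le_left (le_L h h2))
    · rcases List.sublist_cons_iff.mp h2 with h' | ⟨r', hr', h'⟩
      · exact le_max_of_le_right (le_max_of_le_right (le_L h1 h'))
      · obtain ⟨rfl, rfl⟩ := List.cons.inj hr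
        obtain ⟨h3, rfl⟩ := List.cons.inj hr'
        apply le_max_of_le_left
        rw [if_pos h3]
        simpa using le_L h h'

lemma L_cons_right_le (c : α) (u v : List α) : L u (c :: v) ≤ L u v + 1 := by
  apply L_le
  intro l h1 h2
  rcases List.sublist_cons_iff.mp h2 with h' | ⟨r', hr', h'⟩
  · exact (le_L h1 h').trans (Nat.le_succ _)
  · subst hr'
    have : r'.Sublist u := (List.sublist_cons_self _ _).trans h1
    simpa using le_L this h'

lemma L_cons_right_of_notMem {c : α} {u : List α} (h : c ∉ u) (v : List α) :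
    L u (c :: v) = L u v := by
  apply le_antisymm _ (L_cons_right _ _ _)
  apply L_le
  intro l h1 h2
  rcases List.sublist_cons_iff.mp h2 with h' | ⟨r', hr', h'⟩
  · exact le_L h1 h'
  · subst hr'
    exact absurd (h1.subset (List.mem_cons_self)) h

end LCS

/-! ## Mean over words -/

/-- mean of `f` over all words of length `n` over `Fin k` -/
noncomputable def Ex (k : ℕ) : ℕ → (List (Fin k) → ℝ) → ℝ
  | 0, f => f []
  | (n + 1), f => (∑ c : Fin k, Ex k n (fun w => f (c :: w))) / k

variable {k : ℕ}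

@[simp] lemma Ex_zero (f : List (Fin k) → ℝ) : Ex k 0 f = f [] := rfl

lemma Ex_succ (n : ℕ) (f : List (Fin k) → ℝ) :
    Ex k (n + 1) f = (∑ c : Fin k, Ex k n (fun w => f (c :: w))) / k := rfl

lemma Ex_congr {n : ℕ} {f g : List (Fin k) → ℝ} (h : ∀ w, w.length = n → f w = g w) :
    Ex k n f = Ex k n g := by
  induction n generalizing f g with
  | zero => exact h [] rfl
  | succ n ih =>
    rw [Ex_succ, Ex_succ]
    congr 1
    refine Finset.sum_congr rfl fun c _ => ih fun w hw => h _ (by simp [hw])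

lemma Ex_mono {n : ℕ} {f g : List (Fin k) → ℝ} (h : ∀ w, w.length = n → f w ≤ g w) :
    Ex k n f ≤ Ex k n g := by
  induction n generalizing f g with
  | zero => exact h [] rfl
  | succ n ih =>
    rw [Ex_succ, Ex_succ]
    apply div_le_div_of_nonneg_right _ (Nat.cast_nonneg _)
    exact Finset.sum_le_sum fun c _ => ih fun w hw => h _ (by simp [hw])

lemma Ex_add (n : ℕ) (f g : List (Fin k) → ℝ) :
    Ex k n (fun w => f w + g w) = Ex k n f + Ex k n g := by
  induction n generalizing f g with
  | zero => rfl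
  | succ n ih =>
    rw [Ex_succ, Ex_succ, Ex_succ, ← add_div, ← Finset.sum_add_distrib]
    congr 1
    exact Finset.sum_congr rfl fun c _ => ih _ _

lemma Ex_const_mul (n : ℕ) (c : ℝ) (f : List (Fin k) → ℝ) :
    Ex k n (fun w => c * f w) = c * Ex k n f := by
  induction n generalizing f with
  | zero => rfl
  | succ n ih =>
    rw [Ex_succ, Ex_succ, ← mul_div_assoc, Finset.mul_sum]
    congr 1
    exact Finset.sum_congr rfl fun c _ => ih _

lemma Ex_mul_const (n : ℕ) (c : ℝ) (f : List (Fin k) → ℝ) :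
    Ex k n (fun w => f w * c) = Ex k n f * c := by
  rw [mul_comm, ← Ex_const_mul]
  exact Ex_congr fun w _ => mul_comm _ _

lemma Ex_zero_fun (n : ℕ) : Ex k n (fun _ => (0 : ℝ)) = 0 := by
  simpa using Ex_const_mul (k := k) n 0 (fun _ => 0)

lemma Ex_neg (n : ℕ) (f : List (Fin k) → ℝ) : Ex k n (fun w => - f w) = - Ex k n f := by
  simpa using Ex_const_mul (k := k) n (-1) f

lemma Ex_sub (n : ℕ) (f g : List (Fin k) → ℝ) :
    Ex k n (fun w => f w - g w) = Ex k n f - Ex k n g := by
  simp only [sub_eq_add_neg]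
  rw [Ex_add, Ex_neg]

lemma Ex_finset_sum {ι : Type*} (s : Finset ι) (n : ℕ) (f : ι → List (Fin k) → ℝ) :
    Ex k n (fun w => ∑ i ∈ s, f i w) = ∑ i ∈ s, Ex k n (f i) := by
  classical
  induction s using Finset.induction_on with
  | empty => simpa using Ex_zero_fun n
  | insert i s hi ih =>
    rw [Finset.sum_insert hi, ← ih, ← Ex_add]
    exact Ex_congr fun w _ => Finset.sum_insert hi

lemma Ex_const (hk : 0 < k) (n : ℕ) (c : ℝ) : Ex k n (fun _ => c) = c := by
  induction n with
  | zero => rfl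
  | succ n ih =>
    rw [Ex_succ]
    simp only [ih, Finset.sum_const, Finset.card_univ, Fintype.card_fin, nsmul_eq_mul]
    have : (k : ℝ) ≠ 0 := by positivity
    field_simp

lemma Ex_nonneg {n : ℕ} {f : List (Fin k) → ℝ} (h : ∀ w, w.length = n → 0 ≤ f w) :
    0 ≤ Ex k n f := by
  have := Ex_mono (k := k) (n := n) (f := fun _ => 0) (g := f) h
  rwa [Ex_zero_fun] at this

lemma Ex_le_const (hk : 0 < k) {n : ℕ} {f : List (Fin k) → ℝ} {c : ℝ}
    (h : ∀ w, w.length = n → f w ≤ c) : Ex k n f ≤ c := by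
  have := Ex_mono (k := k) (n := n) (f := f) (g := fun _ => c) h
  rwa [Ex_const hk] at this

lemma const_le_Ex (hk : 0 < k) {n : ℕ} {f : List (Fin k) → ℝ} {c : ℝ}
    (h : ∀ w, w.length = n → c ≤ f w) : c ≤ Ex k n f := by
  have := Ex_mono (k := k) (n := n) (f := fun _ => c) (g := f) h
  rwa [Ex_const hk] at this

/-- the word of length `m + n` is the concatenation of independent words -/
lemma Ex_append (m n : ℕ) (f : List (Fin k) → ℝ) :
    Ex k (m + n) f = Ex k m (fun u => Ex k n (fun v => f (u ++ v))) := by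
  induction m generalizing f with
  | zero => simp
  | succ m ih =>
    rw [show m + 1 + n = (m + n) + 1 by ring, Ex_succ, Ex_succ]
    congr 1
    exact Finset.sum_congr rfl fun c _ => ih _

lemma Ex_comm (m n : ℕ) (f : List (Fin k) → List (Fin k) → ℝ) :
    Ex k m (fun u => Ex k n (fun v => f u v)) = Ex k n (fun v => Ex k m (fun u => f u v)) := by
  induction m generalizing f with
  | zero => rfl
  | succ m ih =>
    rw [Ex_succ]
    have : (fun v => Ex k (m + 1) (fun u => f u v)) =
        fun v => (∑ c : Fin k, Ex k m (fun w => f (c :: w) v)) * (k : ℝ)⁻¹ := by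
      funext v; rw [Ex_succ, div_eq_mul_inv]
    rw [this, Ex_mul_const, Ex_finset_sum, div_eq_mul_inv]
    congr 1
    exact Finset.sum_congr rfl fun c _ => ih _

lemma Ex_prod (m n : ℕ) (f g : List (Fin k) → ℝ) :
    Ex k m (fun u => Ex k n (fun v => f u * g v)) = Ex k m f * Ex k n g := by
  simp only [Ex_const_mul, Ex_mul_const]

/-- probability that a word equals a given word -/
lemma Ex_indicator_eq (w : List (Fin k)) (f : List (Fin k) → ℝ) :
    Ex k w.length (fun v => if v = w then f v else 0) = ((k : ℝ)⁻¹) ^ w.length * f w := by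
  induction w generalizing f with
  | nil => simp
  | cons c w ih =>
    rw [List.length_cons, Ex_succ, Finset.sum_eq_single c]
    · simp only [List.cons.injEq, true_and]
      rw [ih (fun v => f (c :: v))]
      rw [pow_succ]; ring
    · intro d _ hd
      simp only [List.cons.injEq, hd, false_and, if_false]
      exact Ex_zero_fun _
    · simp

lemma Ex_exp_jensen (hk : 0 < k) (n : ℕ) (f : List (Fin k) → ℝ) :
    Real.exp (Ex k n f) ≤ Ex k n (fun w => Real.exp (f w)) := by
  -- tangent line at the mean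
  set m := Ex k n f with hm
  have h : ∀ w : List (Fin k), w.length = n →
      Real.exp m * (1 + (f w - m)) ≤ Real.exp (f w) := by
    intro w _
    have h1 : f w = m + (f w - m) := by ring
    calc Real.exp m * (1 + (f w - m)) ≤ Real.exp m * Real.exp (f w - m) := by
          apply mul_le_mul_of_nonneg_left _ (Real.exp_pos _).le
          linarith [Real.add_one_le_exp (f w - m)]
      _ = Real.exp (f w) := by rw [← Real.exp_add]; congr 1; ring
  have h2 := Ex_mono h
  rw [Ex_const_mul] at h2
  have h3 : Ex k n (fun w => 1 + (f w - m)) = 1 := by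
    rw [Ex_add, Ex_const hk, Ex_sub, Ex_const hk, ← hm]; ring
  rw [h3, mul_one] at h2
  exact h2

/-! ## Partition functions -/

/-- mean of `exp (z * L x y)` over `|x| = a`, `|y| = b` -/
noncomputable def Z (k : ℕ) (z : ℝ) (a b : ℕ) : ℝ :=
  Ex k a (fun x => Ex k b (fun y => Real.exp (z * (L x y : ℝ))))

/-- mean length of the longest common subsequence -/
noncomputable def EL (k : ℕ) (n : ℕ) : ℝ :=
  Ex k n (fun x => Ex k n (fun y => (L x y : ℝ)))

/-- probability that `L x y ≥ t`, `|x| = |y| = n` -/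
noncomputable def PrL (k : ℕ) (n : ℕ) (t : ℝ) : ℝ :=
  Ex k n (fun x => Ex k n (fun y => if t ≤ (L x y : ℝ) then 1 else 0))

lemma Z_comm (z : ℝ) (a b : ℕ) : Z k z a b = Z k z b a := by
  unfold Z
  rw [Ex_comm]
  simp only [L_comm]

lemma Z_pos (hk : 0 < k) (z : ℝ) (a b : ℕ) : 0 < Z k z a b := by
  unfold Z
  have h : ∀ (x y : List (Fin k)), y.length = b → x.length = a →
      Real.exp (-(|z| * a)) ≤ Real.exp (z * (L x y : ℝ)) := by
    intro x y _ hx
    apply Real.exp_le_exp.mpr
    have h1 : (L x y : ℝ) ≤ a := by exact_mod_cast hx ▸ L_le_left x y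
    have h2 : -(|z| * (L x y : ℝ)) ≤ z * (L x y : ℝ) := by
      rw [← neg_mul]
      exact mul_le_mul_of_nonneg_right (neg_abs_le z) (Nat.cast_nonneg _)
    nlinarith [abs_nonneg z]
  refine lt_of_lt_of_le (Real.exp_pos (-(|z| * a))) ?_
  exact const_le_Ex hk fun x hx => const_le_Ex hk fun y hy => h x y hy hx

lemma Z_nonneg (hk : 0 < k) (z : ℝ) (a b : ℕ) : 0 ≤ Z k z a b := (Z_pos hk z a b).le

lemma Z_le_exp_left (hk : 0 < k) {z : ℝ} (hz : 0 ≤ z) (a b : ℕ) :
    Z k z a b ≤ Real.exp (z * a) := by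
  unfold Z
  refine Ex_le_const hk fun x hx => Ex_le_const hk fun y _ => ?_
  apply Real.exp_le_exp.mpr
  have h1 : (L x y : ℝ) ≤ a := by exact_mod_cast hx ▸ L_le_left x y
  exact mul_le_mul_of_nonneg_left h1 hz

lemma Z_le_exp_right (hk : 0 < k) {z : ℝ} (hz : 0 ≤ z) (a b : ℕ) :
    Z k z a b ≤ Real.exp (z * b) := by
  rw [Z_comm]; exact Z_le_exp_left hk hz b a

lemma one_le_Z (hk : 0 < k) {z : ℝ} (hz : 0 ≤ z) (a b : ℕ) : 1 ≤ Z k z a b := by
  unfold Z
  refine const_le_Ex hk fun x _ => const_le_Ex hk fun y _ => ?_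
  exact Real.one_le_exp (by positivity)

/-- supermultiplicativity -/
lemma Z_mul_le (_hk : 0 < k) {z : ℝ} (hz : 0 ≤ z) (a b a' b' : ℕ) :
    Z k z a b * Z k z a' b' ≤ Z k z (a + a') (b + b') := by
  have h1 : Z k z (a + a') (b + b') = Ex k a (fun x => Ex k b (fun y => Ex k a' (fun x' =>
      Ex k b' (fun y' => Real.exp (z * (L (x ++ x') (y ++ y') : ℝ)))))) := by
    unfold Z
    rw [Ex_append]
    refine Ex_congr fun x _ => ?_
    rw [Ex_comm, Ex_append]
    refine Ex_congr fun y _ => ?_
    rw [Ex_comm]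
  rw [h1]
  unfold Z
  rw [← Ex_mul_const]
  refine Ex_mono fun x _ => ?_
  rw [← Ex_mul_const]
  refine Ex_mono fun y _ => ?_
  rw [← Ex_const_mul]
  refine Ex_mono fun x' _ => ?_
  rw [← Ex_const_mul]
  refine Ex_mono fun y' _ => ?_
  rw [← Real.exp_add]
  apply Real.exp_le_exp.mpr
  have : ((L x y + L x' y' : ℕ) : ℝ) ≤ (L (x ++ x') (y ++ y') : ℝ) := by
    exact_mod_cast L_append_ge x x' y y'
  push_cast at this
  nlinarith

/-- splitting the rows: `Z (a + a') b ≤ ∑ g, Z a g * Z a' (b - g)` -/
lemma Z_split (_hk : 0 < k) {z : ℝ} (_hz : 0 ≤ z) (a a' b : ℕ) :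
    Z k z (a + a') b ≤ ∑ g ∈ Finset.range (b + 1), Z k z a g * Z k z a' (b - g) := by
  have h1 : ∀ g ∈ Finset.range (b + 1), Z k z a g * Z k z a' (b - g) =
      Ex k a (fun x => Ex k a' (fun x' => Ex k b (fun y =>
        Real.exp (z * (L x (y.take g) : ℝ)) * Real.exp (z * (L x' (y.drop g) : ℝ))))) := by
    intro g hg
    have hg' : g ≤ b := Nat.lt_succ_iff.mp (Finset.mem_range.mp hg)
    obtain ⟨c, rfl⟩ := Nat.exists_eq_add_of_le hg'
    have h2 : ∀ x x' : List (Fin k), Ex k (g + c) (fun y =>
        Real.exp (z * (L x (y.take g) : ℝ)) * Real.exp (z * (L x' (y.drop g) : ℝ))) =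
        Ex k g (fun y => Real.exp (z * (L x y : ℝ))) *
          Ex k c (fun y => Real.exp (z * (L x' y : ℝ))) := by
      intro x x'
      rw [Ex_append, ← Ex_prod]
      refine Ex_congr fun u hu => Ex_congr fun v _ => ?_
      rw [List.take_left' hu, List.drop_left' hu]
    simp only [h2, Nat.add_sub_cancel_left]
    unfold Z
    rw [Ex_prod]
  rw [Finset.sum_congr rfl h1, ← Ex_finset_sum]
  unfold Z
  rw [Ex_append]
  refine Ex_mono fun x _ => ?_
  rw [← Ex_finset_sum]
  refine Ex_mono fun x' _ => ?_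
  rw [← Ex_finset_sum]
  refine Ex_mono fun y hy => ?_
  obtain ⟨g, hg, h⟩ := L_append_split x x' y
  rw [h]
  push_cast
  rw [mul_add, Real.exp_add]
  refine Finset.single_le_sum (f := fun g => Real.exp (z * (L x (y.take g) : ℝ)) *
    Real.exp (z * (L x' (y.drop g) : ℝ))) (fun i _ => by positivity) ?_
  exact Finset.mem_range.mpr (by omega)

/-- the linear form of Hoelder's inequality which is used everywhere (pointwise) -/
lemma trunc {z c : ℝ} (hz : 0 ≤ z) (hzc : z ≤ c) (x y : ℝ) :
    Real.exp (z * x) ≤ Real.exp (z * y) + Real.exp (-((c - z) * y)) * Real.exp (c * x) := by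
  rcases le_total x y with h | h
  · have h1 : Real.exp (z * x) ≤ Real.exp (z * y) :=
      Real.exp_le_exp.mpr (mul_le_mul_of_nonneg_left h hz)
    have h2 : 0 ≤ Real.exp (-((c - z) * y)) * Real.exp (c * x) := by positivity
    linarith
  · have h1 : Real.exp (z * x) ≤ Real.exp (-((c - z) * y)) * Real.exp (c * x) := by
      rw [← Real.exp_add]
      apply Real.exp_le_exp.mpr
      nlinarith
    linarith [Real.exp_pos (z * y)]

/-- same with an indicator -/
lemma trunc_indicator {z c : ℝ} (hz : 0 ≤ z) (hzc : z ≤ c) (x y : ℝ) (p : Prop) [Decidable p] :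
    (if p then (1 : ℝ) else 0) * Real.exp (z * x) ≤ (if p then (1 : ℝ) else 0) * Real.exp (z * y)
      + Real.exp (-((c - z) * y)) * Real.exp (c * x) := by
  split_ifs
  · simpa using trunc hz hzc x y
  · have : 0 ≤ Real.exp (-((c - z) * y)) * Real.exp (c * x) := by positivity
    simpa using this

end Pool.Agent.LCSE
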