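import Pool.Agent.Work.MP_bec1e1_E_helper47.FINB

set_option autoImplicit false
set_option maxHeartbeats 4000000

open Filter Topology
open scoped BigOperators

namespace Pool.Agent.LCSE

lemma ev_exp (A B δ t : ℝ) (ht : 0 < t) (hδ : 0 < δ) :
    ∀ᶠ s : ℕ in atTop, B * (Real.exp (A * s) * Real.exp (-(t * (s : ℝ) ^ 2))) ≤ δ := by
  have h1 : Tendsto (fun s : ℕ => (t * (s : ℝ) - A) * s) atTop atTop := by
    apply Tendsto.atTop_mul_atTop₀ _ tendsto_natCast_atTop_atTop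
    exact tendsto_atTop_add_const_right _ _ (tendsto_natCast_atTop_atTop.const_mul_atTop ht)
  have h2 : Tendsto (fun s : ℕ => Real.exp (-((t * (s : ℝ) - A) * s))) atTop (𝓝 0) :=
    Real.tendsto_exp_neg_atTop_nhds_zero.comp h1
  have h3 : Tendsto (fun s : ℕ => B * Real.exp (-((t * (s : ℝ) - A) * s))) atTop (𝓝 (B * 0)) :=
    h2.const_mul B
  rw [mul_zero] at h3
  filter_upwards [h3.eventually (gt_mem_nhds hδ)] with s hs
  refine le_of_eq_of_le ?_ hs.le
  rw [← Real.exp_add]; congr 2; ring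

lemma ev_poly (m : ℕ) (B δ t : ℝ) (ht : 0 < t) (hδ : 0 < δ) :
    ∀ᶠ s : ℕ in atTop, B * ((s : ℝ) ^ m * Real.exp (-(t * s))) ≤ δ := by
  have h1 : Tendsto (fun s : ℕ => t * (s : ℝ)) atTop atTop :=
    tendsto_natCast_atTop_atTop.const_mul_atTop ht
  have h2 := (Real.tendsto_pow_mul_exp_neg_atTop_nhds_zero m).comp h1
  have h3 := h2.const_mul (B / t ^ m)
  rw [mul_zero] at h3
  filter_upwards [h3.eventually (gt_mem_nhds hδ)] with s hs
  refine le_of_eq_of_le ?_ hs.le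
  simp only [Function.comp_apply]
  have : t ^ m ≠ 0 := by positivity
  rw [mul_pow]
  field_simp

theorem fin_of (hP1 : Stmt_P1) (hMX : Stmt_MX) (hEB : Stmt_EB)
    (hT1 : Stmt_T1) (hT2a : Stmt_T2a) (hT2b : Stmt_T2b) (hT2c : Stmt_T2c) (hK : Stmt_K) :
    Stmt_FIN := by
  intro k α c hC
  have hk2 := hC.hk
  have hk : 0 < k := by omega
  have hα := hC.hα0
  have hα1 := hC.hα1
  have hc := hC.hc
  have hkR : (2 : ℝ) ≤ k := by exact_mod_cast hk2
  have hk0 : (0 : ℝ) < k := by linarith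
  -- κ = log k
  set κ := Real.log k with hκ
  have hκ0 : 0 < κ := Real.log_pos (by linarith)
  -- choose η
  have hKc := hK k α c hC
  have hcont1 : Continuous (fun t : ℝ =>
      Real.exp (c * α - 3 * t) - (1 + (Real.exp (c * (1 - α) + 2 * t) - 1) / k)) := by fun_prop
  have hev1 := (hcont1.tendsto 0).eventually (lt_mem_nhds (a := (0 : ℝ)) (by
    simp only [mul_zero, sub_zero, add_zero]; linarith))
  obtain ⟨e1, he1, hball1⟩ := Metric.eventually_nhds_iff.mp hev1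
  obtain ⟨η, hη, hηe1, hη2⟩ : ∃ η : ℝ, 0 < η ∧ η < e1 ∧ η ≤ c * α / 8 := by
    refine ⟨min (e1 / 2) (c * α / 8), lt_min (by linarith) (by positivity), ?_, min_le_right _ _⟩
    exact lt_of_le_of_lt (min_le_left _ _) (by linarith)
  have hf1 : 0 < Real.exp (c * α - 3 * η) - (1 + (Real.exp (c * (1 - α) + 2 * η) - 1) / k) := by
    apply hball1
    rw [Real.dist_eq, sub_zero, abs_of_pos hη]; exact hηe1
  have hcont2 : Continuous (fun z : ℝ =>
      Real.exp (z * α - 3 * η) - (1 + (Real.exp (z * (1 - α) + 2 * η) - 1) / k)) := by fun_prop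
  have hev2 := (hcont2.tendsto c).eventually (lt_mem_nhds hf1)
  obtain ⟨e2, he2, hball2⟩ := Metric.eventually_nhds_iff.mp hev2
  obtain ⟨t, ht0, hte2, htc, htκ⟩ : ∃ t : ℝ, 0 < t ∧ t < e2 ∧ t ≤ c / 2 ∧ t ≤ η * c / (40 * κ) := by
    refine ⟨min (e2 / 2) (min (c / 2) (η * c / (40 * κ))),
      lt_min (by linarith) (lt_min (by positivity) (by positivity)), ?_, ?_, ?_⟩
    · exact lt_of_le_of_lt (min_le_left _ _) (by linarith)
    · exact (min_le_right _ _).trans (min_le_left _ _)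
    · exact (min_le_right _ _).trans (min_le_right _ _)
  set z := c - t with hz_def
  have hz : 0 < z := by linarith
  have hzc : z < c := by linarith
  have hQ : 1 + (Real.exp (z * (1 - α) + 2 * η) - 1) / k ≤ Real.exp (z * α - 3 * η) := by
    have := hball2 (y := z) (by
      rw [Real.dist_eq, hz_def]
      have : c - t - c = -t := by ring
      rw [this, abs_neg, abs_of_pos ht0]; exact hte2)
    linarith
  have hθ : 2 * η ≤ z * α := by
    have hz2 : c / 2 ≤ z := by rw [hz_def]; linarith only [htc]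
    have h1 := mul_le_mul_of_nonneg_right hz2 hα.le
    have h2 := mul_pos hc hα
    linarith only [h1, h2, hη2]
  obtain ⟨m₀, Δ, D, hm₀, hΔ, hD, hcΔ, hDΔ, hblocks⟩ := hEB k α c (c + t) hC (by linarith)
  have hm0R : (1 : ℝ) ≤ m₀ := by exact_mod_cast hm₀
  obtain ⟨lam, hlam, hlamη, hlam2⟩ : ∃ lam : ℝ, 0 < lam ∧ lam ≤ η ∧
      lam ≤ η * D / (40 * m₀ * κ) := by
    refine ⟨min η (η * D / (40 * m₀ * κ)), lt_min hη (by positivity), min_le_left _ _,
      min_le_right _ _⟩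
  obtain ⟨C, hC0, hP⟩ := hP1 k α c z hC hz hzc.le
  have hCR : (1 : ℝ) ≤ C := by exact_mod_cast hC0
  -- constants
  set B1 : ℝ := D + 2 * η * m₀ with hB1
  set B2 : ℝ := m₀ * (5 * κ / D + 1) with hB2
  set Cη : ℝ := 1 / (1 - Real.exp (-(2 * η))) with hCη
  have hCη0 : 0 < Cη := by
    have : Real.exp (-(2 * η)) < 1 := by rw [Real.exp_lt_one_iff]; linarith
    rw [hCη]; apply div_pos one_pos; linarith
  -- eventual facts
  have E1 := ev_poly 4 1 1 κ hκ0 one_pos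
  have E2 : ∀ᶠ s : ℕ in atTop, (Real.log (2 * C) + 2 * κ * s) * 2 ≤ lam * (s : ℝ) ^ 4 := by
    have h1 : Tendsto (fun s : ℕ => (s : ℝ) * (lam * (s : ℝ) ^ 3 - 4 * κ)) atTop atTop := by
      apply Tendsto.atTop_mul_atTop₀ tendsto_natCast_atTop_atTop
      apply tendsto_atTop_add_const_right
      apply Tendsto.const_mul_atTop hlam
      exact (tendsto_pow_atTop (by norm_num)).comp tendsto_natCast_atTop_atTop
    filter_upwards [h1.eventually_ge_atTop (2 * Real.log (2 * C))] with s hs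
    have e : (s : ℝ) * (lam * (s : ℝ) ^ 3 - 4 * κ) = lam * (s : ℝ) ^ 4 - 4 * κ * s := by ring
    rw [e] at hs
    linarith only [hs]
  have E3 := ev_exp (2 * κ) ((Real.exp 1 + 1) * (2 * C)) (1 / 2) t ht0 (by norm_num)
  have E4 := ev_poly 7 (16 / 3 * (B2 * Real.exp B1 * Cη)) (1 / 8) (η / 2) (by linarith)
    (by norm_num)
  have E5 := ev_exp (11 * κ + c + 3) (16 / 3 * (Real.exp D * (C + 2) ^ 2 * (2 * C) *
    (Real.exp (2 * (C + 2)) + 1))) (1 / 8) t ht0 (by norm_num)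
  have E6 : ∀ᶠ s : ℕ in atTop, 2 * (c + t) ≤ (s : ℝ) :=
    tendsto_natCast_atTop_atTop.eventually_ge_atTop _
  have E7 : ∀ᶠ s : ℕ in atTop, 1 ≤ s := eventually_ge_atTop 1
  obtain ⟨s, hE1, hE2, hE3, hE4, hE5, hE6, hE7⟩ :=
    (E1.and (E2.and (E3.and (E4.and (E5.and (E6.and E7)))))).exists
  have hsR : (1 : ℝ) ≤ s := by exact_mod_cast hE7
  have hs0 : (0 : ℝ) < s := by linarith
  -- n
  set n : ℕ := s ^ 4 * k ^ s with hn
  have hnR : (n : ℝ) = (s : ℝ) ^ 4 * (k : ℝ) ^ s := by rw [hn]; push_cast; ring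
  have hks : (k : ℝ) ^ s = Real.exp (κ * s) := by
    rw [mul_comm, Real.exp_nat_mul, hκ, Real.exp_log hk0]
  have hks1 : (1 : ℝ) ≤ (k : ℝ) ^ s := one_le_pow₀ (by linarith)
  have hs4 : (s : ℝ) ^ 4 ≤ Real.exp (κ * s) := by
    have h1 : (s : ℝ) ^ 4 * Real.exp (-(κ * s)) ≤ 1 := by linarith
    have h2 : Real.exp (-(κ * s)) * Real.exp (κ * s) = 1 := by rw [← Real.exp_add]; simp
    calc (s : ℝ) ^ 4 = (s : ℝ) ^ 4 * (Real.exp (-(κ * s)) * Real.exp (κ * s)) := by
          rw [h2, mul_one]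
      _ = ((s : ℝ) ^ 4 * Real.exp (-(κ * s))) * Real.exp (κ * s) := by ring
      _ ≤ 1 * Real.exp (κ * s) := mul_le_mul_of_nonneg_right h1 (Real.exp_pos _).le
      _ = _ := one_mul _
  have hn_le : (n : ℝ) ≤ Real.exp (2 * κ * s) := by
    rw [hnR, hks]
    calc _ ≤ Real.exp (κ * s) * Real.exp (κ * s) :=
          mul_le_mul_of_nonneg_right hs4 (Real.exp_pos _).le
      _ = _ := by rw [← Real.exp_add]; congr 1; ring
  have hn_ge : (s : ℝ) ^ 4 ≤ n := by
    rw [hnR]; exact le_mul_of_one_le_right (by positivity) hks1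
  have hn1R : (1 : ℝ) ≤ n := le_trans (one_le_pow₀ hsR) hn_ge
  have hn1 : 1 ≤ n := by exact_mod_cast hn1R
  -- P1
  obtain ⟨b₀, hb₀, hPb⟩ := hP n hn1
  set R : ℝ := C * (n + 1) with hR
  have hR1 : 1 ≤ R := by
    rw [hR]; exact one_le_mul_of_one_le_of_one_le hCR (by linarith only [hn1R])
  have hR2 : R ≤ 2 * C * Real.exp (2 * κ * s) := by
    rw [hR]
    calc (C : ℝ) * (n + 1) ≤ C * (2 * n) := by
          apply mul_le_mul_of_nonneg_left _ (by linarith); linarith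
      _ ≤ C * (2 * Real.exp (2 * κ * s)) := by gcongr
      _ = _ := by ring
  have hlogR : Real.log R ≤ Real.log (2 * C) + 2 * κ * s := by
    have h1 := Real.log_le_log (by linarith) hR2
    rwa [Real.log_mul (by positivity) (Real.exp_pos _).ne', Real.log_exp] at h1
  obtain ⟨a, b, hab, hdist, hmax⟩ := hMX k α c z lam R n b₀ hC hz hzc.le hlam hR1 hPb
  have hdist2 : Real.log R / lam ≤ n / 2 := by
    rw [div_le_iff₀ hlam]
    have h1 : lam * (s : ℝ) ^ 4 ≤ lam * n := mul_le_mul_of_nonneg_left hn_ge hlam.le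
    linarith only [h1, hlogR, hE2]
  have habs_a : |(a : ℝ) - n| ≤ n / 2 := by
    have := abs_nonneg ((b : ℝ) - b₀); linarith
  have habs_b : |(b : ℝ) - b₀| ≤ n / 2 := by
    have := abs_nonneg ((a : ℝ) - n); linarith
  have ha1 : (n : ℝ) / 2 ≤ a := by have := (abs_le.mp habs_a).1; linarith
  have ha2 : (a : ℝ) ≤ 2 * n := by have := (abs_le.mp habs_a).2; linarith
  have hb₀R : (b₀ : ℝ) ≤ C * n := by exact_mod_cast hb₀
  have hb1 : (b : ℝ) + 1 ≤ (C + 2) * n := by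
    have h1 := (abs_le.mp habs_b).2
    linarith only [h1, hb₀R, hn1R]
  have hb2 : (b : ℝ) + 1 ≤ (C + 2) * Real.exp (2 * κ * s) :=
    hb1.trans (mul_le_mul_of_nonneg_left hn_le (by linarith))
  -- r
  set r : ℕ := ⌈5 * s * κ / D⌉₊ with hr
  have hr1 : 5 * s * κ / D ≤ r := Nat.le_ceil _
  have hr2 : (r : ℝ) ≤ 5 * s * κ / D + 1 := (Nat.ceil_lt_add_one (by positivity)).le
  have hrpos : 0 < r := Nat.ceil_pos.mpr (by positivity)
  have hDr1 : 5 * s * κ ≤ D * r := by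
    have := mul_le_mul_of_nonneg_left hr1 hD.le
    rwa [mul_div_cancel₀ _ hD.ne'] at this
  have hDr2 : D * r ≤ 5 * s * κ + D := by
    have := mul_le_mul_of_nonneg_left hr2 hD.le
    rwa [mul_add, mul_div_cancel₀ _ hD.ne', mul_one] at this
  obtain ⟨A, hA, hAl, hAδ⟩ := hblocks r
  have hs' : 1 ≤ r * m₀ := Nat.mul_pos hrpos hm₀
  have hs'R : ((r * m₀ : ℕ) : ℝ) = r * m₀ := by push_cast; ring
  -- condition A
  have hcz : c - z = t := by rw [hz_def]; ring
  have hdecay : Real.exp (c * (s : ℝ) ^ 2) * Real.exp (-((s : ℝ) ^ 3 / 2)) ≤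
      Real.exp (-(t * (s : ℝ) ^ 2)) := by
    rw [← Real.exp_add]
    apply Real.exp_le_exp.mpr
    have : 0 ≤ (s : ℝ) ^ 2 := by positivity
    have h1 := mul_le_mul_of_nonneg_left hE6 this
    have e : (s : ℝ) ^ 2 * s = (s : ℝ) ^ 3 := by ring
    rw [e] at h1
    linarith only [h1]
  have hzy : Real.exp (z * (s : ℝ) ^ 2) ≤ Real.exp (c * (s : ℝ) ^ 2) := by
    apply Real.exp_le_exp.mpr
    exact mul_le_mul_of_nonneg_right hzc.le (by positivity)
  have hp1 : (k : ℝ)⁻¹ ^ s ≤ 1 := pow_le_one₀ (by positivity)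
      (inv_le_one_of_one_le₀ (by linarith))
  have hp0 : 0 < (k : ℝ)⁻¹ ^ s := by positivity
  have hpk : (k : ℝ)⁻¹ ^ s * (k : ℝ) ^ s = 1 := by
    rw [← mul_pow, inv_mul_cancel₀ hk0.ne', one_pow]
  have hdiv : (a : ℝ) / s - 1 ≤ ((a / s : ℕ) : ℝ) := by
    have h1 : a < s * (a / s + 1) := Nat.lt_mul_div_succ a hE7
    have h2 : (a : ℝ) < s * ((a / s : ℕ) + 1) := by exact_mod_cast h1
    have h3 : (a : ℝ) / s < ((a / s : ℕ) : ℝ) + 1 := by
      rw [div_lt_iff₀ hs0]; linarith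
    linarith
  have hdiv2 : ((a / s : ℕ) : ℝ) ≤ a / s := Nat.cast_div_le
  have hnone : (1 - (k : ℝ)⁻¹ ^ s) ^ (a / s) ≤ Real.exp 1 * Real.exp (-((s : ℝ) ^ 3 / 2)) := by
    have h1 : 1 - (k : ℝ)⁻¹ ^ s ≤ Real.exp (-((k : ℝ)⁻¹ ^ s)) := by
      linarith [Real.add_one_le_exp (-((k : ℝ)⁻¹ ^ s))]
    refine (pow_le_pow_left₀ (by linarith) h1 _).trans ?_
    rw [← Real.exp_nat_mul, ← Real.exp_add]
    apply Real.exp_le_exp.mpr
    have h2 : (s : ℝ) ^ 3 / 2 - 1 ≤ ((a / s : ℕ) : ℝ) * (k : ℝ)⁻¹ ^ s := by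
      calc (s : ℝ) ^ 3 / 2 - 1 ≤ ((n : ℝ) / 2 / s - 1) * (k : ℝ)⁻¹ ^ s := by
            have e1 : (n : ℝ) / 2 / s * (k : ℝ)⁻¹ ^ s = (s : ℝ) ^ 3 / 2 := by
              rw [hnR]
              calc _ = (s : ℝ) ^ 4 / 2 / s * ((k : ℝ)⁻¹ ^ s * (k : ℝ) ^ s) := by ring
                _ = _ := by rw [hpk]; field_simp
            rw [sub_mul, e1, one_mul]; linarith
        _ ≤ _ := by
            apply mul_le_mul_of_nonneg_right _ hp0.le
            have : (n : ℝ) / 2 / s ≤ (a : ℝ) / s := by gcongr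
            linarith
    linarith
  have hnone0 : 0 ≤ (1 - (k : ℝ)⁻¹ ^ s) ^ (a / s) := pow_nonneg (by linarith) _
  have hcA : (Real.exp (z * (s : ℝ) ^ 2) * (1 - (k : ℝ)⁻¹ ^ s) ^ (a / s) +
      Real.exp (-((c - z) * (s : ℝ) ^ 2))) * R ≤ 1 / 2 := by
    rw [hcz]
    have h1 : Real.exp (z * (s : ℝ) ^ 2) * (1 - (k : ℝ)⁻¹ ^ s) ^ (a / s) ≤
        Real.exp 1 * Real.exp (-(t * (s : ℝ) ^ 2)) := by
      calc _ ≤ Real.exp (c * (s : ℝ) ^ 2) * (Real.exp 1 * Real.exp (-((s : ℝ) ^ 3 / 2))) :=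
            mul_le_mul hzy hnone hnone0 (Real.exp_pos _).le
        _ = Real.exp 1 * (Real.exp (c * (s : ℝ) ^ 2) * Real.exp (-((s : ℝ) ^ 3 / 2))) := by ring
        _ ≤ _ := mul_le_mul_of_nonneg_left hdecay (Real.exp_pos _).le
    calc _ ≤ (Real.exp 1 * Real.exp (-(t * (s : ℝ) ^ 2)) + Real.exp (-(t * (s : ℝ) ^ 2))) *
          (2 * C * Real.exp (2 * κ * s)) := by
            apply mul_le_mul (by linarith) hR2 (by linarith) (by positivity)
      _ = (Real.exp 1 + 1) * (2 * C) * (Real.exp (2 * κ * s) * Real.exp (-(t * (s : ℝ) ^ 2))) := by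
            ring
      _ ≤ 1 / 2 := hE3
  -- the main inequality
  have hmain := F_main hT1 hT2a hT2b hT2c hC hz hzc hη hθ hQ (lam := lam) (R := R) (D := D)
    (l := 2 * α * (r * m₀) + r * Δ) (K := (s : ℝ) ^ 3) (y := (s : ℝ) ^ 2) (a := a) (b := b)
    (s := s) (s' := r * m₀) (r := r) A hE7 hs' hA hAl hAδ (by positivity) (by positivity) hlam hlamη
    (by linarith) hab hmax hcA
  rw [hcz, hs'R, ← hCη] at hmain
  -- bound the exponents
  have hexp1 : D * r - z * (2 * α * (r * m₀) + r * Δ) + z * α * (2 * (r * m₀)) +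
      lam * (2 * (r * m₀)) ≤ η / 2 * s + B1 := by
    have h1 : D * r - z * (2 * α * (r * m₀) + r * Δ) + z * α * (2 * (r * m₀)) =
        r * (D - z * Δ) := by ring
    rw [h1]
    have hr0 : (0 : ℝ) ≤ r := Nat.cast_nonneg _
    -- r (D - zΔ) ≤ 2 t r Δ ≤ 2 t r D / c
    have h2 : D - z * Δ ≤ 2 * t * Δ := by rw [hz_def]; linarith
    have h3 : Δ ≤ D / c := by rw [le_div_iff₀ hc]; linarith
    have h4 : (r : ℝ) * (D - z * Δ) ≤ 2 * t / c * (D * r) := by
      calc (r : ℝ) * (D - z * Δ) ≤ r * (2 * t * (D / c)) := by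
            apply mul_le_mul_of_nonneg_left _ hr0
            exact h2.trans (mul_le_mul_of_nonneg_left h3 (by linarith))
        _ = 2 * t / c * (D * r) := by ring
    have h5 : 2 * t / c * (D * r) ≤ 2 * t / c * (5 * s * κ + D) :=
      mul_le_mul_of_nonneg_left hDr2 (by positivity)
    have h6 : 2 * t / c * (5 * s * κ) ≤ η / 4 * s := by
      have h7 : t * (40 * κ) ≤ η * c := by
        rwa [le_div_iff₀ (by positivity)] at htκ
      have h8 : 2 * t / c * (5 * s * κ) = (t * (40 * κ)) * (s / (4 * c)) := by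
        field_simp; ring
      rw [h8]
      calc _ ≤ (η * c) * (s / (4 * c)) := mul_le_mul_of_nonneg_right h7 (by positivity)
        _ = _ := by field_simp
    have h9 : 2 * t / c * D ≤ D := by
      have h : 2 * t / c ≤ 1 := by rw [div_le_one hc]; linarith only [htc]
      exact mul_le_of_le_one_left hD.le h
    have h10 : lam * (2 * (r * m₀)) ≤ η / 4 * s + 2 * η * m₀ := by
      have h11 : lam * (40 * m₀ * κ) ≤ η * D := by
        rwa [le_div_iff₀ (by positivity)] at hlam2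
      have h12 : lam * (2 * (r * m₀)) ≤ lam * (2 * ((5 * s * κ / D + 1) * m₀)) := by gcongr
      have h13 : lam * (2 * ((5 * s * κ / D + 1) * m₀)) =
          (lam * (40 * m₀ * κ)) * (s / (4 * D)) + 2 * lam * m₀ := by
        field_simp; ring
      have h14 : (lam * (40 * m₀ * κ)) * (s / (4 * D)) ≤ (η * D) * (s / (4 * D)) :=
        mul_le_mul_of_nonneg_right h11 (by positivity)
      have h15 : (η * D) * (s / (4 * D)) = η / 4 * s := by field_simp
      have h16 : 2 * lam * m₀ ≤ 2 * η * m₀ := by gcongr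
      linarith
    rw [hB1]
    linarith
  have hs'2 : (r : ℝ) * m₀ ≤ B2 * s := by
    rw [hB2]
    have h1 : (r : ℝ) ≤ (5 * κ / D + 1) * s := by
      refine hr2.trans ?_
      have : 5 * s * κ / D = 5 * κ / D * s := by ring
      rw [this, add_mul, one_mul]
      exact add_le_add_right hsR _
    calc (r : ℝ) * m₀ ≤ ((5 * κ / D + 1) * s) * m₀ := by gcongr
      _ = _ := by ring
  have hfront : (k : ℝ)⁻¹ ^ s * ((a / s : ℕ) : ℝ) ≤ 2 * (s : ℝ) ^ 3 := by
    calc (k : ℝ)⁻¹ ^ s * ((a / s : ℕ) : ℝ) ≤ (k : ℝ)⁻¹ ^ s * (2 * n / s) := by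
          apply mul_le_mul_of_nonneg_left _ hp0.le
          exact hdiv2.trans (by gcongr)
      _ = ((k : ℝ)⁻¹ ^ s * (k : ℝ) ^ s) * (2 * (s : ℝ) ^ 4 / s) := by rw [hnR]; ring
      _ = 2 * (s : ℝ) ^ 3 := by rw [hpk]; field_simp
  -- first part
  have hfirst : (s : ℝ) ^ 3 * (r * m₀) * Real.exp (D * r - z * (2 * α * (r * m₀) + r * Δ) +
      z * α * (2 * (r * m₀)) + lam * (2 * (r * m₀))) * Real.exp (-(η * s)) * Cη ≤
      (s : ℝ) ^ 4 * Real.exp (-(η / 2 * s)) * (B2 * Real.exp B1 * Cη) := by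
    have h1 : Real.exp (D * r - z * (2 * α * (r * m₀) + r * Δ) +
      z * α * (2 * (r * m₀)) + lam * (2 * (r * m₀))) * Real.exp (-(η * s)) ≤
      Real.exp B1 * Real.exp (-(η / 2 * s)) := by
      rw [← Real.exp_add, ← Real.exp_add]
      apply Real.exp_le_exp.mpr; linarith
    calc _ = (s : ℝ) ^ 3 * (r * m₀) * (Real.exp (D * r - z * (2 * α * (r * m₀) + r * Δ) +
      z * α * (2 * (r * m₀)) + lam * (2 * (r * m₀))) * Real.exp (-(η * s))) * Cη := by ring
      _ ≤ (s : ℝ) ^ 3 * (B2 * s) * (Real.exp B1 * Real.exp (-(η / 2 * s))) * Cη := by gcongr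
      _ = _ := by ring
  -- second part
  have hsqrt : Real.sqrt (Real.exp (-(D * r))) * (b + 1) ≤ C + 2 := by
    have h1 : Real.sqrt (Real.exp (-(D * r))) = Real.exp (-(D * r) / 2) := by
      rw [← Real.exp_half]
    rw [h1]
    calc _ ≤ Real.exp (-(2 * κ * s)) * ((C + 2) * Real.exp (2 * κ * s)) := by
          apply mul_le_mul _ hb2 (by positivity) (Real.exp_pos _).le
          apply Real.exp_le_exp.mpr
          have h := mul_pos hκ0 hs0
          linarith only [h, hDr1]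
      _ = (C + 2) * (Real.exp (-(2 * κ * s)) * Real.exp (2 * κ * s)) := by ring
      _ = C + 2 := by rw [← Real.exp_add]; simp
  have hτ : Real.exp (z * (s : ℝ) ^ 2) * ((2 : ℝ) ^ (-((s : ℝ) ^ 3)) *
            Real.exp (2 * Real.sqrt (Real.exp (-(D * r))) * (b + 1))) +
          Real.exp (-(t * (s : ℝ) ^ 2)) ≤
      (Real.exp (2 * (C + 2)) + 1) * Real.exp (-(t * (s : ℝ) ^ 2)) := by
    have h1 : (2 : ℝ) ^ (-((s : ℝ) ^ 3)) ≤ Real.exp (-((s : ℝ) ^ 3 / 2)) := by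
      rw [Real.rpow_def_of_pos (by norm_num)]
      apply Real.exp_le_exp.mpr
      have h2 : (1 : ℝ) / 2 ≤ Real.log 2 := by linarith [Real.log_two_gt_d9]
      have h3 : (0 : ℝ) ≤ (s : ℝ) ^ 3 := by positivity
      have h4 := mul_le_mul_of_nonneg_right h2 h3
      linarith only [h4]
    have h2 : Real.exp (2 * Real.sqrt (Real.exp (-(D * r))) * (b + 1)) ≤
        Real.exp (2 * (C + 2)) := by
      apply Real.exp_le_exp.mpr
      rw [mul_assoc]
      exact mul_le_mul_of_nonneg_left hsqrt (by norm_num)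
    calc _ ≤ Real.exp (c * (s : ℝ) ^ 2) * (Real.exp (-((s : ℝ) ^ 3 / 2)) *
          Real.exp (2 * (C + 2))) + Real.exp (-(t * (s : ℝ) ^ 2)) := by
            apply add_le_add_left
            apply mul_le_mul hzy _ (by positivity) (Real.exp_pos _).le
            exact mul_le_mul h1 h2 (Real.exp_pos _).le (Real.exp_pos _).le
      _ = (Real.exp (c * (s : ℝ) ^ 2) * Real.exp (-((s : ℝ) ^ 3 / 2))) * Real.exp (2 * (C + 2)) +
          Real.exp (-(t * (s : ℝ) ^ 2)) := by ring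
      _ ≤ Real.exp (-(t * (s : ℝ) ^ 2)) * Real.exp (2 * (C + 2)) +
          Real.exp (-(t * (s : ℝ) ^ 2)) := by
            apply add_le_add_left
            exact mul_le_mul_of_nonneg_right hdecay (Real.exp_pos _).le
      _ = _ := by ring
  have hs3 : (s : ℝ) ^ 3 ≤ Real.exp (3 * s) := by
    have h1 : (s : ℝ) ≤ Real.exp s := by linarith [Real.add_one_le_exp (s : ℝ)]
    calc (s : ℝ) ^ 3 ≤ Real.exp s ^ 3 := by gcongr
      _ = _ := by rw [← Real.exp_nat_mul]; norm_num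
  have hsecond : Real.exp (D * r) * (b + 1) *
          (Real.exp (z * (s : ℝ) ^ 2) * ((2 : ℝ) ^ (-((s : ℝ) ^ 3)) *
            Real.exp (2 * Real.sqrt (Real.exp (-(D * r))) * (b + 1))) +
          Real.exp (-(t * (s : ℝ) ^ 2))) * R * (Real.exp (z * s) * (b + 1)) ≤
      Real.exp D * (C + 2) ^ 2 * (2 * C) * (Real.exp (2 * (C + 2)) + 1) *
        (Real.exp ((11 * κ + c) * s) * Real.exp (-(t * (s : ℝ) ^ 2))) := by
    have h1 : Real.exp (D * r) ≤ Real.exp D * Real.exp (5 * κ * s) := by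
      rw [← Real.exp_add]; apply Real.exp_le_exp.mpr; linarith
    have h2 : Real.exp (z * s) ≤ Real.exp (c * s) :=
      Real.exp_le_exp.mpr (mul_le_mul_of_nonneg_right hzc.le hs0.le)
    have e1 : Real.exp ((11 * κ + c) * s) = Real.exp (5 * κ * s) * Real.exp (2 * κ * s) *
        Real.exp (2 * κ * s) * Real.exp (c * s) * Real.exp (2 * κ * s) := by
      rw [← Real.exp_add, ← Real.exp_add, ← Real.exp_add, ← Real.exp_add]; congr 1; ring
    calc _ ≤ (Real.exp D * Real.exp (5 * κ * s)) * ((C + 2) * Real.exp (2 * κ * s)) *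
          ((Real.exp (2 * (C + 2)) + 1) * Real.exp (-(t * (s : ℝ) ^ 2))) *
          (2 * C * Real.exp (2 * κ * s)) * (Real.exp (c * s) *
            ((C + 2) * Real.exp (2 * κ * s))) := by
          have hb0 : (0 : ℝ) ≤ (b : ℝ) + 1 := by positivity
          have hR0 : 0 ≤ R := by linarith
          gcongr
      _ = _ := by rw [e1]; ring
  -- conclusion
  set F1 := (s : ℝ) ^ 3 * (r * m₀) * Real.exp (D * r - z * (2 * α * (r * m₀) + r * Δ) +
      z * α * (2 * (r * m₀)) + lam * (2 * (r * m₀))) * Real.exp (-(η * s)) * Cη with hF1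
  set F2 := Real.exp (D * r) * (b + 1) *
          (Real.exp (z * (s : ℝ) ^ 2) * ((2 : ℝ) ^ (-((s : ℝ) ^ 3)) *
            Real.exp (2 * Real.sqrt (Real.exp (-(D * r))) * (b + 1))) +
          Real.exp (-(t * (s : ℝ) ^ 2))) * R * (Real.exp (z * s) * (b + 1)) with hF2
  have hF10 : 0 ≤ F1 := by rw [hF1]; positivity
  have hF20 : 0 ≤ F2 := by
    rw [hF2]
    have hR0 : 0 ≤ R := by linarith
    positivity
  have hfin : 1 / 2 ≤ 2 * (s : ℝ) ^ 3 * (8 / 3 * (F1 + F2)) :=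
    hmain.trans (mul_le_mul_of_nonneg_right hfront (by positivity))
  have hG1 : 2 * (s : ℝ) ^ 3 * (8 / 3 * F1) ≤ 1 / 8 := by
    calc _ ≤ 2 * (s : ℝ) ^ 3 * (8 / 3 * ((s : ℝ) ^ 4 * Real.exp (-(η / 2 * s)) *
          (B2 * Real.exp B1 * Cη))) := by gcongr
      _ = 16 / 3 * (B2 * Real.exp B1 * Cη) * ((s : ℝ) ^ 7 * Real.exp (-(η / 2 * s))) := by ring
      _ ≤ 1 / 8 := hE4
  have hG2 : 2 * (s : ℝ) ^ 3 * (8 / 3 * F2) ≤ 1 / 8 := by
    calc _ ≤ 2 * Real.exp (3 * s) * (8 / 3 * (Real.exp D * (C + 2) ^ 2 * (2 * C) *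
          (Real.exp (2 * (C + 2)) + 1) *
        (Real.exp ((11 * κ + c) * s) * Real.exp (-(t * (s : ℝ) ^ 2))))) := by gcongr
      _ = 16 / 3 * (Real.exp D * (C + 2) ^ 2 * (2 * C) * (Real.exp (2 * (C + 2)) + 1)) *
          (Real.exp ((11 * κ + c + 3) * s) * Real.exp (-(t * (s : ℝ) ^ 2))) := by
          have : Real.exp ((11 * κ + c + 3) * s) = Real.exp (3 * s) * Real.exp ((11 * κ + c) * s) := by
            rw [← Real.exp_add]; congr 1; ring
          rw [this]; ring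
      _ ≤ 1 / 8 := hE5
  linarith [mul_add (2 * (s : ℝ) ^ 3 * (8 / 3)) F1 F2]

end Pool.Agent.LCSE
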