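import Pool.Agent.Work.MP_bec1e1_E_helper47.Interface

set_option autoImplicit false
set_option maxHeartbeats 400000

open Filter Topology
open scoped BigOperators

namespace Pool.Agent.LCSE

lemma geom_exp_le {η : ℝ} (hη : 0 < η) (N : ℕ) :
    ∑ h ∈ Finset.range N, Real.exp (-(η * h)) ≤ 1 / (1 - Real.exp (-η)) := by
  have h1 : Real.exp (-η) < 1 := by
    rw [Real.exp_lt_one_iff]; linarith
  have h0 : 0 < Real.exp (-η) := Real.exp_pos _
  have h2 : ∀ h : ℕ, Real.exp (-(η * h)) = Real.exp (-η) ^ h := by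
    intro h; rw [← Real.exp_nat_mul]; congr 1; ring
  simp only [h2]
  rw [one_div]
  have := Summable.sum_le_tsum (Finset.range N) (fun i _ => by positivity)
    (summable_geometric_of_lt_one h0.le h1)
  rwa [tsum_geometric_of_lt_one h0.le h1] at this

/-- near ties between the two pieces, all inserted -/
lemma F_inner (hT1 : Stmt_T1) {k : ℕ} {α c z : ℝ} (hC : Crit k α c) (hz : 0 < z) (hzc : z < c)
    {lam R D l K y : ℝ} {a b s s' r : ℕ} (A : List (Fin k) → List (Fin k) → Prop)
    (hs' : 1 ≤ s') (hA : ∀ u v, A u v → A v u)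
    (hAl : ∀ u v, u.length = s' → v.length = s' → A u v → l ≤ (L u v : ℝ))
    (hAδ : open Classical in Ex k s' (fun u => Ex k s' (fun v => if A u v then 1 else 0)) =
      Real.exp (-(D * r)))
    (hK : 0 < K) (hy : 0 ≤ y) (hlam : 0 < lam) (_hR1 : 0 ≤ R)
    (hR : Real.exp (z * α * (a + b)) ≤ R * Z k z a b)
    (hMX : ∀ a' b' : ℕ, Z k z a' b' ≤ Z k z a b *
        Real.exp (z * α * ((a' : ℝ) + b' - a - b) + lam * (|(a' : ℝ) - a| + |(b' : ℝ) - b|)))
    (i h : ℕ) (hi : (i + 1) * s ≤ a) (hh : h ≤ b) :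
    ∑ g ∈ Finset.range (b - h + 1), Z k z (i * s) g * Z k z (a - (i + 1) * s) (b - h - g) ≤
      Z k z a b * (8 / 3 * (K * s' * Real.exp (D * r - z * l + z * α * (2 * s') + lam * (2 * s')) *
          Real.exp (-((z * α - lam) * s)) * Real.exp (-((z * α - lam) * h)) +
        Real.exp (D * r) * (b + 1) *
          (Real.exp (z * y) * ((2 : ℝ) ^ (-K) *
            Real.exp (2 * Real.sqrt (Real.exp (-(D * r))) * (b + 1))) +
          Real.exp (-((c - z) * y))) * R)) := by
  have hk : 0 < k := by have := hC.hk; omega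
  have hα := hC.hα0
  have hsa : s ≤ a := le_trans (Nat.le_mul_of_pos_left s (Nat.succ_pos i)) hi
  have his : i * s ≤ a - s := by
    have : i * s + s ≤ a := by rw [← Nat.succ_mul]; exact hi
    omega
  have e1 : a - s - i * s = a - (i + 1) * s := by
    have : (i + 1) * s = i * s + s := by ring
    omega
  have key := hT1 k α c z hC hz hzc s' A l (Real.exp (-(D * r))) hs' hA hAl (Real.exp_pos _) hAδ
    (a - s) (b - h) (i * s) K y his hK hy
  rw [e1] at key
  set S := ∑ g ∈ Finset.range (b - h + 1), Z k z (i * s) g * Z k z (a - (i + 1) * s) (b - h - g)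
    with hS
  have hZpos := Z_pos hk z a b
  -- the first term
  have hmx := hMX (a - s + s') (b - h + s')
  have c1 : (((a - s + s' : ℕ)) : ℝ) = a - s + s' := by push_cast [Nat.cast_sub hsa]; ring
  have c2 : (((b - h + s' : ℕ)) : ℝ) = b - h + s' := by push_cast [Nat.cast_sub hh]; ring
  rw [c1, c2] at hmx
  have hmx2 : Z k z (a - s + s') (b - h + s') ≤ Z k z a b *
      Real.exp (z * α * (2 * s' - s - h) + lam * (2 * s' + s + h)) := by
    refine hmx.trans (mul_le_mul_of_nonneg_left (Real.exp_le_exp.mpr ?_) hZpos.le)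
    have a1 : |(a : ℝ) - s + s' - a| ≤ s' + s := by
      rw [abs_le]; constructor <;>
        linarith [Nat.cast_nonneg (α := ℝ) s, Nat.cast_nonneg (α := ℝ) s']
    have a2 : |(b : ℝ) - h + s' - b| ≤ s' + h := by
      rw [abs_le]; constructor <;>
        linarith [Nat.cast_nonneg (α := ℝ) h, Nat.cast_nonneg (α := ℝ) s']
    have a3 := mul_le_mul_of_nonneg_left (add_le_add a1 a2) hlam.le
    have a4 : z * α * ((a : ℝ) - s + s' + (b - h + s') - a - b) = z * α * (2 * s' - s - h) := by
      ring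
    rw [a4]
    nlinarith
  -- the second term
  have hexp : Real.exp (z * α * (((a - s : ℕ) : ℝ) + ((b - h : ℕ) : ℝ))) ≤ R * Z k z a b := by
    refine le_trans (Real.exp_le_exp.mpr ?_) hR
    apply mul_le_mul_of_nonneg_left _ (by positivity)
    have : ((a - s : ℕ) : ℝ) ≤ a := by exact_mod_cast Nat.sub_le a s
    have : ((b - h : ℕ) : ℝ) ≤ b := by exact_mod_cast Nat.sub_le b h
    linarith
  have hbh : (((b - h : ℕ) : ℝ)) + 1 ≤ b + 1 := by
    have : ((b - h : ℕ) : ℝ) ≤ b := by exact_mod_cast Nat.sub_le b h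
    linarith
  set τ := Real.exp (z * y) * ((2 : ℝ) ^ (-K) *
            Real.exp (2 * Real.sqrt (Real.exp (-(D * r))) * (b + 1))) +
          Real.exp (-((c - z) * y)) with hτ
  have hτ0 : 0 ≤ τ := by positivity
  have hτ1 : Real.exp (z * y) * ((2 : ℝ) ^ (-K) *
            Real.exp (2 * Real.sqrt (Real.exp (-(D * r))) * (((b - h : ℕ) : ℝ) + 1))) +
          Real.exp (-((c - z) * y)) ≤ τ := by
    rw [hτ]
    gcongr
  have h2 : Real.exp (z * l) * (((b - h : ℕ) : ℝ) + 1) *
        (Real.exp (z * y) * ((2 : ℝ) ^ (-K) *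
            Real.exp (2 * Real.sqrt (Real.exp (-(D * r))) * (((b - h : ℕ) : ℝ) + 1))) +
          Real.exp (-((c - z) * y))) * Real.exp (z * α * (((a - s : ℕ) : ℝ) + ((b - h : ℕ) : ℝ)))
      ≤ Real.exp (z * l) * (b + 1) * τ * (R * Z k z a b) := by
    gcongr
  have h1 : K * s' * Z k z (a - s + s') (b - h + s') ≤ K * s' * (Z k z a b *
      Real.exp (z * α * (2 * s' - s - h) + lam * (2 * s' + s + h))) := by
    gcongr
  have h3 : 3 / 8 * Real.exp (-(D * r)) * Real.exp (z * l) * S ≤
      K * s' * (Z k z a b * Real.exp (z * α * (2 * s' - s - h) + lam * (2 * s' + s + h))) +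
      Real.exp (z * l) * (b + 1) * τ * (R * Z k z a b) := key.trans (add_le_add h1 h2)
  -- divide
  have h4 : S = 8 / 3 * (Real.exp (D * r) * Real.exp (-(z * l))) *
      (3 / 8 * Real.exp (-(D * r)) * Real.exp (z * l) * S) := by
    have e2 : Real.exp (D * r) * Real.exp (-(D * r)) = 1 := by
      rw [← Real.exp_add]; simp
    have e3 : Real.exp (-(z * l)) * Real.exp (z * l) = 1 := by
      rw [← Real.exp_add]; simp
    calc S = 1 * 1 * S := by ring
      _ = (Real.exp (D * r) * Real.exp (-(D * r))) * (Real.exp (-(z * l)) * Real.exp (z * l)) * S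
          := by rw [e2, e3]
      _ = _ := by ring
  rw [h4]
  have h5 : 0 ≤ 8 / 3 * (Real.exp (D * r) * Real.exp (-(z * l))) := by positivity
  refine (mul_le_mul_of_nonneg_left h3 h5).trans (le_of_eq ?_)
  have e4 : Real.exp (D * r) * Real.exp (-(z * l)) *
      Real.exp (z * α * (2 * s' - s - h) + lam * (2 * s' + s + h)) =
      Real.exp (D * r - z * l + z * α * (2 * s') + lam * (2 * s')) *
          Real.exp (-((z * α - lam) * s)) * Real.exp (-((z * α - lam) * h)) := by
    rw [← Real.exp_add, ← Real.exp_add, ← Real.exp_add, ← Real.exp_add]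
    congr 1; ring
  have e3 : Real.exp (-(z * l)) * Real.exp (z * l) = 1 := by
    rw [← Real.exp_add]; simp
  calc _ = 8 / 3 * (K * s' * (Real.exp (D * r) * Real.exp (-(z * l)) *
      Real.exp (z * α * (2 * s' - s - h) + lam * (2 * s' + s + h))) * Z k z a b) +
      8 / 3 * (Real.exp (D * r) * (Real.exp (-(z * l)) * Real.exp (z * l)) * (b + 1) * τ *
        (R * Z k z a b)) := by ring
    _ = _ := by rw [e4, e3]; ring

end Pool.Agent.LCSE
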