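import Pool.Agent.Work.MP_bec1e1_E_helper47.FINA

set_option autoImplicit false
set_option maxHeartbeats 400000

open Filter Topology
open scoped BigOperators

namespace Pool.Agent.LCSE

/-- one window -/
lemma F_T (hT1 : Stmt_T1) (hT2b : Stmt_T2b) (hT2c : Stmt_T2c)
    {k : ℕ} {α c z η : ℝ} (hC : Crit k α c) (hz : 0 < z) (hzc : z < c)
    (hη : 0 < η) (hθ : 2 * η ≤ z * α)
    (hQ : 1 + (Real.exp (z * (1 - α) + 2 * η) - 1) / k ≤ Real.exp (z * α - 3 * η))
    {lam R D l K y : ℝ} {a b s s' r : ℕ} (A : List (Fin k) → List (Fin k) → Prop)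
    (hs' : 1 ≤ s') (hA : ∀ u v, A u v → A v u)
    (hAl : ∀ u v, u.length = s' → v.length = s' → A u v → l ≤ (L u v : ℝ))
    (hAδ : open Classical in Ex k s' (fun u => Ex k s' (fun v => if A u v then 1 else 0)) =
      Real.exp (-(D * r)))
    (hK : 0 < K) (hy : 0 ≤ y) (hlam : 0 < lam) (hlamη : lam ≤ η) (hR1 : 0 ≤ R)
    (hR : Real.exp (z * α * (a + b)) ≤ R * Z k z a b)
    (hMX : ∀ a' b' : ℕ, Z k z a' b' ≤ Z k z a b *
        Real.exp (z * α * ((a' : ℝ) + b' - a - b) + lam * (|(a' : ℝ) - a| + |(b' : ℝ) - b|)))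
    (i : ℕ) (hi : (i + 1) * s ≤ a) (o : Fin k) :
    Ex k (i * s) (fun x₁ => Ex k (a - (i + 1) * s) (fun x₂ => Ex k b (fun v =>
          Real.exp (z * (L (x₁ ++ List.replicate s o ++ x₂) v : ℝ))))) ≤
      Z k z a b * (8 / 3 * (K * s' * Real.exp (D * r - z * l + z * α * (2 * s') + lam * (2 * s')) *
          Real.exp (-(η * s)) * (1 / (1 - Real.exp (-(2 * η)))) +
        Real.exp (D * r) * (b + 1) *
          (Real.exp (z * y) * ((2 : ℝ) ^ (-K) *
            Real.exp (2 * Real.sqrt (Real.exp (-(D * r))) * (b + 1))) +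
          Real.exp (-((c - z) * y))) * R * (Real.exp (z * s) * (b + 1)))) := by
  have hk : 0 < k := by have := hC.hk; omega
  have hα := hC.hα0
  have hα1 := hC.hα1
  refine (hT2b k z (i * s) (a - (i + 1) * s) b (List.replicate s o) hk hz.le).trans ?_
  set W : ℕ → ℝ := fun h => Ex k h (fun v => Real.exp (z * (L (List.replicate s o) v : ℝ))) with hW
  have hZpos := Z_pos hk z a b
  set E1 := Real.exp (D * r - z * l + z * α * (2 * s') + lam * (2 * s')) with hE1
  set τ := Real.exp (z * y) * ((2 : ℝ) ^ (-K) *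
            Real.exp (2 * Real.sqrt (Real.exp (-(D * r))) * (b + 1))) +
          Real.exp (-((c - z) * y)) with hτ
  have hτ0 : 0 ≤ τ := by positivity
  have hW0 : ∀ h, 0 ≤ W h := fun h => Ex_nonneg fun _ _ => (Real.exp_pos _).le
  -- the two bounds of W
  have hθ0 : 0 ≤ z * (1 - α) + 2 * η := by nlinarith
  have hθ1 : z * (1 - α) + 2 * η ≤ z := by nlinarith
  have hW1 : ∀ h : ℕ, W h ≤ Real.exp ((z * α - 2 * η) * s) * Real.exp ((z * α - 3 * η) * h) := by
    intro h
    refine (hT2c k z (z * (1 - α) + 2 * η) s h o hθ0 hθ1).trans ?_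
    have e1 : z - (z * (1 - α) + 2 * η) = z * α - 2 * η := by ring
    rw [e1]
    apply mul_le_mul_of_nonneg_left _ (Real.exp_pos _).le
    have e2 : Real.exp ((z * α - 3 * η) * h) = Real.exp (z * α - 3 * η) ^ h := by
      rw [← Real.exp_nat_mul]; congr 1; ring
    rw [e2]
    apply pow_le_pow_left₀ _ hQ
    have : 1 ≤ Real.exp (z * (1 - α) + 2 * η) := Real.one_le_exp hθ0
    have h3 : 0 ≤ (Real.exp (z * (1 - α) + 2 * η) - 1) / k := by
      apply div_nonneg _ (Nat.cast_nonneg _); linarith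
    linarith
  have hW2 : ∀ h : ℕ, W h ≤ Real.exp (z * s) := by
    intro h
    have := hT2c k z 0 s h o le_rfl hz.le
    simpa using this
  -- sum
  have step : ∀ h ∈ Finset.range (b + 1), W h *
        ∑ g ∈ Finset.range (b - h + 1), Z k z (i * s) g * Z k z (a - (i + 1) * s) (b - h - g) ≤
      Z k z a b * (8 / 3 * (K * s' * E1 * Real.exp (-(η * s)) * Real.exp (-(2 * η * h)) +
        Real.exp (D * r) * (b + 1) * τ * R * Real.exp (z * s))) := by
    intro h hh
    have hh' : h ≤ b := Nat.lt_succ_iff.mp (Finset.mem_range.mp hh)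
    have h1 := F_inner hT1 hC hz hzc A hs' hA hAl hAδ hK hy hlam hR1 hR hMX i h hi hh'
    rw [← hE1, ← hτ] at h1
    refine (mul_le_mul_of_nonneg_left h1 (hW0 h)).trans ?_
    have e1 : W h * (Z k z a b * (8 / 3 * (K * s' * E1 *
          Real.exp (-((z * α - lam) * s)) * Real.exp (-((z * α - lam) * h)) +
        Real.exp (D * r) * (b + 1) * τ * R))) = Z k z a b * (8 / 3 * (K * s' * E1 *
          (W h * (Real.exp (-((z * α - lam) * s)) * Real.exp (-((z * α - lam) * h)))) +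
        Real.exp (D * r) * (b + 1) * τ * R * W h)) := by ring
    rw [e1]
    have h2 : W h * (Real.exp (-((z * α - lam) * s)) * Real.exp (-((z * α - lam) * h))) ≤
        Real.exp (-(η * s)) * Real.exp (-(2 * η * h)) := by
      refine (mul_le_mul_of_nonneg_right (hW1 h) (by positivity)).trans ?_
      rw [← Real.exp_add, ← Real.exp_add, ← Real.exp_add, ← Real.exp_add]
      apply Real.exp_le_exp.mpr
      have hs0 : (0 : ℝ) ≤ s := Nat.cast_nonneg _
      have hh0 : (0 : ℝ) ≤ h := Nat.cast_nonneg _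
      nlinarith [mul_nonneg hs0 (sub_nonneg.mpr hlamη), mul_nonneg hh0 (sub_nonneg.mpr hlamη)]
    have h3 := hW2 h
    have h4 : K * s' * E1 * (W h * (Real.exp (-((z * α - lam) * s)) *
        Real.exp (-((z * α - lam) * h)))) ≤
        K * s' * E1 * (Real.exp (-(η * s)) * Real.exp (-(2 * η * h))) := by
      apply mul_le_mul_of_nonneg_left h2; positivity
    have h5 : Real.exp (D * r) * (b + 1) * τ * R * W h ≤
        Real.exp (D * r) * (b + 1) * τ * R * Real.exp (z * s) := by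
      apply mul_le_mul_of_nonneg_left h3; positivity
    apply mul_le_mul_of_nonneg_left _ hZpos.le
    apply mul_le_mul_of_nonneg_left _ (by norm_num)
    calc _ ≤ K * s' * E1 * (Real.exp (-(η * s)) * Real.exp (-(2 * η * h))) +
        Real.exp (D * r) * (b + 1) * τ * R * Real.exp (z * s) := add_le_add h4 h5
      _ = _ := by ring
  refine (Finset.sum_le_sum step).trans ?_
  rw [← Finset.mul_sum, ← Finset.mul_sum, Finset.sum_add_distrib, ← Finset.mul_sum,
    Finset.sum_const, Finset.card_range, nsmul_eq_mul]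
  apply mul_le_mul_of_nonneg_left _ hZpos.le
  apply mul_le_mul_of_nonneg_left _ (by norm_num)
  have hg := geom_exp_le (η := 2 * η) (by linarith) (b + 1)
  apply add_le_add
  · apply mul_le_mul_of_nonneg_left hg; positivity
  · apply le_of_eq; push_cast; ring

/-- the deterministic inequality -/
lemma F_main (hT1 : Stmt_T1) (hT2a : Stmt_T2a) (hT2b : Stmt_T2b) (hT2c : Stmt_T2c)
    {k : ℕ} {α c z η : ℝ} (hC : Crit k α c) (hz : 0 < z) (hzc : z < c)
    (hη : 0 < η) (hθ : 2 * η ≤ z * α)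
    (hQ : 1 + (Real.exp (z * (1 - α) + 2 * η) - 1) / k ≤ Real.exp (z * α - 3 * η))
    {lam R D l K y : ℝ} {a b s s' r : ℕ} (A : List (Fin k) → List (Fin k) → Prop)
    (hs : 1 ≤ s) (hs' : 1 ≤ s') (hA : ∀ u v, A u v → A v u)
    (hAl : ∀ u v, u.length = s' → v.length = s' → A u v → l ≤ (L u v : ℝ))
    (hAδ : open Classical in Ex k s' (fun u => Ex k s' (fun v => if A u v then 1 else 0)) =
      Real.exp (-(D * r)))
    (hK : 0 < K) (hy : 0 ≤ y) (hlam : 0 < lam) (hlamη : lam ≤ η) (hR1 : 0 ≤ R)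
    (hR : Real.exp (z * α * (a + b)) ≤ R * Z k z a b)
    (hMX : ∀ a' b' : ℕ, Z k z a' b' ≤ Z k z a b *
        Real.exp (z * α * ((a' : ℝ) + b' - a - b) + lam * (|(a' : ℝ) - a| + |(b' : ℝ) - b|)))
    (hcA : (Real.exp (z * y) * (1 - (k : ℝ)⁻¹ ^ s) ^ (a / s) + Real.exp (-((c - z) * y))) * R
      ≤ 1 / 2) :
    1 / 2 ≤ (k : ℝ)⁻¹ ^ s * (a / s : ℕ) *
      (8 / 3 * (K * s' * Real.exp (D * r - z * l + z * α * (2 * s') + lam * (2 * s')) *
          Real.exp (-(η * s)) * (1 / (1 - Real.exp (-(2 * η)))) +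
        Real.exp (D * r) * (b + 1) *
          (Real.exp (z * y) * ((2 : ℝ) ^ (-K) *
            Real.exp (2 * Real.sqrt (Real.exp (-(D * r))) * (b + 1))) +
          Real.exp (-((c - z) * y))) * R * (Real.exp (z * s) * (b + 1)))) := by
  have hk : 0 < k := by have := hC.hk; omega
  have hZpos := Z_pos hk z a b
  set n := a / s with hn
  have hns : n * s ≤ a := Nat.div_mul_le_self a s
  let o : Fin k := ⟨0, hk⟩
  have h1 := hT2a k α c z hC hz hzc s n a b (List.replicate s o) y (List.length_replicate) hs hns hy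
  set X := (8 / 3 * (K * s' * Real.exp (D * r - z * l + z * α * (2 * s') + lam * (2 * s')) *
          Real.exp (-(η * s)) * (1 / (1 - Real.exp (-(2 * η)))) +
        Real.exp (D * r) * (b + 1) *
          (Real.exp (z * y) * ((2 : ℝ) ^ (-K) *
            Real.exp (2 * Real.sqrt (Real.exp (-(D * r))) * (b + 1))) +
          Real.exp (-((c - z) * y))) * R * (Real.exp (z * s) * (b + 1)))) with hX
  have h2 : ∑ i ∈ Finset.range n,
        Ex k (i * s) (fun x₁ => Ex k (a - (i + 1) * s) (fun x₂ => Ex k b (fun v =>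
          Real.exp (z * (L (x₁ ++ List.replicate s o ++ x₂) v : ℝ))))) ≤
      ∑ _i ∈ Finset.range n, Z k z a b * X := by
    refine Finset.sum_le_sum fun i hi => ?_
    have hi' : i + 1 ≤ n := Finset.mem_range.mp hi
    exact F_T hT1 hT2b hT2c hC hz hzc hη hθ hQ A hs' hA hAl hAδ hK hy hlam hlamη hR1 hR hMX i
      ((Nat.mul_le_mul_right s hi').trans hns) o
  rw [Finset.sum_const, Finset.card_range, nsmul_eq_mul] at h2
  have hp0 : 0 ≤ (k : ℝ)⁻¹ ^ s := by positivity
  have hB : 0 ≤ (Real.exp (z * y) * (1 - (k : ℝ)⁻¹ ^ s) ^ n + Real.exp (-((c - z) * y))) := by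
    have : (k : ℝ)⁻¹ ^ s ≤ 1 := pow_le_one₀ (by positivity)
      (inv_le_one_of_one_le₀ (by exact_mod_cast hk))
    have : 0 ≤ (1 - (k : ℝ)⁻¹ ^ s) ^ n := pow_nonneg (by linarith) _
    positivity
  have h3 : (Real.exp (z * y) * (1 - (k : ℝ)⁻¹ ^ s) ^ n + Real.exp (-((c - z) * y))) *
        Real.exp (z * α * (a + b)) ≤ 1 / 2 * Z k z a b := by
    calc _ ≤ (Real.exp (z * y) * (1 - (k : ℝ)⁻¹ ^ s) ^ n + Real.exp (-((c - z) * y))) *
        (R * Z k z a b) := mul_le_mul_of_nonneg_left hR hB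
      _ = ((Real.exp (z * y) * (1 - (k : ℝ)⁻¹ ^ s) ^ n + Real.exp (-((c - z) * y))) * R) *
        Z k z a b := by ring
      _ ≤ _ := mul_le_mul_of_nonneg_right hcA hZpos.le
  have h4 : Z k z a b ≤ (k : ℝ)⁻¹ ^ s * (n * (Z k z a b * X)) + 1 / 2 * Z k z a b :=
    h1.trans (add_le_add (mul_le_mul_of_nonneg_left h2 hp0) h3)
  have h5 : Z k z a b * (1 / 2) ≤ Z k z a b * ((k : ℝ)⁻¹ ^ s * n * X) := by nlinarith
  exact le_of_mul_le_mul_left h5 hZpos

end Pool.Agent.LCSE
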