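import Pool.Agent.Work.MP_bec1e1_E_helper47.Interface

set_option autoImplicit false
set_option maxHeartbeats 400000

open Filter Topology
open scoped BigOperators

namespace Pool.Agent.LCSE

theorem stmt_HZ : Stmt_HZ := by
  intro k α c z hC hz hzc a b
  have hk : 0 < k := by have := hC.hk; omega
  have hc := hC.hc
  set t := z / c with ht
  have ht0 : 0 ≤ t := by positivity
  have ht1 : t ≤ 1 := by rw [ht, div_le_one hc]; exact hzc
  have hcz : t * c = z := by rw [ht]; field_simp
  set m : ℝ := α * (a + b) with hm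
  have hpt : ∀ x : ℝ, Real.exp (z * x) ≤
      Real.exp (z * m) * (t * (Real.exp (-(c * m)) * Real.exp (c * x)) + (1 - t)) := by
    intro x
    have h1 := convexOn_exp.2 (Set.mem_univ (c * (x - m))) (Set.mem_univ (0 : ℝ)) ht0
      (sub_nonneg.mpr ht1) (by ring)
    simp only [smul_eq_mul, mul_zero, add_zero, Real.exp_zero, mul_one] at h1
    have e1 : Real.exp (z * x) = Real.exp (z * m) * Real.exp (t * (c * (x - m))) := by
      rw [← Real.exp_add]; congr 1; rw [← hcz]; ring
    have e2 : Real.exp (c * (x - m)) = Real.exp (-(c * m)) * Real.exp (c * x) := by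
      rw [← Real.exp_add]; congr 1; ring
    rw [e1, ← e2]
    exact mul_le_mul_of_nonneg_left h1 (Real.exp_pos _).le
  have h2 : Z k z a b ≤ Real.exp (z * m) * (t * (Real.exp (-(c * m)) * Z k c a b) + (1 - t)) := by
    unfold Z
    calc _ ≤ Ex k a (fun x => Ex k b (fun y => Real.exp (z * m) *
          (t * (Real.exp (-(c * m)) * Real.exp (c * (L x y : ℝ))) + (1 - t)))) :=
          Ex_mono fun x _ => Ex_mono fun y _ => hpt _
      _ = _ := by
          simp only [Ex_const_mul, Ex_add, Ex_const hk]
  have h3 : Real.exp (-(c * m)) * Z k c a b ≤ 1 := by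
    have := hC.hH a b
    calc _ ≤ Real.exp (-(c * m)) * Real.exp (c * α * (a + b)) :=
          mul_le_mul_of_nonneg_left this (Real.exp_pos _).le
      _ = 1 := by rw [← Real.exp_add, hm]; ring_nf; exact Real.exp_zero
  calc Z k z a b ≤ _ := h2
    _ ≤ Real.exp (z * m) * (t * 1 + (1 - t)) := by
        apply mul_le_mul_of_nonneg_left _ (Real.exp_pos _).le
        have := mul_le_mul_of_nonneg_left h3 ht0
        linarith
    _ = Real.exp (z * α * (a + b)) := by rw [hm]; ring_nf

end Pool.Agent.LCSE
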