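import Pool.Agent.Work.MP_bec1e1_E_helper47.Base

/-!
# Theorem (E), MP_bec1e1_pr (note 964 of helper28, streamlined): one `Prop` per block

`α = γ/2`. Write `u(a,b) = log Z(a,b) - z α (a+b) ≤ 0`. See `PROOF.md` in this folder.
-/

set_option autoImplicit false
set_option maxHeartbeats 400000

open Filter Topology
open scoped BigOperators

namespace Pool.Agent.LCSE

/-- `c` is the critical parameter: `Z c a b ≤ exp (c α (a+b))` for all `a b`, and for every `z > c`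
the exponential rate on the diagonal is larger than `2 α z = γ z`. -/
structure Crit (k : ℕ) (α c : ℝ) : Prop where
  hk : 2 ≤ k
  hα0 : 0 < α
  hα1 : α < 1 / 2
  hc : 0 < c
  hH : ∀ a b : ℕ, Z k c a b ≤ Real.exp (c * α * (a + b))
  hlim : Tendsto (fun n : ℕ => EL k n / n) atTop (𝓝 (2 * α))
  hsup : ∀ z : ℝ, c < z → ∃ n : ℕ, Real.exp (z * (2 * α) * n) < Z k z n n

/-- the main theorem in the exponential form -/
def Stmt_E : Prop :=
  ∀ k : ℕ, 2 ≤ k → ∀ γ : ℝ, Tendsto (fun n : ℕ => EL k n / n) atTop (𝓝 γ) →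
    ∀ z : ℝ, 0 < z → ∃ n : ℕ, Real.exp (z * γ * n) < Z k z n n

/-- **GAM**: the limit exists, is the supremum, and lies strictly between 0 and 1.
Superadditivity: Fekete (`Subadditive.tendsto_lim`). `γ > 0`: `EL k 1 = 1/k`. `γ < 1`:
`Z z a b ≤ 5^(a+b)` for `exp z = 15 k` by induction (`L_cons_cons_le`), then Jensen. -/
def Stmt_GAM : Prop :=
  ∀ k : ℕ, 2 ≤ k → ∃ γ : ℝ, 0 < γ ∧ γ < 1 ∧ Tendsto (fun n : ℕ => EL k n / n) atTop (𝓝 γ) ∧
    ∀ n : ℕ, EL k n ≤ γ * n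

/-- **CR**: if the conclusion of `Stmt_E` fails for some `z > 0` there is a critical `c`
(take `c = sSup {z | ∀ n, Z z n n ≤ exp (2 z α n)}`; bounded because `Z z n n ≥ k^(-n) exp (z n)` and
`2α < 1`; closed by continuity of `z ↦ Z z n n`; the general `a, b` bound from
`Z a b ^ 2 = Z a b * Z b a ≤ Z (a+b) (a+b)`). -/
def Stmt_CR : Prop :=
  ∀ (k : ℕ) (γ z : ℝ), 2 ≤ k → 0 < γ → γ < 1 → Tendsto (fun n : ℕ => EL k n / n) atTop (𝓝 γ) →
    0 < z → (∀ n : ℕ, Z k z n n ≤ Real.exp (z * γ * n)) → ∃ c : ℝ, Crit k (γ / 2) c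

/-- **HZ**: for `z ≤ c` the same bound (weighted AM-GM, pointwise
`exp (z x) ≤ (z/c) exp (c x) + (1 - z/c)` with `x = L - α (a+b)`). -/
def Stmt_HZ : Prop :=
  ∀ (k : ℕ) (α c z : ℝ), Crit k α c → 0 ≤ z → z ≤ c → ∀ a b : ℕ,
    Z k z a b ≤ Real.exp (z * α * (a + b))

/-- **P1**: lower bound. For every number `n ≥ 1` of rows there is `b ≤ C n` with
`Z n b ≥ exp (z α (n+b)) / (C (n+1))`.
Proof: for fixed `B` the sums `A_n = ∑ b < B, Z n b exp (-z α (n+b))` are submultiplicative in `n`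
(`Z_split`), so `exp (-z α 2 j n) Z (jn) (jn) ≤ A_n ^ j` (with `B = jn+1`); `log Z (jn)(jn) ≥
z EL (jn)` (Jensen) and the limit force `A_n ≥ 1` up to a uniform factor; the terms with `b > C n`
are a small geometric tail (`Z n b ≤ exp (z n)`). -/
def Stmt_P1 : Prop :=
  ∀ (k : ℕ) (α c z : ℝ), Crit k α c → 0 < z → z ≤ c → ∃ C : ℕ, 0 < C ∧ ∀ n : ℕ, 1 ≤ n →
    ∃ b ≤ C * n, Real.exp (z * α * (n + b)) ≤ (C * (n + 1) : ℝ) * Z k z n b

/-- **MX**: penalised maximiser of `u(a,b) - lam (|a-a₀|+|b-b₀|)` (here `R ≥ 1` is the inverse of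
`exp u(a₀,b₀)`): no other point is much better, and `(a,b)` is close to `(a₀,b₀)`. -/
def Stmt_MX : Prop :=
  ∀ (k : ℕ) (α c z lam R : ℝ) (a₀ b₀ : ℕ), Crit k α c → 0 < z → z ≤ c → 0 < lam → 1 ≤ R →
    Real.exp (z * α * (a₀ + b₀)) ≤ R * Z k z a₀ b₀ →
    ∃ a b : ℕ, Real.exp (z * α * (a + b)) ≤ R * Z k z a b ∧
      |(a : ℝ) - a₀| + |(b : ℝ) - b₀| ≤ Real.log R / lam ∧
      ∀ a' b' : ℕ, Z k z a' b' ≤ Z k z a b *
        Real.exp (z * α * ((a' : ℝ) + b' - a - b) + lam * (|(a' : ℝ) - a| + |(b' : ℝ) - b|))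

/-- **EB** (exponential blocks): for `z₂ > c` there are `m₀ ≥ 1`, `Δ > 0`, `D > 0` with
`c Δ ≤ D ≤ z₂ Δ`, and for every `r` a symmetric relation `A` on words of length `r * m₀` with
probability exactly `exp (-D r)` on which `L ≥ 2 α r m₀ + r Δ`.
(One value `l` of `L` with `P(L_m = l) exp (z₂ (l - 2αm)) > 1` exists for `m = q n` with `q` large by
`Z_mul_le`; `c Δ ≤ D` from `hH`; then `r` independent blocks.) -/
def Stmt_EB : Prop :=
  ∀ (k : ℕ) (α c z₂ : ℝ), Crit k α c → c < z₂ → ∃ (m₀ : ℕ) (Δ D : ℝ), 1 ≤ m₀ ∧ 0 < Δ ∧ 0 < D ∧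
    c * Δ ≤ D ∧ D ≤ z₂ * Δ ∧ ∀ r : ℕ, ∃ A : List (Fin k) → List (Fin k) → Prop,
      (∀ u v, A u v → A v u) ∧
      (∀ u v, u.length = r * m₀ → v.length = r * m₀ → A u v →
        2 * α * (r * m₀) + r * Δ ≤ (L u v : ℝ)) ∧
      open Classical in
      Ex k (r * m₀) (fun u => Ex k (r * m₀) (fun v => if A u v then 1 else 0)) =
        Real.exp (-(D * r))

/-- **DEG** (degree trick): for a symmetric relation of probability `δ` at least `3/8` of it sits on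
words `u` with `q(u) ≤ 2 √δ`. (`h = P(q > 2√δ) ≤ √δ/2`, `δ ≤ 2 P(A, u good) + h²`.) -/
def Stmt_DEG : Prop :=
  ∀ (k s : ℕ) (A : List (Fin k) → List (Fin k) → Prop) (δ : ℝ), 0 < k → (∀ u v, A u v → A v u) →
    0 < δ →
    (open Classical in Ex k s (fun u => Ex k s (fun v => if A u v then 1 else 0)) = δ) →
    3 / 8 * δ ≤ (open Classical in Ex k s (fun u =>
      if Ex k s (fun v => if A u v then 1 else 0) ≤ 2 * Real.sqrt δ then
        Ex k s (fun v => if A u v then 1 else 0) else 0))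

/-- **BP** (block product): disjoint windows of a random word are independent. -/
def Stmt_BP : Prop :=
  ∀ (k s n ρ N : ℕ) (φ : List (Fin k) → ℝ), 0 < k → ρ + n * s ≤ N →
    Ex k N (fun y => ∏ i ∈ Finset.range n, φ ((y.drop (ρ + i * s)).take s)) = (Ex k s φ) ^ n

/-- **T1** (near-tie partition function), uses `Stmt_DEG`, `Stmt_BP`. -/
def Stmt_T1 : Prop :=
  ∀ (k : ℕ) (α c z : ℝ), Crit k α c → 0 < z → z < c →
    ∀ (s : ℕ) (A : List (Fin k) → List (Fin k) → Prop) (l δ : ℝ), 1 ≤ s → (∀ u v, A u v → A v u) →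
    (∀ u v, u.length = s → v.length = s → A u v → l ≤ (L u v : ℝ)) → 0 < δ →
    (open Classical in Ex k s (fun u => Ex k s (fun v => if A u v then 1 else 0)) = δ) →
    ∀ (a b t : ℕ) (K y : ℝ), t ≤ a → 0 < K → 0 ≤ y →
    3 / 8 * δ * Real.exp (z * l) *
        ∑ g ∈ Finset.range (b + 1), Z k z t g * Z k z (a - t) (b - g) ≤
      K * s * Z k z (a + s) (b + s) +
      Real.exp (z * l) * (b + 1) *
        (Real.exp (z * y) * ((2 : ℝ) ^ (-K) * Real.exp (2 * Real.sqrt δ * (b + 1))) +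
          Real.exp (-((c - z) * y))) * Real.exp (z * α * (a + b))

/-- **T2a**: a word `w` of length `s` sits in one of `n` disjoint windows. -/
def Stmt_T2a : Prop :=
  ∀ (k : ℕ) (α c z : ℝ), Crit k α c → 0 < z → z < c →
    ∀ (s n a b : ℕ) (w : List (Fin k)) (y : ℝ), w.length = s → 1 ≤ s → n * s ≤ a → 0 ≤ y →
    Z k z a b ≤ (k : ℝ)⁻¹ ^ s * ∑ i ∈ Finset.range n,
        Ex k (i * s) (fun x₁ => Ex k (a - (i + 1) * s) (fun x₂ => Ex k b (fun v =>
          Real.exp (z * (L (x₁ ++ w ++ x₂) v : ℝ))))) +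
      (Real.exp (z * y) * (1 - (k : ℝ)⁻¹ ^ s) ^ n + Real.exp (-((c - z) * y))) *
        Real.exp (z * α * (a + b))

/-- **T2b**: decomposition over the window `[g, g+h)` of `w`. -/
def Stmt_T2b : Prop :=
  ∀ (k : ℕ) (z : ℝ) (t t' b : ℕ) (w : List (Fin k)), 0 < k → 0 ≤ z →
    Ex k t (fun x₁ => Ex k t' (fun x₂ => Ex k b (fun v =>
        Real.exp (z * (L (x₁ ++ w ++ x₂) v : ℝ))))) ≤
      ∑ h ∈ Finset.range (b + 1), Ex k h (fun v => Real.exp (z * (L w v : ℝ))) *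
        ∑ g ∈ Finset.range (b - h + 1), Z k z t g * Z k z t' (b - h - g)

/-- **T2c**: the constant word. -/
def Stmt_T2c : Prop :=
  ∀ (k : ℕ) (z θ : ℝ) (s h : ℕ) (o : Fin k), 0 ≤ θ → θ ≤ z →
    Ex k h (fun v => Real.exp (z * (L (List.replicate s o) v : ℝ))) ≤
      Real.exp ((z - θ) * s) * (1 + (Real.exp θ - 1) / k) ^ h

/-- **K**: strict inequality for the greedy strategy at the critical parameter (two-state
recursion, see `PROOF.md`). -/
def Stmt_K : Prop :=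
  ∀ (k : ℕ) (α c : ℝ), Crit k α c →
    1 + (Real.exp (c * (1 - α)) - 1) / k < Real.exp (c * α)

/-- **FIN**: the contradiction. Hypotheses: all blocks above. -/
def Stmt_FIN : Prop := ∀ (k : ℕ) (α c : ℝ), ¬ Crit k α c

/-- **TAIL**: from `Stmt_E` to the upper tail. -/
def Stmt_TAIL : Prop :=
  Stmt_E → ∀ k : ℕ, 2 ≤ k → ∀ γ : ℝ, Tendsto (fun n : ℕ => EL k n / n) atTop (𝓝 γ) →
    (∀ n : ℕ, EL k n ≤ γ * n) → ∀ ε : ℝ, 0 < ε → ∃ δ₀ : ℝ, 0 < δ₀ ∧ ∀ δ : ℝ, 0 < δ → δ < δ₀ →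
    ∀ᶠ n : ℕ in atTop, Real.exp (-(ε * δ * n)) ≤ PrL k n ((γ + δ) * n)

/-- **CONV**: conversion to the uniform measure (form of the frozen statement). -/
def Stmt_CONV : Prop :=
  ∀ (k n : ℕ) [NeZero k],
    (∀ t : ℝ, (PMF.uniformOfFintype ((Fin n → Fin k) × (Fin n → Fin k))).toMeasure.real
      {p | t ≤ ((sSup {m : ℕ | ∃ l : List (Fin k), l.length = m ∧ l.Sublist (List.ofFn p.1) ∧
        l.Sublist (List.ofFn p.2)} : ℕ) : ℝ)} = PrL k n t) ∧
    (∫ p : (Fin n → Fin k) × (Fin n → Fin k),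
      ((sSup {m : ℕ | ∃ l : List (Fin k), l.length = m ∧ l.Sublist (List.ofFn p.1) ∧
        l.Sublist (List.ofFn p.2)} : ℕ) : ℝ)
      ∂(PMF.uniformOfFintype ((Fin n → Fin k) × (Fin n → Fin k))).toMeasure) = EL k n

end Pool.Agent.LCSE
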